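import Pool.Agent.Zk3.GL.HWh
import Pool.Agent.N784.HC.Good2
import Pool.Agent.Y773.IQ.Good

set_option autoImplicit false

/-!
# Sums of Hecke characters of number fields
-/

namespace Pool.Agent.Zk3.GL

open NumberField Complex Filter Topology Set
open Pool.Agent.Y773 (LI)
open Pool.Agent.N784.HC (IsHecke CTyp)

theorem hecke (K : Type) [Field K] [NumberField K] {n : (K →+* ℂ) → ℕ} (hn : CTyp n) :
    ∃ A : ℝ, 1 ≤ A ∧ ∀ (𝔣 : Ideal (𝓞 K)) (ψ : Ideal (𝓞 K) →*₀ ℂ), 𝔣 ≠ ⊤ → IsHecke K 𝔣 n ψ →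
      1 ≤ (Ideal.absNorm 𝔣 : ℝ) ∧ ∃ F : ℂ → ℂ, Differentiable ℂ F ∧ ∀ i : ℕ,
        IsHW i (Module.finrank ℚ K) (lp i ψ) A (Ideal.absNorm 𝔣) (fun s => F (s - (i : ℂ) / 2)) := by
  have hq : ∀ 𝔣 : Ideal (𝓞 K), 𝔣 ≠ ⊥ → 1 ≤ (Ideal.absNorm 𝔣 : ℝ) ∧
      1 ≤ (Ideal.absNorm 𝔣 : ℝ) ^ (1 / (Module.finrank ℚ K : ℝ)) ∧
      (Ideal.absNorm 𝔣 : ℝ) ^ (1 / (Module.finrank ℚ K : ℝ)) ≤ (Ideal.absNorm 𝔣 : ℝ) := by
    intro 𝔣 hf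
    have h1 : (1 : ℝ) ≤ (Ideal.absNorm 𝔣 : ℝ) := by
      have : Ideal.absNorm 𝔣 ≠ 0 := by
        rw [Ne, Ideal.absNorm_eq_zero_iff]; exact hf
      exact_mod_cast Nat.one_le_iff_ne_zero.mpr this
    have hd : (1 : ℝ) ≤ (Module.finrank ℚ K : ℝ) := by
      have := Module.finrank_pos (R := ℚ) (M := K)
      exact_mod_cast this
    refine ⟨h1, Real.one_le_rpow h1 (by positivity), ?_⟩
    calc (Ideal.absNorm 𝔣 : ℝ) ^ (1 / (Module.finrank ℚ K : ℝ)) ≤ (Ideal.absNorm 𝔣 : ℝ) ^ (1 : ℝ) := by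
          refine Real.rpow_le_rpow_of_exponent_le h1 ?_
          rw [div_le_one (by linarith)]
          exact hd
      _ = _ := Real.rpow_one _
  by_cases h0 : n = 0
  · subst h0
    obtain ⟨A, hA, h⟩ := Pool.Agent.Y773.IQ.good K
    refine ⟨A, hA, fun 𝔣 ψ htop hψ => ?_⟩
    obtain ⟨q1, q2, q3⟩ := hq 𝔣 hψ.ne_bot
    have hp : Pool.Agent.Y773.G.IsPrimChar K 𝔣 ψ :=
      ⟨hψ.ne_bot, hψ.supp, fun x h1 h2 h3 => by
        rw [hψ.ray x h1 h2 h3, Pool.Agent.N784.HC.ph_zero_type], fun 𝔤 h1 h2 => by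
        obtain ⟨x, g1, g2, g3, g4⟩ := hψ.prim 𝔤 h1 h2
        rw [Pool.Agent.N784.HC.ph_zero_type] at g4
        exact ⟨x, g1, g2, g3, g4⟩⟩
    obtain ⟨F, hF, hFL, hg⟩ := h 𝔣 ψ htop hp
    have hn1 := hp.norm_le_one Pool.Agent.Y772.G.t_sig
    exact ⟨q1, F, hF, fun i => (hecke_atom i hn1 hF hFL hg.growth).mono hA q2 le_rfl q3⟩
  · obtain ⟨A, hA, h⟩ := Pool.Agent.N784.HC.goodH K hn h0
    refine ⟨A, hA, fun 𝔣 ψ htop hψ => ?_⟩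
    obtain ⟨q1, q2, q3⟩ := hq 𝔣 hψ.ne_bot
    obtain ⟨F, hF, hFL, hg⟩ := h 𝔣 ψ htop hψ
    obtain ⟨e, he, hc, hmod⟩ := hψ.modK htop
    exact ⟨q1, F, hF, fun i => (hecke_atom i hmod.norm_le_one hF hFL hg.growth).mono hA q2 le_rfl q3⟩

theorem sums (m : ℕ) (K : Fin m → Type) [∀ j, Field (K j)] [∀ j, NumberField (K j)]
    (n : ∀ j, (K j →+* ℂ) → ℕ) (hn : ∀ j, CTyp (n j)) (t : ℕ) :
    ∃ A : ℝ, 1 ≤ A ∧ ∀ (i N : ℕ) (𝔣 : ∀ j, Ideal (𝓞 (K j))) (ψ : ∀ j, Ideal (𝓞 (K j)) →*₀ ℂ), N ≠ 0 →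
      (∀ j, 𝔣 j ≠ ⊤ ∧ IsHecke (K j) (𝔣 j) (n j) (ψ j)) →
      1 ≤ (N : ℝ) * ∏ j, (Ideal.absNorm (𝔣 j) : ℝ) ∧ ∃ L : ℂ → ℂ, (t = 0 → Differentiable ℂ L) ∧
        IsHW i (t + ∑ j, Module.finrank ℚ (K j))
          (fun p => if p ∣ N then 1 else
            (1 - Polynomial.C ((p : ℂ) ^ ((i : ℂ) / 2)) * Polynomial.X) ^ t * ∏ j, lp i (ψ j) p)
          A (N * ∏ j, (Ideal.absNorm (𝔣 j) : ℝ)) L := by
  classical
  choose A hA hh using fun j => hecke (K j) (hn j)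
  obtain ⟨Az, hAz, hz⟩ := zeta_atom
  obtain ⟨A1, hA1, hp1⟩ := IsHW.prod (Finset.univ : Finset (Fin m)) (fun j => Module.finrank ℚ (K j)) A hA
  obtain ⟨A2, hA2, hp2⟩ := IsHW.prod (Finset.univ : Finset (Fin t)) (fun _ => 1) (fun _ => Az) (fun _ => hAz)
  obtain ⟨D, hD⟩ : ∃ D : ℕ, D = t + ∑ j, Module.finrank ℚ (K j) := ⟨_, rfl⟩
  have hD0 : (0 : ℝ) ≤ D := Nat.cast_nonneg D
  have hAA : 1 ≤ 2 * A2 * A1 := by nlinarith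
  refine ⟨2 * A2 * A1 + D, by linarith, fun i N 𝔣 ψ hN hψ => ?_⟩
  choose hq F hF hHW using fun j => hh j (𝔣 j) (ψ j) (hψ j).1 (hψ j).2
  obtain ⟨h1, h2⟩ := hp1 i (fun j => lp i (ψ j)) (fun j => (Ideal.absNorm (𝔣 j) : ℝ))
    (fun j s => F j (s - (i : ℂ) / 2)) fun j _ => ⟨hq j, hHW j i⟩
  obtain ⟨h3, h4⟩ := hp2 i (fun _ p => 1 - Polynomial.C ((p : ℂ) ^ ((i : ℂ) / 2)) * Polynomial.X) (fun _ => 1)
    (fun _ s => riemannZeta (s - (i : ℂ) / 2)) fun _ _ => ⟨le_rfl, hz i⟩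
  simp only [Finset.prod_const, Finset.card_univ, Fintype.card_fin, one_pow, Finset.sum_const, smul_eq_mul,
    mul_one] at h4
  have h5 := (h4.mul h2 hA2 le_rfl hA1 h1).remove hAA (by rw [one_mul]; exact h1) hN
  rw [← hD] at h5
  have hN1 : (1 : ℝ) ≤ N := by exact_mod_cast Nat.one_le_iff_ne_zero.2 hN
  have e1 : (1 : ℝ) * (∏ j, (Ideal.absNorm (𝔣 j) : ℝ)) * N = N * ∏ j, (Ideal.absNorm (𝔣 j) : ℝ) := by ring
  rw [e1] at h5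
  rw [← hD]
  refine ⟨by nlinarith, _, ?_, h5⟩
  intro ht
  subst ht
  simp only [pow_zero, one_mul]
  refine Differentiable.mul ?_ ?_
  · refine Differentiable.fun_finsetProd fun j _ => ?_
    exact (hF j).comp (by fun_prop)
  · refine Differentiable.fun_finsetProd fun p hp => ?_
    have hp0 : (p : ℂ) ≠ 0 := by exact_mod_cast (Nat.prime_of_mem_primeFactors hp).ne_zero
    have h6 : Differentiable ℂ (fun s : ℂ => (p : ℂ) ^ (-s)) := by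
      intro s
      exact (differentiableAt_neg_iff.2 differentiableAt_id).const_cpow (Or.inl hp0)
    exact (Polynomial.differentiable _).comp h6

end Pool.Agent.Zk3.GL
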