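import Pool.Agent.Zk3.GL.HW

set_option autoImplicit false

/-!
# Products, and the removal of Euler factors
-/

namespace Pool.Agent.Zk3.GL

open Complex Filter Topology Set
open ArithmeticFunction (vonMangoldt)

lemma pow_split {A A' X Y : ℝ} (hA : 1 ≤ A) (hA' : 1 ≤ A') (hX : 1 ≤ X) (hY : 1 ≤ Y) {Z : ℝ}
    (hXZ : X ≤ Z) (hYZ : Y ≤ Z) : A * X ^ A * (A' * Y ^ A') ≤ (2 * A * A') * Z ^ (2 * A * A') := by
  have hZ : 1 ≤ Z := hX.trans hXZ
  have h1 : X ^ A ≤ Z ^ A := Real.rpow_le_rpow (by linarith) hXZ (by linarith)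
  have h2 : Y ^ A' ≤ Z ^ A' := Real.rpow_le_rpow (by linarith) hYZ (by linarith)
  have h3 : A + A' ≤ 2 * A * A' := by nlinarith
  have h4 : Z ^ (A + A') ≤ Z ^ (2 * A * A') := Real.rpow_le_rpow_of_exponent_le hZ h3
  have h5 : 0 ≤ X ^ A := Real.rpow_nonneg (by linarith) _
  have h6 : 0 ≤ Y ^ A' := Real.rpow_nonneg (by linarith) _
  have h7 : 0 ≤ Z ^ (2 * A * A') := Real.rpow_nonneg (by linarith) _
  have h8 : 0 ≤ A * A' := by positivity
  calc A * X ^ A * (A' * Y ^ A') = A * A' * (X ^ A * Y ^ A') := by ring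
    _ ≤ A * A' * (Z ^ A * Z ^ A') :=
        mul_le_mul_of_nonneg_left (mul_le_mul h1 h2 h6 (h5.trans h1)) h8
    _ = A * A' * Z ^ (A + A') := by rw [← Real.rpow_add (by linarith)]
    _ ≤ A * A' * Z ^ (2 * A * A') := mul_le_mul_of_nonneg_left h4 h8
    _ ≤ (2 * A * A') * Z ^ (2 * A * A') := by
        refine mul_le_mul_of_nonneg_right ?_ h7
        nlinarith

lemma IsHW.one (i : ℕ) : IsHW i 0 (fun _ => 1) 1 1 (fun _ => 1) where
  const _ _ := by simp
  degree _ _ := by simp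
  roots _ _ z hz := by simp at hz
  euler s _ := by
    simp only [Polynomial.eval_one, inv_one]
    exact hasProd_one
  analytic _ _ := analyticAt_const
  growth s _ _ h := by
    rw [norm_one, Real.rpow_one]
    linarith

lemma IsHW.mono {i D : ℕ} {P : ℕ → Polynomial ℂ} {A Q A' Q' : ℝ} {L : ℂ → ℂ} (h : IsHW i D P A Q L)
    (hA : 1 ≤ A) (hQ : 1 ≤ Q) (hA' : A ≤ A') (hQ' : Q ≤ Q') : IsHW i D P A' Q' L where
  const := h.const
  degree := h.degree
  roots := h.roots
  euler := h.euler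
  analytic := h.analytic
  growth s h1 h2 h3 := by
    refine (h.growth s h1 h2 h3).trans ?_
    have h4 : 1 ≤ Q * s.im := by nlinarith
    have h5 : Q * s.im ≤ Q' * s.im := mul_le_mul_of_nonneg_right hQ' (by linarith)
    refine mul_le_mul hA' ?_ (by positivity) (by linarith)
    exact (Real.rpow_le_rpow_of_exponent_le h4 hA').trans
      (Real.rpow_le_rpow (by linarith) h5 (by linarith))

lemma IsHW.mul {i D D' : ℕ} {P P' : ℕ → Polynomial ℂ} {A Q A' Q' : ℝ} {L L' : ℂ → ℂ} (h : IsHW i D P A Q L)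
    (h' : IsHW i D' P' A' Q' L') (hA : 1 ≤ A) (hQ : 1 ≤ Q) (hA' : 1 ≤ A') (hQ' : 1 ≤ Q') :
    IsHW i (D + D') (fun p => P p * P' p) (2 * A * A') (Q * Q') (fun s => L s * L' s) where
  const p hp := by
    rw [Polynomial.mul_coeff_zero, h.const p hp, h'.const p hp, one_mul]
  degree p hp := Polynomial.natDegree_mul_le.trans (Nat.add_le_add (h.degree p hp) (h'.degree p hp))
  roots p hp z hz := by
    rw [Polynomial.eval_mul] at hz
    rcases mul_eq_zero.1 hz with h1 | h1
    · exact h.roots p hp z h1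
    · exact h'.roots p hp z h1
  euler s hs := by
    refine ((h.euler s hs).mul (h'.euler s hs)).congr_fun fun p => ?_
    rw [Polynomial.eval_mul, mul_inv]
  analytic s hs := (h.analytic s hs).mul (h'.analytic s hs)
  growth s h1 h2 h3 := by
    rw [norm_mul]
    have e1 := h.growth s h1 h2 h3
    have e2 := h'.growth s h1 h2 h3
    have e3 : 1 ≤ Q * s.im := by nlinarith
    have e4 : 1 ≤ Q' * s.im := by nlinarith
    refine (mul_le_mul e1 e2 (norm_nonneg _) (by positivity)).trans ?_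
    refine pow_split hA hA' e3 e4 ?_ ?_
    · refine mul_le_mul_of_nonneg_right ?_ (by linarith)
      exact le_mul_of_one_le_right (by linarith) hQ'
    · refine mul_le_mul_of_nonneg_right ?_ (by linarith)
      exact le_mul_of_one_le_left (by linarith) hQ

/-- finite products -/
theorem IsHW.prod {ι : Type} (s : Finset ι) (D : ι → ℕ) (A : ι → ℝ) (hA : ∀ j, 1 ≤ A j) :
    ∃ A' : ℝ, 1 ≤ A' ∧ ∀ (i : ℕ) (P : ι → ℕ → Polynomial ℂ) (Q : ι → ℝ) (L : ι → ℂ → ℂ),
      (∀ j ∈ s, 1 ≤ Q j ∧ IsHW i (D j) (P j) (A j) (Q j) (L j)) →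
      1 ≤ ∏ j ∈ s, Q j ∧
      IsHW i (∑ j ∈ s, D j) (fun p => ∏ j ∈ s, P j p) A' (∏ j ∈ s, Q j) (fun z => ∏ j ∈ s, L j z) := by
  classical
  induction s using Finset.induction_on with
  | empty =>
    refine ⟨1, le_rfl, fun i P Q L _ => ?_⟩
    simp only [Finset.sum_empty, Finset.prod_empty]
    exact ⟨le_rfl, IsHW.one i⟩
  | insert a s ha ih =>
    obtain ⟨A', hA', h⟩ := ih
    refine ⟨2 * A a * A', ?_, fun i P Q L hP => ?_⟩
    · have := hA a
      nlinarith
    obtain ⟨h1, h2⟩ := h i P Q L fun j hj => hP j (Finset.mem_insert_of_mem hj)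
    obtain ⟨h3, h4⟩ := hP a (Finset.mem_insert_self a s)
    simp only [Finset.sum_insert ha, Finset.prod_insert ha]
    refine ⟨?_, h4.mul h2 (hA a) h3 hA' h1⟩
    nlinarith

/-- a bound for the local polynomials -/
lemma IsHW.local_le {i D : ℕ} {P : ℕ → Polynomial ℂ} {A Q : ℝ} {L : ℂ → ℂ} (h : IsHW i D P A Q L) {p : ℕ}
    (hp : p.Prime) {s : ℂ} (hs : (i : ℝ) / 2 ≤ s.re) : ‖(P p).eval ((p : ℂ) ^ (-s))‖ ≤ 2 ^ D := by
  have hp0 : (0 : ℝ) < p := by exact_mod_cast hp.pos
  have hp1 : (1 : ℝ) ≤ p := by exact_mod_cast hp.one_lt.le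
  obtain ⟨α, h2, h3⟩ := pol_factor (R := (p : ℝ) ^ ((i : ℝ) / 2)) (by positivity) (h.const p hp) (h.degree p hp)
    (fun z hz => by
      rw [← Real.rpow_neg hp0.le]
      exact h.roots p hp z hz)
  rw [h3, norm_prod]
  calc ∏ j : Fin D, ‖1 - α j * (p : ℂ) ^ (-s)‖ ≤ ∏ j : Fin D, (2 : ℝ) := by
        refine Finset.prod_le_prod (fun _ _ => norm_nonneg _) fun j _ => ?_
        have e1 : ‖α j * (p : ℂ) ^ (-s)‖ ≤ 1 := by
          rw [norm_mul, cpow_norm hp.pos]
          calc ‖α j‖ * (p : ℝ) ^ (-s.re) ≤ (p : ℝ) ^ ((i : ℝ) / 2) * (p : ℝ) ^ (-s.re) :=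
                mul_le_mul_of_nonneg_right (h2 j) (by positivity)
            _ = (p : ℝ) ^ ((i : ℝ) / 2 + -s.re) := (Real.rpow_add hp0 _ _).symm
            _ ≤ 1 := Real.rpow_le_one_of_one_le_of_nonpos hp1 (by linarith)
        calc ‖1 - α j * (p : ℂ) ^ (-s)‖ ≤ ‖(1 : ℂ)‖ + ‖α j * (p : ℂ) ^ (-s)‖ := norm_sub_le _ _
          _ ≤ 2 := by rw [norm_one]; linarith
    _ = 2 ^ D := by simp

lemma two_pow_le (N : ℕ) (hN : N ≠ 0) : 2 ^ N.primeFactors.card ≤ N := by
  calc 2 ^ N.primeFactors.card = ∏ _p ∈ N.primeFactors, 2 := by simp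
    _ ≤ ∏ p ∈ N.primeFactors, p := Finset.prod_le_prod' fun p hp => (Nat.prime_of_mem_primeFactors hp).two_le
    _ ≤ N := Nat.le_of_dvd (Nat.pos_of_ne_zero hN) (Nat.prod_primeFactors_dvd N)

/-- the removal of the Euler factors at the divisors of `N` -/
theorem IsHW.remove {i D : ℕ} {P : ℕ → Polynomial ℂ} {A Q : ℝ} {L : ℂ → ℂ} (h : IsHW i D P A Q L) (hA : 1 ≤ A)
    (hQ : 1 ≤ Q) {N : ℕ} (hN : N ≠ 0) :
    IsHW i D (fun p => if p ∣ N then 1 else P p) (A + D) (Q * N)
      (fun s => L s * ∏ p ∈ N.primeFactors, (P p).eval ((p : ℂ) ^ (-s))) where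
  const p hp := by
    split_ifs
    · simp
    · exact h.const p hp
  degree p hp := by
    split_ifs
    · simp
    · exact h.degree p hp
  roots p hp z hz := by
    split_ifs at hz
    · simp at hz
    · exact h.roots p hp z hz
  euler s hs := by
    have hne : ∀ p : Nat.Primes, (P p).eval (((p : ℕ) : ℂ) ^ (-s)) ≠ 0 := by
      intro p hp
      have h1 := h.roots p p.2 _ hp
      have hp0 : (0 : ℝ) < (p : ℕ) := by exact_mod_cast p.2.pos
      have hp1 : (1 : ℝ) < (p : ℕ) := by exact_mod_cast p.2.one_lt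
      rw [cpow_norm p.2.pos] at h1
      have h2 := (Real.rpow_le_rpow_left_iff hp1).1 h1
      linarith
    set S : Finset Nat.Primes := N.primeFactors.attach.map
      ⟨fun p => ⟨p.1, Nat.prime_of_mem_primeFactors p.2⟩, fun p q hpq => by
        have := congrArg Subtype.val hpq
        exact Subtype.ext this⟩ with hS
    have hmem : ∀ p : Nat.Primes, p ∈ S ↔ (p : ℕ) ∣ N := by
      intro p
      rw [hS, Finset.mem_map]
      constructor
      · rintro ⟨q, -, rfl⟩
        exact Nat.dvd_of_mem_primeFactors q.2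
      · intro hp
        exact ⟨⟨p, Nat.mem_primeFactors.2 ⟨p.2, hp, hN⟩⟩, Finset.mem_attach _ _, rfl⟩
    have h1 : HasProd (fun p : Nat.Primes => if (p : ℕ) ∣ N then (P p).eval (((p : ℕ) : ℂ) ^ (-s)) else 1)
        (∏ p ∈ S, if (p : ℕ) ∣ N then (P p).eval (((p : ℕ) : ℂ) ^ (-s)) else 1) :=
      hasProd_prod_of_ne_finset_one fun p hp => by
        rw [hmem] at hp
        rw [if_neg hp]
    have h2 : (∏ p ∈ S, if (p : ℕ) ∣ N then (P p).eval (((p : ℕ) : ℂ) ^ (-s)) else 1) =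
        ∏ p ∈ N.primeFactors, (P p).eval ((p : ℂ) ^ (-s)) := by
      rw [hS, Finset.prod_map, ← Finset.prod_attach N.primeFactors]
      refine Finset.prod_congr rfl fun p _ => ?_
      exact if_pos (Nat.dvd_of_mem_primeFactors p.2)
    rw [h2] at h1
    refine ((h.euler s hs).mul h1).congr_fun fun p => ?_
    split_ifs
    · rw [Polynomial.eval_one, inv_one, inv_mul_cancel₀ (hne p)]
    · rw [mul_one]
  analytic s hs := by
    refine (h.analytic s hs).mul ?_
    refine Finset.analyticAt_fun_prod _ fun p hp => ?_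
    have hp0 : (p : ℂ) ≠ 0 := by exact_mod_cast (Nat.prime_of_mem_primeFactors hp).ne_zero
    have h1 : AnalyticAt ℂ (fun s : ℂ => (p : ℂ) ^ (-s)) s := by
      have e : (fun s : ℂ => (p : ℂ) ^ (-s)) = fun s : ℂ => Complex.exp (Complex.log p * (-s)) := by
        funext s
        rw [Complex.cpow_def_of_ne_zero hp0]
      rw [e]
      fun_prop
    have h2 : (fun s : ℂ => (P p).eval ((p : ℂ) ^ (-s))) = fun s => Polynomial.aeval ((p : ℂ) ^ (-s)) (P p) := by
      funext s
      simp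
    rw [h2]
    exact h1.aeval_polynomial (P p)
  growth s h1 h2 h3 := by
    have hN1 : (1 : ℝ) ≤ N := by exact_mod_cast Nat.one_le_iff_ne_zero.2 hN
    have hD : (0 : ℝ) ≤ D := Nat.cast_nonneg D
    have e1 := h.growth s h1 h2 h3
    have e2 : ‖∏ p ∈ N.primeFactors, (P p).eval ((p : ℂ) ^ (-s))‖ ≤ (N : ℝ) ^ D := by
      rw [norm_prod]
      calc ∏ p ∈ N.primeFactors, ‖(P p).eval ((p : ℂ) ^ (-s))‖ ≤ ∏ _p ∈ N.primeFactors, (2 : ℝ) ^ D := by
            refine Finset.prod_le_prod (fun _ _ => norm_nonneg _) fun p hp => ?_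
            exact h.local_le (Nat.prime_of_mem_primeFactors hp) (by linarith)
        _ = ((2 : ℝ) ^ N.primeFactors.card) ^ D := by
            rw [Finset.prod_const, ← pow_mul, ← pow_mul, mul_comm]
        _ ≤ (N : ℝ) ^ D := by
            refine pow_le_pow_left₀ (by positivity) ?_ D
            exact_mod_cast two_pow_le N hN
    rw [norm_mul]
    have e3 : 1 ≤ Q * s.im := by nlinarith
    have e4 : 1 ≤ Q * N * s.im := by
      calc (1 : ℝ) ≤ Q * s.im := e3
        _ ≤ Q * s.im * N := le_mul_of_one_le_right (by linarith) hN1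
        _ = _ := by ring
    have e5 : Q * s.im ≤ Q * N * s.im := by
      calc Q * s.im ≤ Q * s.im * N := le_mul_of_one_le_right (by linarith) hN1
        _ = _ := by ring
    have e6 : (N : ℝ) ≤ Q * N * s.im := by
      calc (N : ℝ) ≤ (Q * s.im) * N := le_mul_of_one_le_left (by linarith) e3
        _ = _ := by ring
    calc ‖L s‖ * ‖∏ p ∈ N.primeFactors, (P p).eval ((p : ℂ) ^ (-s))‖ ≤
        (A * (Q * s.im) ^ A) * (N : ℝ) ^ D := mul_le_mul e1 e2 (norm_nonneg _) (by positivity)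
      _ ≤ (A * (Q * N * s.im) ^ A) * (Q * N * s.im) ^ (D : ℝ) := by
          rw [Real.rpow_natCast]
          refine mul_le_mul ?_ (pow_le_pow_left₀ (by linarith) e6 D) (by positivity) (by positivity)
          exact mul_le_mul_of_nonneg_left (Real.rpow_le_rpow (by linarith) e5 (by linarith)) (by linarith)
      _ = A * (Q * N * s.im) ^ (A + D) := by
          rw [mul_assoc, ← Real.rpow_add (by linarith)]
      _ ≤ (A + D) * (Q * N * s.im) ^ (A + D) := mul_le_mul_of_nonneg_right (by linarith) (by positivity)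

end Pool.Agent.Zk3.GL
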