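import Pool.Agent.Zk3.GL.Gen

set_option autoImplicit false

/-!
# The density theorem, clusters only at the scales above the distance of the zero
-/

namespace Pool.Agent.Zk3.GL

open Complex Filter Topology Set Metric MeasureTheory
open ArithmeticFunction (vonMangoldt)

lemma FewF.transfer {F : ℂ → ℂ} {ε B β ρ y X ε' B' δ r X' : ℝ} (h : FewF F ε B β ρ y X) (hX : X ≤ X')
    (h1 : (1 - ε) * ρ ≤ (1 - ε') * r) (h2 : B' * r * (r / δ) ^ ε' ≤ B * ρ * (ρ / β) ^ ε) :
    FewF F ε' B' δ r y X' := by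
  intro Z hZ
  refine (h Z fun z hz => ?_).trans hX
  obtain ⟨g1, g2, g3, g4⟩ := hZ z hz
  exact ⟨g1, g2, by linarith, g4.trans h2⟩

theorem gen2 {ε : ℝ} (hε : 0 < ε) (hε1 : ε ≤ 1) : ∃ B c P : ℝ, 1 ≤ B ∧ 0 < c ∧ 0 < P ∧
    ∀ (D A K : ℝ), 1 ≤ A → ∃ C : ℝ, 0 < C ∧ ∀ (Q : ℝ) (F : ℂ → ℂ) (a : ℕ → ℂ), 1 ≤ Q →
    IsL D A Q F a → ∀ (T H δ : ℝ), 3 ≤ T → 1 ≤ H → H ≤ T → 0 < δ → δ ≤ 1 / 2 →
    ∀ S : Finset ℂ, (∀ s ∈ S, F s = 0 ∧ 1 / 2 + δ ≤ s.re ∧ T < s.im ∧ s.im ≤ T + H ∧
      ∀ r : ℝ, s.re - 1 / 2 ≤ r → r ≤ 1 / 2 → FewF F ε B (s.re - 1 / 2) r s.im (K + c * (r * Real.log H))) →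
    ∑ s ∈ S, (analyticOrderNatAt F s : ℝ) ≤
      C * H ^ (1 - (2 - ε) * δ) * (Real.log (Q * T)) ^ P := by
  classical
  obtain ⟨B', c', P', hB', hc', hP', hgen⟩ := gen (ε := ε / 2) (by linarith) (by linarith)
  refine ⟨2 * B', c' / 2, P' + 1, by linarith, by linarith, by linarith, fun D A K hA => ?_⟩
  obtain ⟨C', hC', hG⟩ := hgen D A K hA
  refine ⟨600 * A * Real.exp 2 + C' * (3 / ε), by positivity, ?_⟩
  intro Q F a hQ hF T H δ hT hH hHT hδ hδ2 S hS
  have hA0 : 0 < A := by linarith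
  have hTp : 0 < T := by linarith
  have hHp : 0 < H := by linarith
  have hQT : 3 ≤ Q * T := by nlinarith
  obtain ⟨l, hl⟩ : ∃ l : ℝ, l = Real.log (Q * T) := ⟨_, rfl⟩
  have hl1 : 1 ≤ l := by
    rw [hl, Real.le_log_iff_exp_le (by linarith)]
    linarith [Real.exp_one_lt_d9]
  have hl0 : 0 < l := by linarith
  have hLn : 0 ≤ Real.log H := Real.log_nonneg hH
  have hLl : Real.log H ≤ l := by
    rw [hl]
    refine Real.log_le_log hHp (hHT.trans ?_)
    exact le_mul_of_one_le_left hTp.le hQ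
  have hre1 : ∀ s ∈ S, s.re - 1 / 2 ≤ 1 / 2 := by
    intro s hs
    obtain ⟨h1, h2, h3, h4, -⟩ := hS s hs
    by_contra h5
    push Not at h5
    exact hF.nz s (by linarith) (by linarith) h1
  obtain ⟨X, hX⟩ : ∃ X : ℝ, X = H ^ (1 - (2 - ε) * δ) := ⟨_, rfl⟩
  have hX0 : 0 < X := by rw [hX]; positivity
  rw [← hX, ← hl]
  have hlP1 : 1 ≤ l ^ P' := Real.one_le_rpow hl1 hP'.le
  have hlP : l ^ (P' + 1) = l ^ P' * l := by rw [Real.rpow_add hl0, Real.rpow_one]
  have hXl : 0 < X * l ^ (P' + 1) := by positivity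
  have hSn : ∀ s : ℂ, (0 : ℝ) ≤ (analyticOrderNatAt F s : ℝ) := fun _ => Nat.cast_nonneg _
  rcases le_or_gt (δ * Real.log H) 1 with hsm | hbig
  · -- tiny `δ`
    have hcr := crude hF hA hQ hT hH hHT S (fun s hs => by
      obtain ⟨h1, h2, h3, h4, -⟩ := hS s hs
      exact ⟨h1, by linarith, h3, h4⟩)
    rw [← hl] at hcr
    have h1 : H ≤ X * Real.exp 2 := by
      rw [hX, Real.rpow_def_of_pos hHp, ← Real.exp_add]
      nth_rewrite 1 [← Real.exp_log hHp]
      refine Real.exp_le_exp.mpr ?_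
      have e0 : Real.log H * (1 - (2 - ε) * δ) + 2 = Real.log H + 2 * (1 - δ * Real.log H) +
          ε * (δ * Real.log H) := by ring
      rw [e0]
      have : 0 ≤ ε * (δ * Real.log H) := by positivity
      linarith
    calc ∑ s ∈ S, (analyticOrderNatAt F s : ℝ) ≤ 600 * A * H * l := hcr
      _ ≤ 600 * A * (X * Real.exp 2) * l :=
          mul_le_mul_of_nonneg_right (mul_le_mul_of_nonneg_left h1 (by positivity)) hl0.le
      _ = 600 * A * Real.exp 2 * (X * (1 * l)) := by ring
      _ ≤ 600 * A * Real.exp 2 * (X * (l ^ P' * l)) := by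
          refine mul_le_mul_of_nonneg_left ?_ (by positivity)
          exact mul_le_mul_of_nonneg_left (mul_le_mul_of_nonneg_right hlP1 hl0.le) hX0.le
      _ = 600 * A * Real.exp 2 * (X * l ^ (P' + 1)) := by rw [hlP]
      _ ≤ (600 * A * Real.exp 2 + C' * (3 / ε)) * (X * l ^ (P' + 1)) := by
          refine mul_le_mul_of_nonneg_right ?_ hXl.le
          have : 0 ≤ C' * (3 / ε) := by positivity
          linarith
      _ = _ := by ring
  · obtain ⟨q, hq⟩ : ∃ q : ℝ, q = 1 + ε / 2 := ⟨_, rfl⟩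
    have hq1 : 1 < q := by rw [hq]; linarith
    have hq0 : 0 < q := by linarith
    have hq2 : q ≤ 3 / 2 := by rw [hq]; linarith
    obtain ⟨M, hM⟩ : ∃ M : ℕ, M = ⌈2 * l / ε⌉₊ := ⟨_, rfl⟩
    have hMl : (M : ℝ) ≤ 3 / ε * l := by
      have h1 : (M : ℝ) < 2 * l / ε + 1 := by rw [hM]; exact Nat.ceil_lt_add_one (by positivity)
      have h2 : 1 ≤ l / ε := by rw [le_div_iff₀ hε]; linarith
      have e : 3 / ε * l = 2 * l / ε + l / ε := by ring
      rw [e]
      linarith
    -- the parts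
    obtain ⟨pj, hpj⟩ : ∃ pj : ℕ → ℂ → Prop, ∀ j s, pj j s ↔
        (δ * q ^ j ≤ s.re - 1 / 2 ∧ s.re - 1 / 2 < δ * q ^ (j + 1)) := ⟨_, fun _ _ => Iff.rfl⟩
    have hcov : ∀ s ∈ S, ∃ j ∈ Finset.range M, pj j s := by
      intro s hs
      obtain ⟨h1, h2, h3, h4, -⟩ := hS s hs
      have h5 := hre1 s hs
      obtain ⟨j, hj1, hj2⟩ := exists_nat_pow_near (x := (s.re - 1 / 2) / δ) (y := q)
        (by rw [le_div_iff₀ hδ]; linarith) hq1
      rw [le_div_iff₀ hδ] at hj1
      rw [div_lt_iff₀ hδ] at hj2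
      refine ⟨j, ?_, ?_⟩
      · rw [Finset.mem_range, hM, Nat.lt_ceil]
        have h6 : 1 + (j : ℝ) * (ε / 2) ≤ q ^ j := by
          rw [hq]
          exact one_add_mul_le_pow (by linarith) j
        have h7 : q ^ j * 1 < Real.log H := by
          have h8 : q ^ j * δ ≤ 1 / 2 := by linarith
          have h9 : (0 : ℝ) < q ^ j := by positivity
          by_contra h10
          push Not at h10
          rw [mul_one] at h10
          have h11 : δ * Real.log H ≤ δ * q ^ j := mul_le_mul_of_nonneg_left h10 hδ.le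
          linarith
        rw [lt_div_iff₀ hε]
        linarith
      · rw [hpj]
        exact ⟨by linarith, by linarith⟩
    have hsum : ∑ s ∈ S, (analyticOrderNatAt F s : ℝ) ≤
        ∑ j ∈ Finset.range M, ∑ s ∈ S.filter (pj j), (analyticOrderNatAt F s : ℝ) := by
      have e1 : ∀ j, ∑ s ∈ S.filter (pj j), (analyticOrderNatAt F s : ℝ) =
          ∑ s ∈ S, if pj j s then (analyticOrderNatAt F s : ℝ) else 0 := fun j => Finset.sum_filter _ _
      rw [Finset.sum_congr rfl fun j _ => e1 j, Finset.sum_comm]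
      refine Finset.sum_le_sum fun s hs => ?_
      obtain ⟨j, hj, hsj⟩ := hcov s hs
      have h0 : ∀ k ∈ Finset.range M, 0 ≤ (if pj k s then (analyticOrderNatAt F s : ℝ) else 0) := by
        intro k _
        split_ifs
        · exact hSn s
        · exact le_rfl
      have h1 := Finset.single_le_sum h0 hj
      rwa [if_pos hsj] at h1
    have hpart : ∀ j ∈ Finset.range M, ∑ s ∈ S.filter (pj j), (analyticOrderNatAt F s : ℝ) ≤ C' * X * l ^ P' := by
      intro j _
      rcases Finset.eq_empty_or_nonempty (S.filter (pj j)) with he | ⟨s0, hs0⟩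
      · rw [he, Finset.sum_empty]
        positivity
      have hqj : (1 : ℝ) ≤ q ^ j := one_le_pow₀ hq1.le
      obtain ⟨d, hd⟩ : ∃ d : ℝ, d = δ * q ^ j := ⟨_, rfl⟩
      have hdδ : δ ≤ d := by rw [hd]; exact le_mul_of_one_le_right hδ.le hqj
      have hd0 : 0 < d := by linarith
      have hd2 : d ≤ 1 / 2 := by
        rw [Finset.mem_filter, hpj] at hs0
        have := hre1 s0 hs0.1
        rw [hd]
        linarith [hs0.2.1]
      have h1 := hG Q F a hQ hF T H d hT hH hHT hd0 hd2 (S.filter (pj j)) (by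
        intro s hs
        rw [Finset.mem_filter, hpj] at hs
        obtain ⟨hsS, g1, g2⟩ := hs
        obtain ⟨h1, h2, h3, h4, h5⟩ := hS s hsS
        have h6 := hre1 s hsS
        rw [← hd] at g1
        have g2' : s.re - 1 / 2 < d * q := by
          rw [hd, mul_assoc, ← pow_succ]
          exact g2
        refine ⟨h1, by linarith, h3, h4, fun r hr1 hr2 => ?_⟩
        obtain ⟨b, hb⟩ : ∃ b : ℝ, b = s.re - 1 / 2 := ⟨_, rfl⟩
        rw [← hb] at h5 g1 g2' h6
        have hb0 : 0 < b := by linarith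
        have hr0 : 0 < r := by linarith
        obtain ⟨ρ, hρ⟩ : ∃ ρ : ℝ, ρ = min (q * r) (1 / 2) := ⟨_, rfl⟩
        have hρ1 : ρ ≤ q * r := by rw [hρ]; exact min_le_left _ _
        have hρ2 : ρ ≤ 1 / 2 := by rw [hρ]; exact min_le_right _ _
        have hρ3 : r ≤ ρ := by
          rw [hρ]
          exact le_min (le_mul_of_one_le_left hr0.le hq1.le) hr2
        have hρ4 : b ≤ ρ := by
          rw [hρ]
          refine le_min ?_ h6
          have : q * d ≤ q * r := mul_le_mul_of_nonneg_left hr1 hq0.le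
          linarith
        have hρ0 : 0 < ρ := by linarith
        refine (h5 ρ hρ4 hρ2).transfer ?_ ?_ ?_
        · have h7 : c' / 2 * (ρ * Real.log H) ≤ c' * (r * Real.log H) := by
            have hqr : q * r ≤ 2 * r := mul_le_mul_of_nonneg_right (by linarith) hr0.le
            have h8 : ρ * Real.log H ≤ 2 * (r * Real.log H) := by
              have : ρ * Real.log H ≤ (2 * r) * Real.log H := mul_le_mul_of_nonneg_right (hρ1.trans hqr) hLn
              linarith
            have h9 := mul_le_mul_of_nonneg_left h8 (show 0 ≤ c' / 2 by linarith)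
            linarith
          linarith
        · have h7 : (1 - ε) * ρ ≤ (1 - ε) * (q * r) := mul_le_mul_of_nonneg_left hρ1 (by linarith)
          have h8 : (1 - ε) * q ≤ 1 - ε / 2 := by
            have e0 : (1 - ε) * q = 1 - ε / 2 - ε ^ 2 / 2 := by rw [hq]; ring
            rw [e0]
            have := sq_nonneg ε
            linarith
          have h9 : (1 - ε) * q * r ≤ (1 - ε / 2) * r := mul_le_mul_of_nonneg_right h8 hr0.le
          linarith
        · have hrd : 1 ≤ r / d := by rw [le_div_iff₀ hd0]; linarith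
          have h7 : (r / d) ^ (ε / 2) ≤ (r / d) ^ ε := Real.rpow_le_rpow_of_exponent_le hrd (by linarith)
          have h8 : r / d ≤ q * (ρ / b) := by
            rw [div_le_iff₀ hd0]
            have e0 : q * (ρ / b) * d = ρ * (d * q) / b := by ring
            rw [e0, le_div_iff₀ hb0]
            exact mul_le_mul hρ3 g2'.le hb0.le hρ0.le
          have h9 : (r / d) ^ ε ≤ 2 * (ρ / b) ^ ε := by
            have h10 : (r / d) ^ ε ≤ (q * (ρ / b)) ^ ε := Real.rpow_le_rpow (by positivity) h8 hε.le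
            rw [Real.mul_rpow hq0.le (by positivity)] at h10
            have h11 : q ^ ε ≤ 2 := by
              calc q ^ ε ≤ q ^ (1 : ℝ) := Real.rpow_le_rpow_of_exponent_le hq1.le hε1
                _ = q := Real.rpow_one q
                _ ≤ 2 := by linarith
            have h12 : 0 ≤ (ρ / b) ^ ε := by positivity
            exact h10.trans (mul_le_mul_of_nonneg_right h11 h12)
          have hB0 : 0 < B' := by linarith
          have h13 : 0 ≤ (r / d) ^ (ε / 2) := by positivity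
          have h14 : 0 ≤ (ρ / b) ^ ε := by positivity
          calc B' * r * (r / d) ^ (ε / 2) ≤ B' * ρ * (r / d) ^ (ε / 2) :=
                mul_le_mul_of_nonneg_right (mul_le_mul_of_nonneg_left hρ3 hB0.le) h13
            _ ≤ B' * ρ * (2 * (ρ / b) ^ ε) :=
                mul_le_mul_of_nonneg_left (h7.trans h9) (by positivity)
            _ = 2 * B' * ρ * (ρ / b) ^ ε := by ring)
      rw [← hl] at h1
      refine h1.trans ?_
      have h2 : H ^ (1 - (2 - ε / 2) * d) ≤ X := by
        rw [hX]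
        refine Real.rpow_le_rpow_of_exponent_le hH ?_
        have h3 : (2 - ε) * δ ≤ (2 - ε / 2) * δ := mul_le_mul_of_nonneg_right (by linarith) hδ.le
        have h4 : (2 - ε / 2) * δ ≤ (2 - ε / 2) * d := mul_le_mul_of_nonneg_left hdδ (by linarith)
        linarith
      exact mul_le_mul_of_nonneg_right (mul_le_mul_of_nonneg_left h2 hC'.le) (by positivity)
    have hE : 0 ≤ 600 * A * Real.exp 2 := by positivity
    calc ∑ s ∈ S, (analyticOrderNatAt F s : ℝ) ≤
        ∑ j ∈ Finset.range M, ∑ s ∈ S.filter (pj j), (analyticOrderNatAt F s : ℝ) := hsum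
      _ ≤ ∑ _j ∈ Finset.range M, C' * X * l ^ P' := Finset.sum_le_sum hpart
      _ = M * (C' * X * l ^ P') := by rw [Finset.sum_const, Finset.card_range, nsmul_eq_mul]
      _ ≤ (3 / ε * l) * (C' * X * l ^ P') := mul_le_mul_of_nonneg_right hMl (by positivity)
      _ = C' * (3 / ε) * (X * (l ^ P' * l)) := by ring
      _ = C' * (3 / ε) * (X * l ^ (P' + 1)) := by rw [hlP]
      _ ≤ (600 * A * Real.exp 2 + C' * (3 / ε)) * (X * l ^ (P' + 1)) :=
          mul_le_mul_of_nonneg_right (by linarith) hXl.le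
      _ = _ := by ring

end Pool.Agent.Zk3.GL
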