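import Pool.Agent.Zk3.GL.Lfun
set_option autoImplicit false
namespace Pool.Agent.Zk3.GL
open Complex Filter Topology Polynomial
open ArithmeticFunction (vonMangoldt)

/-- the coefficients of `-L'/L` for the Frobenius eigenvalues `β j p` -/
noncomputable def co {D : ℕ} (β : ℕ → Fin D → ℂ) (n : ℕ) : ℂ :=
  (vonMangoldt n : ℂ) * ∑ j, β n.minFac j ^ (n.factorization n.minFac)

lemma co_pow {D : ℕ} (β : ℕ → Fin D → ℂ) {p k : ℕ} (hp : p.Prime) (hk : k ≠ 0) :
    co β (p ^ k) = (Real.log p : ℂ) * ∑ j, β p j ^ k := by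
  unfold co
  rw [ArithmeticFunction.vonMangoldt_apply_pow hk, ArithmeticFunction.vonMangoldt_apply_prime hp,
    hp.pow_minFac hk, hp.factorization_pow, Finsupp.single_eq_same]

lemma co_le {D : ℕ} {β : ℕ → Fin D → ℂ} (hβ : ∀ p : ℕ, p.Prime → ∀ j, ‖β p j‖ ≤ 1) (n : ℕ) :
    ‖co β n‖ ≤ D * vonMangoldt n := by
  by_cases h : IsPrimePow n
  · obtain ⟨p, k, hp, hk, rfl⟩ := h
    have hp' : p.Prime := hp.nat_prime
    rw [co_pow β hp' hk.ne', norm_mul, Complex.norm_real, ArithmeticFunction.vonMangoldt_apply_pow hk.ne',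
      ArithmeticFunction.vonMangoldt_apply_prime hp', Real.norm_of_nonneg (Real.log_natCast_nonneg p),
      mul_comm (D : ℝ)]
    refine mul_le_mul_of_nonneg_left ?_ (Real.log_natCast_nonneg p)
    calc ‖∑ j, β p j ^ k‖ ≤ ∑ j : Fin D, (1 : ℝ) := by
          refine norm_sum_le_of_le _ fun j _ => ?_
          rw [norm_pow]
          exact pow_le_one₀ (norm_nonneg _) (hβ p hp' j)
      _ = D := by simp
  · have h1 : vonMangoldt n = 0 := ArithmeticFunction.vonMangoldt_eq_zero_iff.2 h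
    unfold co
    rw [h1]
    simp

lemma cpw (p k : ℕ) (s : ℂ) : ((p : ℂ) ^ k) ^ s = ((p : ℂ) ^ s) ^ k := by
  induction k with
  | zero => simp
  | succ k ih =>
    have h := Complex.natCast_mul_natCast_cpow (p ^ k) p s
    push_cast at h
    rw [pow_succ, h, ih, pow_succ]

lemma sum_log {D : ℕ} {β : ℕ → Fin D → ℂ} (hβ : ∀ p : ℕ, p.Prime → ∀ j, ‖β p j‖ ≤ 1) {s : ℂ} (hs : 1 < s.re) :
    HasSum (fun p : Nat.Primes => ∑ j, -Complex.log (1 - β p j * ((p : ℕ) : ℂ) ^ (-s))) (Tx (co β) s) := by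
  have hco := co_le hβ
  have hsm : Summable (fun n : ℕ => gl (co β) n * (n : ℂ) ^ (-s)) := by
    have hh : LSeriesSummable (gl (co β)) s :=
      LSeriesSummable_of_le_const_mul_rpow (x := 1) hs ⟨D, fun n _ => by
        simpa using gl_le (Nat.cast_nonneg D) hco n⟩
    refine hh.congr fun n => ?_
    rcases eq_or_ne n 0 with rfl | hn
    · have e0 : gl (co β) 0 = 0 := by
        unfold gl
        rw [a_small hco (by norm_num)]
        simp
      rw [e0]
      simp
    · rw [LSeries.term_of_ne_zero hn, Complex.cpow_neg, div_eq_mul_inv]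
  have h1 : HasSum (fun n : ℕ => gl (co β) n * (n : ℂ) ^ (-s)) (Tx (co β) s) := hsm.hasSum
  have hsup : Function.support (fun n : ℕ => gl (co β) n * (n : ℂ) ^ (-s)) ⊆ {n : ℕ | IsPrimePow n} := by
    intro n hn
    by_contra h
    have h2 : ¬ IsPrimePow n := h
    have h3 : vonMangoldt n = 0 := ArithmeticFunction.vonMangoldt_eq_zero_iff.2 h2
    apply hn
    simp only
    unfold gl co
    rw [h3]
    simp
  have h2 := (hasSum_subtype_iff_of_support_subset hsup).2 h1
  have h3 := (Nat.Primes.prodNatEquiv.hasSum_iff).2 h2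
  refine h3.prod_fiberwise fun p => ?_
  have hp : (p : ℕ).Prime := p.2
  have hpr : (1 : ℝ) < (p : ℕ) := by exact_mod_cast hp.one_lt
  have hlog : Real.log (p : ℕ) ≠ 0 := (Real.log_pos hpr).ne'
  have h4 : HasSum (fun k : ℕ => ∑ j, (β p j * ((p : ℕ) : ℂ) ^ (-s)) ^ (k + 1) / ((k : ℂ) + 1))
      (∑ j, -Complex.log (1 - β p j * ((p : ℕ) : ℂ) ^ (-s))) := by
    refine hasSum_sum fun j _ => ?_
    refine Complex.hasSum_taylorSeries_neg_log' ?_
    rw [norm_mul, cpow_norm hp.pos]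
    have h5 : ((p : ℕ) : ℝ) ^ (-s.re) < 1 := Real.rpow_lt_one_of_one_lt_of_neg hpr (by linarith)
    have h6 := hβ p hp j
    have h7 : 0 ≤ ((p : ℕ) : ℝ) ^ (-s.re) := by positivity
    nlinarith
  refine h4.congr_fun fun k => ?_
  have e1 : ((Nat.Primes.prodNatEquiv (p, k) : {n : ℕ // IsPrimePow n}) : ℕ) = (p : ℕ) ^ (k + 1) :=
    Nat.Primes.coe_prodNatEquiv_apply p k
  simp only [Function.comp_apply, e1]
  unfold gl
  rw [co_pow β hp (by omega), Nat.cast_pow, Nat.cast_pow, Real.log_pow]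
  have e2 : (((p : ℕ) : ℂ) ^ (k + 1)) ^ (-s) = (((p : ℕ) : ℂ) ^ (-s)) ^ (k + 1) := cpw _ _ _
  rw [e2, Finset.mul_sum, Finset.sum_div, Finset.sum_mul]
  refine Finset.sum_congr rfl fun j _ => ?_
  have h8 : ((Real.log (p : ℕ) : ℝ) : ℂ) ≠ 0 := by exact_mod_cast hlog
  have h9 : ((k : ℂ) + 1) ≠ 0 := by exact_mod_cast Nat.succ_ne_zero k
  rw [Complex.ofReal_mul, mul_pow]
  generalize ((Real.log (p : ℕ) : ℝ) : ℂ) = l at h8
  push_cast
  field_simp

theorem exp_Tx {D : ℕ} {β : ℕ → Fin D → ℂ} (hβ : ∀ p : ℕ, p.Prime → ∀ j, ‖β p j‖ ≤ 1) {s : ℂ} (hs : 1 < s.re) :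
    HasProd (fun p : Nat.Primes => (∏ j, (1 - β p j * ((p : ℕ) : ℂ) ^ (-s)))⁻¹) (Complex.exp (Tx (co β) s)) := by
  refine (sum_log hβ hs).cexp.congr_fun fun p => ?_
  simp only [Function.comp_apply]
  rw [Complex.exp_sum, ← Finset.prod_inv_distrib]
  refine Finset.prod_congr rfl fun j _ => ?_
  have hp : (p : ℕ).Prime := p.2
  have hpr : (1 : ℝ) < (p : ℕ) := by exact_mod_cast hp.one_lt
  have hne : 1 - β p j * ((p : ℕ) : ℂ) ^ (-s) ≠ 0 := by
    intro h
    have h1 : ‖β p j * ((p : ℕ) : ℂ) ^ (-s)‖ = 1 := by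
      rw [← sub_eq_zero.1 h, norm_one]
    rw [norm_mul, cpow_norm hp.pos] at h1
    have h5 : ((p : ℕ) : ℝ) ^ (-s.re) < 1 := Real.rpow_lt_one_of_one_lt_of_neg hpr (by linarith)
    have h6 := hβ p hp j
    have h7 : 0 ≤ ((p : ℕ) : ℝ) ^ (-s.re) := by positivity
    nlinarith
  rw [Complex.exp_neg, Complex.exp_log hne]

/-- a polynomial with constant coefficient one is a product of factors `1 - α z` -/
theorem pol_factor {P : Polynomial ℂ} {D : ℕ} {R : ℝ} (hR : 0 < R) (h0 : P.coeff 0 = 1) (hd : P.natDegree ≤ D)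
    (hr : ∀ z : ℂ, P.eval z = 0 → R⁻¹ ≤ ‖z‖) :
    ∃ α : Fin D → ℂ, (∀ j, ‖α j‖ ≤ R) ∧ ∀ z : ℂ, P.eval z = ∏ j, (1 - α j * z) := by
  have hP0 : P ≠ 0 := by
    rintro rfl
    simp at h0
  have hsp : P.Splits := IsAlgClosed.splits P
  have hprod := hsp.eq_prod_roots
  set m : Multiset ℂ := P.roots with hm
  have hcard : m.card ≤ D := (Polynomial.card_roots' P).trans hd
  have hne : ∀ a ∈ m, a ≠ 0 := by
    intro a ha h
    have h1 := (Polynomial.mem_roots hP0).1 ha
    rw [h, Polynomial.IsRoot.def, ← Polynomial.coeff_zero_eq_eval_zero, h0] at h1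
    exact one_ne_zero h1
  have hev : ∀ z : ℂ, P.eval z = P.leadingCoeff * (m.map fun a => z - a).prod := by
    intro z
    conv_lhs => rw [hprod]
    rw [Polynomial.eval_mul, Polynomial.eval_C, Polynomial.eval_multiset_prod, Multiset.map_map]
    congr 2
    refine Multiset.map_congr rfl fun a _ => ?_
    simp
  have hev0 := hev 0
  rw [← Polynomial.coeff_zero_eq_eval_zero, h0] at hev0
  have hev1 : ∀ z : ℂ, P.eval z = (m.map fun a => 1 - a⁻¹ * z).prod := by
    intro z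
    have e1 : (m.map fun a => z - a).prod = (m.map fun a => (0 - a) * (1 - a⁻¹ * z)).prod := by
      congr 1
      refine Multiset.map_congr rfl fun a ha => ?_
      have := hne a ha
      field_simp
      ring
    rw [hev z, e1, Multiset.prod_map_mul, ← mul_assoc, ← hev0, one_mul]
  obtain ⟨l, hl⟩ : ∃ l : List ℂ, (l : Multiset ℂ) = m.map (fun a => a⁻¹) + Multiset.replicate (D - m.card) 0 :=
    Quot.exists_rep _
  have hlen : l.length = D := by
    have := congrArg Multiset.card hl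
    rw [Multiset.coe_card, Multiset.card_add, Multiset.card_map, Multiset.card_replicate] at this
    omega
  have hmem : ∀ x ∈ l, ‖x‖ ≤ R := by
    intro x hx
    have hx' : x ∈ (l : Multiset ℂ) := hx
    rw [hl, Multiset.mem_add, Multiset.mem_map, Multiset.mem_replicate] at hx'
    rcases hx' with ⟨a, ha, rfl⟩ | ⟨-, rfl⟩
    · have h1 := hr a ((Polynomial.mem_roots hP0).1 ha)
      rw [norm_inv]
      exact inv_le_of_inv_le₀ hR h1
    · rw [norm_zero]; exact hR.le
  have hpr : ∀ z : ℂ, (l.map fun x => 1 - x * z).prod = P.eval z := by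
    intro z
    have h1 : ((l : Multiset ℂ).map fun x => 1 - x * z).prod = P.eval z := by
      rw [hl, Multiset.map_add, Multiset.prod_add, Multiset.map_map, hev1 z, Multiset.map_replicate,
        Multiset.prod_replicate]
      simp
    rwa [Multiset.map_coe, Multiset.prod_coe] at h1
  subst hlen
  refine ⟨fun j => l.get j, fun j => hmem _ (List.get_mem l j), fun z => ?_⟩
  rw [← hpr z, ← List.prod_ofFn]
  congr 1
  conv_lhs => rw [← List.ofFn_get l, List.map_ofFn]
  rfl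
end Pool.Agent.Zk3.GL
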