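import Pool.Agent.Zk3.GL.Gen2
import Pool.Agent.Zk3.GL.Eul

set_option autoImplicit false

/-!
# Hasse-Weil L-functions in the class `IsL`
-/

namespace Pool.Agent.Zk3.GL

open Complex Filter Topology Set
open ArithmeticFunction (vonMangoldt)

/-- Hasse-Weil L-functions with local polynomials `P p`, in degree `i` -/
structure IsHW (i D : ℕ) (P : ℕ → Polynomial ℂ) (A Q : ℝ) (L : ℂ → ℂ) : Prop where
  const : ∀ p : ℕ, p.Prime → (P p).coeff 0 = 1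
  degree : ∀ p : ℕ, p.Prime → (P p).natDegree ≤ D
  roots : ∀ p : ℕ, p.Prime → ∀ z : ℂ, (P p).eval z = 0 → (p : ℝ) ^ (-((i : ℝ) / 2)) ≤ ‖z‖
  euler : ∀ s : ℂ, (i : ℝ) / 2 + 1 < s.re →
    HasProd (fun p : Nat.Primes => ((P p).eval (((p : ℕ) : ℂ) ^ (-s)))⁻¹) (L s)
  analytic : ∀ s : ℂ, 0 < s.im → AnalyticAt ℂ L s
  growth : ∀ s : ℂ, (i : ℝ) / 2 + 1 / 16 ≤ s.re → s.re ≤ (i : ℝ) / 2 + 4 → 1 ≤ s.im →
    ‖L s‖ ≤ A * (Q * s.im) ^ A

lemma re_sh (i : ℕ) (s : ℂ) : (s + (i : ℂ) / 2 : ℂ).re = s.re + (i : ℝ) / 2 := by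
  have : ((i : ℂ) / 2) = (((i : ℝ) / 2 : ℝ) : ℂ) := by push_cast; rfl
  rw [this, Complex.add_re, Complex.ofReal_re]

lemma im_sh (i : ℕ) (s : ℂ) : (s + (i : ℂ) / 2 : ℂ).im = s.im := by
  have : ((i : ℂ) / 2) = (((i : ℝ) / 2 : ℝ) : ℂ) := by push_cast; rfl
  rw [this, Complex.add_im, Complex.ofReal_im, add_zero]

lemma ord_sh (i : ℕ) (L : ℂ → ℂ) (s : ℂ) :
    analyticOrderNatAt (fun z => L (z + (i : ℂ) / 2)) s = analyticOrderNatAt L (s + (i : ℂ) / 2) := by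
  have hg : AnalyticAt ℂ (fun z : ℂ => z + (i : ℂ) / 2) s := by fun_prop
  have hd : deriv (fun z : ℂ => z + (i : ℂ) / 2) s ≠ 0 := by
    simp
  have h := analyticOrderAt_comp_of_deriv_ne_zero (f := L) hg hd
  unfold analyticOrderNatAt
  have h2 : (fun z : ℂ => L (z + (i : ℂ) / 2)) = L ∘ (fun z : ℂ => z + (i : ℂ) / 2) := rfl
  rw [h2, h]

/-- a Hasse-Weil L-function has an exponential form -/
theorem IsHW.exp_form {i D : ℕ} {P : ℕ → Polynomial ℂ} {L : ℂ → ℂ}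
    (hc : ∀ p : ℕ, p.Prime → (P p).coeff 0 = 1) (hdeg : ∀ p : ℕ, p.Prime → (P p).natDegree ≤ D)
    (hr : ∀ p : ℕ, p.Prime → ∀ z : ℂ, (P p).eval z = 0 → (p : ℝ) ^ (-((i : ℝ) / 2)) ≤ ‖z‖)
    (he : ∀ s : ℂ, (i : ℝ) / 2 + 1 < s.re →
      HasProd (fun p : Nat.Primes => ((P p).eval (((p : ℕ) : ℂ) ^ (-s)))⁻¹) (L s)) :
    ∃ a : ℕ → ℂ, (∀ n, ‖a n‖ ≤ D * vonMangoldt n) ∧
      ∀ w : ℂ, 1 < w.re → L (w + (i : ℂ) / 2) = Complex.exp (Tx a w) := by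
  have h1 : ∀ p : ℕ, ∃ α : Fin D → ℂ, p.Prime → (∀ j, ‖α j‖ ≤ (p : ℝ) ^ ((i : ℝ) / 2)) ∧
      ∀ z : ℂ, (P p).eval z = ∏ j, (1 - α j * z) := by
    intro p
    by_cases hp : p.Prime
    · have hp0 : (0 : ℝ) < p := by exact_mod_cast hp.pos
      obtain ⟨α, h2, h3⟩ := pol_factor (R := (p : ℝ) ^ ((i : ℝ) / 2)) (by positivity) (hc p hp) (hdeg p hp)
        (fun z hz => by
          rw [← Real.rpow_neg hp0.le]
          exact hr p hp z hz)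
      exact ⟨α, fun _ => ⟨h2, h3⟩⟩
    · exact ⟨0, fun h => absurd h hp⟩
  choose α hα using h1
  set β : ℕ → Fin D → ℂ := fun p j => α p j * (((p : ℝ) ^ (-((i : ℝ) / 2)) : ℝ) : ℂ) with hβ
  have hβ1 : ∀ p : ℕ, p.Prime → ∀ j, ‖β p j‖ ≤ 1 := by
    intro p hp j
    have hp0 : (0 : ℝ) < p := by exact_mod_cast hp.pos
    rw [hβ]
    simp only
    rw [norm_mul, Complex.norm_real, Real.norm_of_nonneg (by positivity)]
    calc ‖α p j‖ * (p : ℝ) ^ (-((i : ℝ) / 2)) ≤ (p : ℝ) ^ ((i : ℝ) / 2) * (p : ℝ) ^ (-((i : ℝ) / 2)) :=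
          mul_le_mul_of_nonneg_right ((hα p hp).1 j) (by positivity)
      _ = 1 := by rw [← Real.rpow_add hp0, add_neg_cancel, Real.rpow_zero]
  refine ⟨co β, co_le hβ1, fun w hw => ?_⟩
  have h2 := exp_Tx hβ1 hw
  have h3 := he (w + (i : ℂ) / 2) (by rw [re_sh]; linarith)
  refine h3.unique (h2.congr_fun fun p => ?_)
  have hp : (p : ℕ).Prime := p.2
  have hp0 : (0 : ℝ) < (p : ℕ) := by exact_mod_cast hp.pos
  have hp0' : ((p : ℕ) : ℂ) ≠ 0 := by exact_mod_cast hp.ne_zero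
  rw [(hα p hp).2]
  congr 1
  refine Finset.prod_congr rfl fun j _ => ?_
  rw [hβ]
  simp only
  have e1 : ((p : ℕ) : ℂ) ^ (-(w + (i : ℂ) / 2)) =
      (((((p : ℕ) : ℝ) ^ (-((i : ℝ) / 2)) : ℝ)) : ℂ) * ((p : ℕ) : ℂ) ^ (-w) := by
    rw [Complex.ofReal_cpow hp0.le, Complex.ofReal_natCast, ← Complex.cpow_add _ _ hp0']
    congr 1
    push_cast
    ring
  rw [e1]
  ring

theorem IsHW.toL {i D : ℕ} {P : ℕ → Polynomial ℂ} {A Q : ℝ} {L : ℂ → ℂ} (h : IsHW i D P A Q L) (hA : 1 ≤ A)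
    (hQ : 1 ≤ Q) : ∃ a : ℕ → ℂ,
      IsL D (max A (Real.exp (2 * D))) Q (fun w => L (w + (i : ℂ) / 2)) a := by
  obtain ⟨a, ha, hexp⟩ := IsHW.exp_form h.const h.degree h.roots h.euler
  have hD : (0 : ℝ) ≤ D := Nat.cast_nonneg D
  refine ⟨a, ?_, ?_, ?_, ?_, ha, ?_⟩
  · intro s hs
    have h1 : AnalyticAt ℂ L (s + (i : ℂ) / 2) := h.analytic _ (by rw [im_sh]; exact hs)
    exact AnalyticAt.comp (g := L) (f := fun w => w + (i : ℂ) / 2) h1 (by fun_prop)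
  · intro s h1 h2 h3
    have h4 := h.growth (s + (i : ℂ) / 2) (by rw [re_sh]; linarith) (by rw [re_sh]; linarith)
      (by rw [im_sh]; exact h3)
    rw [im_sh] at h4
    refine h4.trans ?_
    have h5 : 1 ≤ Q * s.im := by nlinarith
    exact mul_le_mul (le_max_left _ _) (Real.rpow_le_rpow_of_exponent_le h5 (le_max_left _ _))
      (by positivity) (by positivity)
  · intro t _
    have h1 : (1 : ℝ) < ((⟨2, t⟩ : ℂ)).re := by norm_num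
    rw [hexp _ h1, Complex.norm_exp]
    have h2 : ‖Tx a (⟨2, t⟩ : ℂ)‖ ≤ 2 * D := (Tx_le hD ha (by norm_num)).1
    have h3 := Complex.abs_re_le_norm (Tx a (⟨2, t⟩ : ℂ))
    have h4 := neg_abs_le (Tx a (⟨2, t⟩ : ℂ)).re
    calc (max A (Real.exp (2 * D)))⁻¹ ≤ (Real.exp (2 * D))⁻¹ :=
          inv_anti₀ (Real.exp_pos _) (le_max_right _ _)
      _ = Real.exp (-(2 * D)) := (Real.exp_neg _).symm
      _ ≤ _ := Real.exp_le_exp.mpr (by linarith)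
  · intro s hs _
    rw [hexp _ hs]
    exact Complex.exp_ne_zero _
  · intro s hs _
    have h1 : (fun w => L (w + (i : ℂ) / 2)) =ᶠ[𝓝 s] fun w => Complex.exp (Tx a w) := by
      have h6 : {z : ℂ | 1 < z.re} ∈ 𝓝 s :=
        (isOpen_lt continuous_const Complex.continuous_re).mem_nhds hs
      filter_upwards [h6] with z hz
      exact hexp z hz
    rw [h1.deriv_eq, (Tx_deriv hD ha hs).cexp.deriv, hexp _ hs]
    field_simp

/-- zeros in a compact part of the upper half plane -/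
lemma fin_box {L : ℂ → ℂ} (han : ∀ s : ℂ, 0 < s.im → AnalyticAt ℂ L s) {s₀ : ℂ} (hs₀ : 0 < s₀.im)
    (hne : L s₀ ≠ 0) (R : ℝ) : {z : ℂ | L z = 0 ∧ 1 ≤ z.im ∧ z.im ≤ R ∧ |z.re| ≤ R}.Finite := by
  have hK : IsCompact (Set.Icc (-R) R ×ℂ Set.Icc (1 : ℝ) R) := isCompact_Icc.reProdIm isCompact_Icc
  by_contra hinf
  have hsub : {z : ℂ | L z = 0 ∧ 1 ≤ z.im ∧ z.im ≤ R ∧ |z.re| ≤ R} ⊆ Set.Icc (-R) R ×ℂ Set.Icc (1 : ℝ) R := by
    rintro ρ ⟨-, h2, h3, h4⟩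
    exact ⟨abs_le.mp h4, h2, h3⟩
  obtain ⟨z₀, hz₀K, hz₀⟩ := Set.Infinite.exists_accPt_of_subset_isCompact hinf hK hsub
  have hU : IsPreconnected {z : ℂ | 0 < z.im} := (convex_halfSpace_im_gt 0).isPreconnected
  have han' : AnalyticOnNhd ℂ L {z : ℂ | 0 < z.im} := fun z hz => han z hz
  have hz0 : z₀ ∈ {z : ℂ | 0 < z.im} := lt_of_lt_of_le one_pos hz₀K.2.1
  have hfr : ∃ᶠ z in 𝓝[≠] z₀, L z = 0 := by
    have h1 := accPt_iff_frequently_nhdsNE.mp hz₀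
    exact h1.mono fun z hz => hz.1
  exact hne (han'.eqOn_zero_of_preconnected_of_frequently_eq_zero hU hz0 hfr hs₀)

/-- the number of the points of `S`, counted with their multiplicities as zeros of `L` -/
noncomputable def num (L : ℂ → ℂ) (S : Set ℂ) : ℕ := ∑ᶠ s ∈ S, analyticOrderNatAt L s

lemma num_eq {L : ℂ → ℂ} {S : Set ℂ} (hS : S.Finite) : (num L S : ℝ) =
    ∑ s ∈ hS.toFinset, (analyticOrderNatAt L s : ℝ) := by
  unfold num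
  rw [finsum_mem_eq_finite_toFinset_sum _ hS]
  push_cast
  rfl

theorem dens {ε : ℝ} (hε : 0 < ε) (hε1 : ε ≤ 1) : ∃ B c P : ℝ, 1 ≤ B ∧ 0 < c ∧ 0 < P ∧
    ∀ (D : ℕ) (A K : ℝ), 1 ≤ A → ∃ C : ℝ, 0 < C ∧ ∀ (i : ℕ) (Pol : ℕ → Polynomial ℂ) (Q : ℝ) (L : ℂ → ℂ), 1 ≤ Q →
    IsHW i D Pol A Q L →
    (∀ s : ℂ, 1 ≤ s.im → (i : ℝ) / 2 + 1 < s.re → L s ≠ 0) ∧
    (∀ R : ℝ, {z : ℂ | L z = 0 ∧ ((i : ℝ) + 1) / 2 ≤ z.re ∧ 1 ≤ z.im ∧ z.im ≤ R}.Finite) ∧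
    ∀ T H δ : ℝ, 3 ≤ T → 1 ≤ H → H ≤ T → 0 < δ → δ ≤ 1 / 2 →
      (num L {s : ℂ | L s = 0 ∧ ((i : ℝ) + 1) / 2 + δ ≤ s.re ∧ T < s.im ∧ s.im ≤ T + H ∧
        ∀ r : ℝ, δ ≤ r → r ≤ 1 / 2 → (num L {z : ℂ | L z = 0 ∧ ((i : ℝ) + 1) / 2 + (1 - ε) * r ≤ z.re ∧ 1 ≤ z.im ∧
          |z.im - s.im| ≤ B * r * (r / δ) ^ ε} : ℝ) ≤ K + c * (r * Real.log H)} : ℝ) ≤
      C * H ^ (1 - (2 - ε) * δ) * (Real.log (Q * T)) ^ P := by
  obtain ⟨B, c, P, hB, hc, hP, hgen⟩ := gen hε hε1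
  refine ⟨B, c, P, hB, hc, hP, fun D A K hA => ?_⟩
  obtain ⟨C, hC, hG⟩ := hgen D (max A (Real.exp (2 * D))) K (hA.trans (le_max_left _ _))
  refine ⟨C, hC, fun i Pol Q L hQ h => ?_⟩
  obtain ⟨a, hL⟩ := h.toL hA hQ
  have hnz : ∀ s : ℂ, 1 ≤ s.im → (i : ℝ) / 2 + 1 < s.re → L s ≠ 0 := by
    intro s h1 h2
    have h3 := hL.nz (s - (i : ℂ) / 2) (by
      have := re_sh i (s - (i : ℂ) / 2)
      rw [sub_add_cancel] at this
      linarith) (by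
      have := im_sh i (s - (i : ℂ) / 2)
      rw [sub_add_cancel] at this
      linarith)
    simpa using h3
  have hfin : ∀ R : ℝ, {z : ℂ | L z = 0 ∧ ((i : ℝ) + 1) / 2 ≤ z.re ∧ 1 ≤ z.im ∧ z.im ≤ R}.Finite := by
    intro R
    have hi : (0 : ℝ) ≤ i := Nat.cast_nonneg i
    refine (fin_box h.analytic (s₀ := ⟨(i : ℝ) / 2 + 2, 1⟩) one_pos (hnz _ le_rfl (by norm_num))
      (max R ((i : ℝ) / 2 + 1))).subset ?_
    rintro z ⟨h1, h2, h3, h4⟩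
    refine ⟨h1, h3, h4.trans (le_max_left _ _), ?_⟩
    rw [abs_of_nonneg (by linarith)]
    refine le_trans ?_ (le_max_right _ _)
    by_contra h5
    push Not at h5
    exact hnz z h3 h5 h1
  refine ⟨hnz, hfin, fun T H δ hT hH hHT hδ hδ2 => ?_⟩
  have hsfin : {s : ℂ | L s = 0 ∧ ((i : ℝ) + 1) / 2 + δ ≤ s.re ∧ T < s.im ∧ s.im ≤ T + H ∧
      ∀ r : ℝ, δ ≤ r → r ≤ 1 / 2 → (num L {z : ℂ | L z = 0 ∧ ((i : ℝ) + 1) / 2 + (1 - ε) * r ≤ z.re ∧ 1 ≤ z.im ∧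
        |z.im - s.im| ≤ B * r * (r / δ) ^ ε} : ℝ) ≤ K + c * (r * Real.log H)}.Finite := by
    refine (hfin (T + H)).subset ?_
    rintro z ⟨h1, h2, h3, h4, -⟩
    exact ⟨h1, by linarith, by linarith, h4⟩
  rw [num_eq hsfin]
  -- shift
  set tr : ℂ → ℂ := fun z => z - (i : ℂ) / 2 with htr
  have hinj : Function.Injective tr := fun x y hxy => by
    rw [htr] at hxy
    simpa using hxy
  have hre : ∀ s : ℂ, (tr s).re = s.re - (i : ℝ) / 2 := by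
    intro s
    have := re_sh i (s - (i : ℂ) / 2)
    rw [sub_add_cancel] at this
    rw [htr]
    linarith
  have him : ∀ s : ℂ, (tr s).im = s.im := by
    intro s
    have := im_sh i (s - (i : ℂ) / 2)
    rw [sub_add_cancel] at this
    rw [htr]
    exact this.symm
  have hord : ∀ s : ℂ, analyticOrderNatAt (fun w => L (w + (i : ℂ) / 2)) (tr s) = analyticOrderNatAt L s := by
    intro s
    rw [ord_sh, htr]
    simp only [sub_add_cancel]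
  have h1 := hG Q _ a hQ hL T H δ hT hH hHT hδ hδ2 (hsfin.toFinset.image tr) (by
    intro w hw
    rw [Finset.mem_image] at hw
    obtain ⟨s, hs, rfl⟩ := hw
    rw [Set.Finite.mem_toFinset] at hs
    obtain ⟨h2, h3, h4, h5, h6⟩ := hs
    refine ⟨by rw [htr]; simpa using h2, by rw [hre]; linarith, by rw [him]; exact h4, by rw [him]; exact h5, ?_⟩
    intro r hr1 hr2 Z hZ
    rw [him] at hZ
    have hr0 : 0 < r := by linarith
    have h7 := h6 r hr1 hr2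
    set Bx : Set ℂ := {z : ℂ | L z = 0 ∧ ((i : ℝ) + 1) / 2 + (1 - ε) * r ≤ z.re ∧ 1 ≤ z.im ∧
        |z.im - s.im| ≤ B * r * (r / δ) ^ ε} with hBx
    have hBfin : Bx.Finite := by
      refine (hfin (s.im + B * r * (r / δ) ^ ε)).subset ?_
      rintro z ⟨g1, g2, g3, g4⟩
      have g5 := (abs_le.mp g4).2
      have g6 : 0 ≤ (1 - ε) * r := mul_nonneg (by linarith) hr0.le
      exact ⟨g1, by linarith, g3, by linarith⟩
    rw [num_eq hBfin] at h7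
    refine le_trans ?_ h7
    have e1 : ∑ z ∈ Z, (analyticOrderNatAt (fun w => L (w + (i : ℂ) / 2)) z : ℝ) =
        ∑ z ∈ Z.image (fun z => z + (i : ℂ) / 2), (analyticOrderNatAt L z : ℝ) := by
      rw [Finset.sum_image (fun x _ y _ hxy => by simpa using hxy)]
      refine Finset.sum_congr rfl fun z _ => ?_
      rw [ord_sh]
    rw [e1]
    refine Finset.sum_le_sum_of_subset_of_nonneg ?_ fun _ _ _ => Nat.cast_nonneg _
    intro z hz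
    rw [Finset.mem_image] at hz
    obtain ⟨w, hw, rfl⟩ := hz
    obtain ⟨g1, g2, g3, g4⟩ := hZ w hw
    rw [Set.Finite.mem_toFinset, hBx]
    refine ⟨g1, ?_, ?_, ?_⟩
    · rw [re_sh]; linarith
    · rw [im_sh]; exact g2
    · rw [im_sh]; exact g4)
  rw [Finset.sum_image (fun x _ y _ hxy => hinj hxy)] at h1
  simp only [hord] at h1
  exact h1

/-- clusters only at the scales above the distance of the zero -/
theorem dens2 {ε : ℝ} (hε : 0 < ε) (hε1 : ε ≤ 1) : ∃ B c P : ℝ, 1 ≤ B ∧ 0 < c ∧ 0 < P ∧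
    ∀ (D : ℕ) (A K : ℝ), 1 ≤ A → ∃ C : ℝ, 0 < C ∧ ∀ (i : ℕ) (Pol : ℕ → Polynomial ℂ) (Q : ℝ) (L : ℂ → ℂ), 1 ≤ Q →
    IsHW i D Pol A Q L →
    (∀ s : ℂ, 1 ≤ s.im → (i : ℝ) / 2 + 1 < s.re → L s ≠ 0) ∧
    (∀ R : ℝ, {z : ℂ | L z = 0 ∧ ((i : ℝ) + 1) / 2 ≤ z.re ∧ 1 ≤ z.im ∧ z.im ≤ R}.Finite) ∧
    ∀ T H δ : ℝ, 3 ≤ T → 1 ≤ H → H ≤ T → 0 < δ → δ ≤ 1 / 2 →
      (num L {s : ℂ | L s = 0 ∧ ((i : ℝ) + 1) / 2 + δ ≤ s.re ∧ T < s.im ∧ s.im ≤ T + H ∧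
        ∀ r : ℝ, s.re - ((i : ℝ) + 1) / 2 ≤ r → r ≤ 1 / 2 →
          (num L {z : ℂ | L z = 0 ∧ ((i : ℝ) + 1) / 2 + (1 - ε) * r ≤ z.re ∧ 1 ≤ z.im ∧
          |z.im - s.im| ≤ B * r * (r / (s.re - ((i : ℝ) + 1) / 2)) ^ ε} : ℝ) ≤ K + c * (r * Real.log H)} : ℝ) ≤
      C * H ^ (1 - (2 - ε) * δ) * (Real.log (Q * T)) ^ P := by
  obtain ⟨B, c, P, hB, hc, hP, hgen⟩ := gen2 hε hε1
  refine ⟨B, c, P, hB, hc, hP, fun D A K hA => ?_⟩
  obtain ⟨C, hC, hG⟩ := hgen D (max A (Real.exp (2 * D))) K (hA.trans (le_max_left _ _))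
  refine ⟨C, hC, fun i Pol Q L hQ h => ?_⟩
  obtain ⟨a, hL⟩ := h.toL hA hQ
  have hnz : ∀ s : ℂ, 1 ≤ s.im → (i : ℝ) / 2 + 1 < s.re → L s ≠ 0 := by
    intro s h1 h2
    have h3 := hL.nz (s - (i : ℂ) / 2) (by
      have := re_sh i (s - (i : ℂ) / 2)
      rw [sub_add_cancel] at this
      linarith) (by
      have := im_sh i (s - (i : ℂ) / 2)
      rw [sub_add_cancel] at this
      linarith)
    simpa using h3
  have hfin : ∀ R : ℝ, {z : ℂ | L z = 0 ∧ ((i : ℝ) + 1) / 2 ≤ z.re ∧ 1 ≤ z.im ∧ z.im ≤ R}.Finite := by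
    intro R
    have hi : (0 : ℝ) ≤ i := Nat.cast_nonneg i
    refine (fin_box h.analytic (s₀ := ⟨(i : ℝ) / 2 + 2, 1⟩) one_pos (hnz _ le_rfl (by norm_num))
      (max R ((i : ℝ) / 2 + 1))).subset ?_
    rintro z ⟨h1, h2, h3, h4⟩
    refine ⟨h1, h3, h4.trans (le_max_left _ _), ?_⟩
    rw [abs_of_nonneg (by linarith)]
    refine le_trans ?_ (le_max_right _ _)
    by_contra h5
    push Not at h5
    exact hnz z h3 h5 h1
  refine ⟨hnz, hfin, fun T H δ hT hH hHT hδ hδ2 => ?_⟩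
  have hsfin : {s : ℂ | L s = 0 ∧ ((i : ℝ) + 1) / 2 + δ ≤ s.re ∧ T < s.im ∧ s.im ≤ T + H ∧
      ∀ r : ℝ, s.re - ((i : ℝ) + 1) / 2 ≤ r → r ≤ 1 / 2 →
        (num L {z : ℂ | L z = 0 ∧ ((i : ℝ) + 1) / 2 + (1 - ε) * r ≤ z.re ∧ 1 ≤ z.im ∧
        |z.im - s.im| ≤ B * r * (r / (s.re - ((i : ℝ) + 1) / 2)) ^ ε} : ℝ) ≤ K + c * (r * Real.log H)}.Finite := by
    refine (hfin (T + H)).subset ?_
    rintro z ⟨h1, h2, h3, h4, -⟩
    exact ⟨h1, by linarith, by linarith, h4⟩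
  rw [num_eq hsfin]
  -- shift
  set tr : ℂ → ℂ := fun z => z - (i : ℂ) / 2 with htr
  have hinj : Function.Injective tr := fun x y hxy => by
    rw [htr] at hxy
    simpa using hxy
  have hre : ∀ s : ℂ, (tr s).re = s.re - (i : ℝ) / 2 := by
    intro s
    have := re_sh i (s - (i : ℂ) / 2)
    rw [sub_add_cancel] at this
    rw [htr]
    linarith
  have him : ∀ s : ℂ, (tr s).im = s.im := by
    intro s
    have := im_sh i (s - (i : ℂ) / 2)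
    rw [sub_add_cancel] at this
    rw [htr]
    exact this.symm
  have hord : ∀ s : ℂ, analyticOrderNatAt (fun w => L (w + (i : ℂ) / 2)) (tr s) = analyticOrderNatAt L s := by
    intro s
    rw [ord_sh, htr]
    simp only [sub_add_cancel]
  have h1 := hG Q _ a hQ hL T H δ hT hH hHT hδ hδ2 (hsfin.toFinset.image tr) (by
    intro w hw
    rw [Finset.mem_image] at hw
    obtain ⟨s, hs, rfl⟩ := hw
    rw [Set.Finite.mem_toFinset] at hs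
    obtain ⟨h2, h3, h4, h5, h6⟩ := hs
    refine ⟨by rw [htr]; simpa using h2, by rw [hre]; linarith, by rw [him]; exact h4, by rw [him]; exact h5, ?_⟩
    intro r hr1 hr2 Z hZ
    have hsr : (tr s).re - 1 / 2 = s.re - ((i : ℝ) + 1) / 2 := by rw [hre]; ring
    rw [hsr] at hZ hr1
    rw [him] at hZ
    have hr0 : 0 < r := by linarith
    have h7 := h6 r hr1 hr2
    set Bx : Set ℂ := {z : ℂ | L z = 0 ∧ ((i : ℝ) + 1) / 2 + (1 - ε) * r ≤ z.re ∧ 1 ≤ z.im ∧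
        |z.im - s.im| ≤ B * r * (r / (s.re - ((i : ℝ) + 1) / 2)) ^ ε} with hBx
    have hBfin : Bx.Finite := by
      refine (hfin (s.im + B * r * (r / (s.re - ((i : ℝ) + 1) / 2)) ^ ε)).subset ?_
      rintro z ⟨g1, g2, g3, g4⟩
      have g5 := (abs_le.mp g4).2
      have g6 : 0 ≤ (1 - ε) * r := mul_nonneg (by linarith) hr0.le
      exact ⟨g1, by linarith, g3, by linarith⟩
    rw [num_eq hBfin] at h7
    refine le_trans ?_ h7
    have e1 : ∑ z ∈ Z, (analyticOrderNatAt (fun w => L (w + (i : ℂ) / 2)) z : ℝ) =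
        ∑ z ∈ Z.image (fun z => z + (i : ℂ) / 2), (analyticOrderNatAt L z : ℝ) := by
      rw [Finset.sum_image (fun x _ y _ hxy => by simpa using hxy)]
      refine Finset.sum_congr rfl fun z _ => ?_
      rw [ord_sh]
    rw [e1]
    refine Finset.sum_le_sum_of_subset_of_nonneg ?_ fun _ _ _ => Nat.cast_nonneg _
    intro z hz
    rw [Finset.mem_image] at hz
    obtain ⟨w, hw, rfl⟩ := hz
    obtain ⟨g1, g2, g3, g4⟩ := hZ w hw
    rw [Set.Finite.mem_toFinset, hBx]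
    refine ⟨g1, ?_, ?_, ?_⟩
    · rw [re_sh]; linarith
    · rw [im_sh]; exact g2
    · rw [im_sh]; exact g4)
  rw [Finset.sum_image (fun x _ y _ hxy => hinj hxy)] at h1
  simp only [hord] at h1
  exact h1

end Pool.Agent.Zk3.GL
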