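import Pool.Agent.Zk3.GL.Step

set_option autoImplicit false

/-!
# No scattered zero at a good height
-/

namespace Pool.Agent.Zk3.GL

open Complex Filter Topology Set Metric
open ArithmeticFunction (vonMangoldt)

variable {D A Q : ℝ} {F : ℂ → ℂ} {a : ℕ → ℂ}

/-- The total multiplicity of any finite set of zeros in the box `Re ≥ 1/2 + (1-ε) r`, `|Im - y| ≤ A r (r/δ)^ε`,
`Im ≥ 1`, is at most `X`. -/
def FewF (F : ℂ → ℂ) (ε A δ r y X : ℝ) : Prop := ∀ Z : Finset ℂ,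
  (∀ z ∈ Z, F z = 0 ∧ 1 ≤ z.im ∧ 1 / 2 + (1 - ε) * r ≤ z.re ∧ |z.im - y| ≤ A * r * (r / δ) ^ ε) →
  ∑ z ∈ Z, (analyticOrderNatAt F z : ℝ) ≤ X

/-- the sum over the primes up to `X` -/
noncomputable def Sp (a : ℕ → ℂ) (X : ℝ) (s : ℂ) : ℂ :=
  ∑ n ∈ (Finset.Ioc 0 ⌊X⌋₊).filter (fun n : ℕ => n.Prime), a n * (n : ℂ) ^ (-s)

theorem Sx_le : ∃ C3 : ℝ, 1 ≤ C3 ∧ ∀ (D : ℝ) (a : ℕ → ℂ), 0 ≤ D → (∀ n : ℕ, ‖a n‖ ≤ D * vonMangoldt n) →
    ∀ (Y : ℝ) (s : ℂ), 0 ≤ Y → 1 / 2 ≤ s.re →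
    ‖Sx a (Real.exp Y) s‖ ≤ ‖Sp a (Real.exp Y) s‖ + D * C3 * (2 + Y) := by
  obtain ⟨C3, hC3, hnp⟩ := np_bound
  refine ⟨C3, hC3, fun D a hD ha Y s hY hs => ?_⟩
  have hX1 : 1 ≤ Real.exp Y := Real.one_le_exp hY
  have hfl : 1 ≤ ⌊Real.exp Y⌋₊ := by rwa [Nat.one_le_floor_iff]
  have hsplit : Sx a (Real.exp Y) s = Sp a (Real.exp Y) s +
      ∑ n ∈ (Finset.Ioc 0 ⌊Real.exp Y⌋₊).filter (fun n : ℕ => ¬ n.Prime), a n * (n : ℂ) ^ (-s) := by
    unfold Sx Sp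
    rw [Finset.sum_filter_add_sum_filter_not]
  rw [hsplit]
  refine (norm_add_le _ _).trans (add_le_add le_rfl ?_)
  refine (norm_sum_le _ _).trans ?_
  have h1 : ∀ n ∈ (Finset.Ioc 0 ⌊Real.exp Y⌋₊).filter (fun n : ℕ => ¬ n.Prime), ‖a n * (n : ℂ) ^ (-s)‖ ≤
      D * ((if n.Prime then 0 else vonMangoldt n) / Real.sqrt n) := by
    intro n hn
    rw [Finset.mem_filter, Finset.mem_Ioc] at hn
    rw [norm_mul, cpow_norm hn.1.1, if_neg hn.2, Real.sqrt_eq_rpow, ← mul_div_assoc, div_eq_mul_inv,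
      ← Real.rpow_neg (Nat.cast_nonneg n)]
    refine mul_le_mul (ha n) ?_ (by positivity) (mul_nonneg hD ArithmeticFunction.vonMangoldt_nonneg)
    exact Real.rpow_le_rpow_of_exponent_le (by exact_mod_cast hn.1.1) (by linarith)
  refine (Finset.sum_le_sum h1).trans ?_
  rw [← Finset.mul_sum]
  have h2 : ∑ n ∈ (Finset.Ioc 0 ⌊Real.exp Y⌋₊).filter (fun n : ℕ => ¬ n.Prime),
      (if n.Prime then 0 else vonMangoldt n) / Real.sqrt n ≤
      ∑ n ∈ Finset.Ioc 0 ⌊Real.exp Y⌋₊, (if n.Prime then 0 else vonMangoldt n) / Real.sqrt n := by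
    refine Finset.sum_le_sum_of_subset_of_nonneg (Finset.filter_subset _ _) fun n _ _ => ?_
    split_ifs
    · simp
    · exact div_nonneg ArithmeticFunction.vonMangoldt_nonneg (Real.sqrt_nonneg _)
  have h3 := hnp _ hfl
  have h4 : Real.log (⌊Real.exp Y⌋₊ : ℝ) ≤ Y := by
    rw [Real.log_le_iff_le_exp (by exact_mod_cast hfl)]
    exact Nat.floor_le (by linarith)
  calc D * _ ≤ D * (C3 * (2 + Y)) := by
        refine mul_le_mul_of_nonneg_left (h2.trans (h3.trans ?_)) hD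
        exact mul_le_mul_of_nonneg_left (by linarith) (by linarith)
    _ = _ := by ring

/-- multiplicities of zeros to the right of `1/2` are at least one -/
lemma card_le (hF : IsL D A Q F a) {Z : Finset ℂ} (hZ : ∀ z ∈ Z, F z = 0 ∧ 1 ≤ z.im) :
    (Z.card : ℝ) ≤ ∑ z ∈ Z, (analyticOrderNatAt F z : ℝ) := by
  calc (Z.card : ℝ) = ∑ _z ∈ Z, (1 : ℝ) := by simp
    _ ≤ _ := Finset.sum_le_sum fun z hz => by
      obtain ⟨h0, h1⟩ := hZ z hz
      have hU : IsPreconnected {s : ℂ | 0 < s.im} := by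
        have h2 := (convex_Ioi (0 : ℝ)).linear_preimage Complex.imLm
        exact h2.isPreconnected
      have hne : F ⟨2, 1⟩ ≠ 0 := hF.nz _ (by norm_num) (by norm_num)
      have h3 := (H370.Loc.mult_pos hU (fun s hs => hF.an s hs) (c := ⟨2, 1⟩) (z := z)
        (by simp) hne (by show 0 < z.im; linarith)).mpr h0
      have h4 : 1 ≤ analyticOrderNatAt F z := h3
      exact_mod_cast h4

/-- the width of the cone of `s` -/
noncomputable def wc (B δ ε x : ℝ) : ℝ := B * x * (x / δ) ^ ε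

lemma wc_mono {B δ ε x y : ℝ} (hB : 0 ≤ B) (hδ : 0 < δ) (hε : 0 ≤ ε) (hx : 0 ≤ x) (hxy : x ≤ y) :
    wc B δ ε x ≤ wc B δ ε y := by
  unfold wc
  refine mul_le_mul (mul_le_mul_of_nonneg_left hxy hB) ?_ (Real.rpow_nonneg (by positivity) _)
    (mul_nonneg hB (hx.trans hxy))
  exact Real.rpow_le_rpow (by positivity) (div_le_div_of_nonneg_right hxy hδ.le) hε

/-- the cone of `s` contains the cone of the extremal zero -/
lemma cone_in {B B1 δ ε κ r x xw : ℝ} (hδ : 0 < δ) (hε : 0 < ε) (hε1 : ε ≤ 1) (hκ : 0 < κ) (hκ8 : κ ≤ 1 / 8)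
    (hB1 : 0 ≤ B1) (hB : 8 * (B1 + 81) / κ = B) (hr : δ ≤ r) (hx : (1 + 2 * κ) * r ≤ x) (hxw : x - κ * r ≤ xw) :
    κ * r + B1 * x * (x / ((1 + 2 * κ) * r)) ^ ε + 80 * r + wc B δ ε r ≤ wc B δ ε xw := by
  have hr0 : 0 < r := by linarith
  have hκr : 0 < κ * r := by positivity
  have hB0 : 0 < B := by rw [← hB]; positivity
  have hx0 : 0 < x := by nlinarith
  have hxr : r ≤ x := by linarith
  have hxwr : (1 + κ) * r ≤ xw := by linarith
  have hxw0 : 0 < xw := by nlinarith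
  have hxw2 : x / 2 ≤ xw := by
    have : κ * r ≤ 1 / 8 * x := mul_le_mul hκ8 hxr hr0.le (by norm_num)
    linarith
  -- `W(r) ≤ W(xw) / (1 + κ)`
  have h1 : (1 + κ) * wc B δ ε r ≤ wc B δ ε xw := by
    unfold wc
    have e1 : (r / δ) ^ ε ≤ (xw / δ) ^ ε :=
      Real.rpow_le_rpow (by positivity) (div_le_div_of_nonneg_right (by linarith) hδ.le) hε.le
    calc (1 + κ) * (B * r * (r / δ) ^ ε) = B * ((1 + κ) * r) * (r / δ) ^ ε := by ring
      _ ≤ B * xw * (xw / δ) ^ ε :=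
          mul_le_mul (mul_le_mul_of_nonneg_left hxwr hB0.le) e1 (by positivity) (by positivity)
  have h2 : κ / 2 * wc B δ ε xw ≤ wc B δ ε xw - wc B δ ε r := by
    have hw0 : 0 ≤ wc B δ ε r := by unfold wc; positivity
    have hw1 : 0 ≤ wc B δ ε xw := by unfold wc; positivity
    have h3 : wc B δ ε r ≤ (1 - κ / 2) * wc B δ ε xw := by
      have h4 : (1 - κ / 2) * ((1 + κ) * wc B δ ε r) ≤ (1 - κ / 2) * wc B δ ε xw :=
        mul_le_mul_of_nonneg_left h1 (by linarith)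
      have h5 : 1 ≤ (1 - κ / 2) * (1 + κ) := by nlinarith
      have h6 : 1 * wc B δ ε r ≤ (1 - κ / 2) * (1 + κ) * wc B δ ε r := mul_le_mul_of_nonneg_right h5 hw0
      linarith
    linarith
  have hxδ : 1 ≤ x / δ := by rw [one_le_div hδ]; linarith
  have h7 : x * (x / δ) ^ ε / 4 ≤ xw * (xw / δ) ^ ε := by
    have e1 : x / 2 * (x / δ / 2) ^ ε ≤ xw * (xw / δ) ^ ε := by
      refine mul_le_mul hxw2 (Real.rpow_le_rpow (by positivity) ?_ hε.le) (by positivity) hxw0.le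
      rw [div_right_comm]
      exact div_le_div_of_nonneg_right hxw2 hδ.le
    refine le_trans ?_ e1
    have e4 : (x / δ / 2) ^ ε = (x / δ) ^ ε / 2 ^ ε := Real.div_rpow (by positivity) (by norm_num) ε
    rw [e4]
    have e2 : (2 : ℝ) ^ ε ≤ 2 := by
      calc (2 : ℝ) ^ ε ≤ 2 ^ (1 : ℝ) := Real.rpow_le_rpow_of_exponent_le (by norm_num) hε1
        _ = 2 := Real.rpow_one 2
    have e3 : (x / δ) ^ ε / 2 ≤ (x / δ) ^ ε / 2 ^ ε :=
      div_le_div_of_nonneg_left (by positivity) (by positivity) e2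
    calc x * (x / δ) ^ ε / 4 = x / 2 * ((x / δ) ^ ε / 2) := by ring
      _ ≤ _ := mul_le_mul_of_nonneg_left e3 (by positivity)
  have h8 : (B1 + 81) * (x * (x / δ) ^ ε) ≤ κ / 2 * wc B δ ε xw := by
    have e1 : κ / 2 * wc B δ ε xw = κ * B / 2 * (xw * (xw / δ) ^ ε) := by unfold wc; ring
    have e2 : κ * B = 8 * (B1 + 81) := by rw [← hB]; field_simp
    rw [e1, e2]
    have := mul_le_mul_of_nonneg_left h7 (show 0 ≤ 8 * (B1 + 81) / 2 by positivity)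
    linarith
  have h9 : (x / ((1 + 2 * κ) * r)) ^ ε ≤ (x / δ) ^ ε := by
    refine Real.rpow_le_rpow (by positivity) (div_le_div_of_nonneg_left hx0.le hδ ?_) hε.le
    linarith
  have h10 : 1 ≤ (x / δ) ^ ε := Real.one_le_rpow hxδ hε.le
  have h11 : B1 * x * (x / ((1 + 2 * κ) * r)) ^ ε ≤ B1 * (x * (x / δ) ^ ε) := by
    rw [mul_assoc]
    exact mul_le_mul_of_nonneg_left (mul_le_mul_of_nonneg_left h9 hx0.le) hB1
  have h12 : 81 * r ≤ 81 * (x * (x / δ) ^ ε) := by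
    have : x * 1 ≤ x * (x / δ) ^ ε := mul_le_mul_of_nonneg_left h10 hx0.le
    linarith
  have h13 : κ * r ≤ 1 * r := mul_le_mul_of_nonneg_right (by linarith) hr0.le
  linarith

end Pool.Agent.Zk3.GL
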