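import Mathlib

set_option autoImplicit false

/-!
# Phragmen-Lindelof in a slightly widening cone

In `x0 ≤ Re z ≤ Λ`, `|Im z| ≤ A Re z (Re z / x0) ^ (2 η)` the function `h` is at most `M`, and at most `M e^(-λ Λ)` for
`Re z = Λ`.  Then `h x` is at most `M e^(-λ (x/2 - x0))` on the real axis.  The comparison function is
`z - z ^ (1-η) x0 ^ η / 2`.
-/

namespace Pool.Agent.Zk3.GL

open Complex Filter Topology Set

/-- the width -/
noncomputable def wd (A η x0 x : ℝ) : ℝ := A * x * (x / x0) ^ (2 * η)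

lemma wd_cont {A η x0 : ℝ} (hη : 0 < η) : Continuous (wd A η x0) := by
  unfold wd
  exact (continuous_const.mul continuous_id).mul
    ((continuous_id.div_const x0).rpow_const fun _ => Or.inr (by linarith))

def reg (A η x0 Λ : ℝ) : Set ℂ := {z : ℂ | x0 < z.re ∧ z.re < Λ ∧ |z.im| < wd A η x0 z.re}

def clr (A η x0 Λ : ℝ) : Set ℂ := {z : ℂ | x0 ≤ z.re ∧ z.re ≤ Λ ∧ |z.im| ≤ wd A η x0 z.re}

lemma clr_closed {A η x0 Λ : ℝ} (hη : 0 < η) : IsClosed (clr A η x0 Λ) := by
  have h1 : IsClosed {z : ℂ | x0 ≤ z.re} := isClosed_le continuous_const Complex.continuous_re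
  have h2 : IsClosed {z : ℂ | z.re ≤ Λ} := isClosed_le Complex.continuous_re continuous_const
  have h3 : IsClosed {z : ℂ | |z.im| ≤ wd A η x0 z.re} :=
    isClosed_le Complex.continuous_im.abs ((wd_cont hη).comp Complex.continuous_re)
  have : clr A η x0 Λ = {z : ℂ | x0 ≤ z.re} ∩ ({z : ℂ | z.re ≤ Λ} ∩ {z : ℂ | |z.im| ≤ wd A η x0 z.re}) := rfl
  rw [this]
  exact h1.inter (h2.inter h3)

lemma reg_open {A η x0 Λ : ℝ} (hη : 0 < η) : IsOpen (reg A η x0 Λ) := by
  have h1 : IsOpen {z : ℂ | x0 < z.re} := isOpen_lt continuous_const Complex.continuous_re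
  have h2 : IsOpen {z : ℂ | z.re < Λ} := isOpen_lt Complex.continuous_re continuous_const
  have h3 : IsOpen {z : ℂ | |z.im| < wd A η x0 z.re} :=
    isOpen_lt Complex.continuous_im.abs ((wd_cont hη).comp Complex.continuous_re)
  have : reg A η x0 Λ = {z : ℂ | x0 < z.re} ∩ ({z : ℂ | z.re < Λ} ∩ {z : ℂ | |z.im| < wd A η x0 z.re}) := rfl
  rw [this]
  exact h1.inter (h2.inter h3)

lemma reg_sub {A η x0 Λ : ℝ} : reg A η x0 Λ ⊆ clr A η x0 Λ := fun _ hz => ⟨hz.1.le, hz.2.1.le, hz.2.2.le⟩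

lemma closure_sub {A η x0 Λ : ℝ} (hη : 0 < η) : closure (reg A η x0 Λ) ⊆ clr A η x0 Λ :=
  closure_minimal reg_sub (clr_closed hη)

lemma wd_mono {A η x0 x y : ℝ} (hA : 0 ≤ A) (hη : 0 < η) (hx0 : 0 < x0) (hx : 0 ≤ x) (hxy : x ≤ y) :
    wd A η x0 x ≤ wd A η x0 y := by
  unfold wd
  refine mul_le_mul (mul_le_mul_of_nonneg_left hxy hA) ?_ (Real.rpow_nonneg (by positivity) _)
    (mul_nonneg hA (hx.trans hxy))
  exact Real.rpow_le_rpow (by positivity) (div_le_div_of_nonneg_right hxy hx0.le) (by linarith)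

lemma reg_bounded {A η x0 Λ : ℝ} (hA : 0 ≤ A) (hη : 0 < η) (hx0 : 0 < x0) : Bornology.IsBounded (reg A η x0 Λ) := by
  rw [isBounded_iff_forall_norm_le]
  refine ⟨|Λ| + wd A η x0 |Λ|, fun z hz => ?_⟩
  obtain ⟨h1, h2, h3⟩ := hz
  have a2 := le_abs_self Λ
  have hre : |z.re| ≤ |Λ| := by
    rw [abs_of_pos (by linarith)]
    linarith
  have h4 : wd A η x0 z.re ≤ wd A η x0 |Λ| := wd_mono hA hη hx0 (by linarith) (by linarith)
  calc ‖z‖ ≤ |z.re| + |z.im| := Complex.norm_le_abs_re_add_abs_im z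
    _ ≤ _ := by linarith

lemma cos_ge {z : ℂ} {η : ℝ} (hη : 0 < η) (hη1 : η ≤ 1 / 2) (hz : 0 ≤ z.re) :
    η ≤ Real.cos (arg z * (1 - η)) := by
  have h1 : |arg z| ≤ Real.pi / 2 := Complex.abs_arg_le_pi_div_two_iff.mpr hz
  have hpi := Real.pi_pos
  rw [← Real.cos_abs, abs_mul, abs_of_nonneg (show 0 ≤ 1 - η by linarith)]
  have h2 : |arg z| * (1 - η) ≤ Real.pi / 2 - Real.pi / 2 * η := by
    have := mul_le_mul_of_nonneg_right h1 (show 0 ≤ 1 - η by linarith)
    linarith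
  have h3 : Real.cos (Real.pi / 2 - Real.pi / 2 * η) ≤ Real.cos (|arg z| * (1 - η)) := by
    refine Real.cos_le_cos_of_nonneg_of_le_pi (mul_nonneg (abs_nonneg _) (by linarith)) ?_ h2
    have : 0 ≤ Real.pi / 2 * η := by positivity
    linarith
  rw [Real.cos_pi_div_two_sub] at h3
  refine le_trans ?_ h3
  have h4 := Real.mul_le_sin (x := Real.pi / 2 * η) (by positivity) (by
    have := mul_le_mul_of_nonneg_left hη1 (show 0 ≤ Real.pi / 2 by positivity)
    linarith)
  have h5 : 2 / Real.pi * (Real.pi / 2 * η) = η := by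
    field_simp
  linarith

theorem pl {η A x0 Λ M l : ℝ} {h : ℂ → ℂ} (hη : 0 < η) (hη1 : η ≤ 1 / 2) (hA : 4 / η ^ 2 ≤ A) (hx0 : 0 < x0)
    (hM : 0 ≤ M) (hl : 0 ≤ l)
    (H1 : ∀ z : ℂ, x0 ≤ z.re → z.re ≤ Λ → |z.im| ≤ wd A η x0 z.re → DifferentiableAt ℂ h z ∧ ‖h z‖ ≤ M)
    (H2 : ∀ z : ℂ, z.re = Λ → |z.im| ≤ wd A η x0 Λ → ‖h z‖ ≤ M * Real.exp (-(l * Λ))) :
    ∀ x : ℝ, x0 ≤ x → x ≤ Λ → ‖h x‖ ≤ M * Real.exp (-(l * (x / 2 - x0))) := by
  have hA1 : 1 ≤ A := by
    refine le_trans ?_ hA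
    rw [le_div_iff₀ (by positivity)]
    have : η ^ 2 ≤ 1 := pow_le_one₀ hη.le (by linarith)
    linarith
  have hA0 : 0 < A := by linarith
  have hAs : 2 / η ≤ A ^ (1 / 2 : ℝ) := by
    have h1 : (2 / η) ^ 2 ≤ A := by
      rw [div_pow]
      norm_num
      exact hA
    have h2 : 2 / η = ((2 / η) ^ 2) ^ (1 / 2 : ℝ) := by
      rw [← Real.sqrt_eq_rpow, Real.sqrt_sq (by positivity)]
    rw [h2]
    exact Real.rpow_le_rpow (by positivity) h1 (by norm_num)
  set φ : ℂ → ℂ := fun z => z - ((x0 ^ η / 2 : ℝ) : ℂ) * z ^ ((1 - η : ℝ) : ℂ) with hφ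
  have hφre : ∀ z : ℂ, (φ z).re = z.re - x0 ^ η / 2 * (‖z‖ ^ (1 - η) * Real.cos (arg z * (1 - η))) := by
    intro z
    simp only [hφ]
    rw [Complex.sub_re, Complex.re_ofReal_mul, Complex.cpow_ofReal_re]
  have hx0η : 0 < x0 ^ η := Real.rpow_pos_of_pos hx0 _
  have hre1 : ∀ z : ℂ, x0 ≤ z.re → (φ z).re ≤ z.re := by
    intro z hz
    rw [hφre]
    have h1 := cos_ge hη hη1 (show 0 ≤ z.re by linarith)
    have : 0 ≤ x0 ^ η / 2 * (‖z‖ ^ (1 - η) * Real.cos (arg z * (1 - η))) := by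
      have h2 : 0 ≤ Real.cos (arg z * (1 - η)) := by linarith
      positivity
    linarith
  have hre2 : ∀ z : ℂ, x0 ≤ z.re → |z.im| = wd A η x0 z.re → (φ z).re ≤ 0 := by
    intro z hz him
    rw [hφre]
    have hzp : 0 < z.re := by linarith
    have h1 := cos_ge hη hη1 hzp.le
    have hq : 1 ≤ z.re / x0 := by rw [le_div_iff₀ hx0]; linarith
    have hn : wd A η x0 z.re ≤ ‖z‖ := by rw [← him]; exact Complex.abs_im_le_norm z
    have h2 : A ^ (1 / 2 : ℝ) * (z.re * (x0 ^ η)⁻¹) ≤ ‖z‖ ^ (1 - η) := by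
      have hw0 : 0 ≤ wd A η x0 z.re := by rw [← him]; exact abs_nonneg _
      refine le_trans ?_ (Real.rpow_le_rpow hw0 hn (by linarith))
      unfold wd
      rw [Real.mul_rpow (by positivity) (by positivity), Real.mul_rpow (by positivity) hzp.le, mul_assoc,
        ← Real.rpow_mul (by positivity)]
      refine mul_le_mul (Real.rpow_le_rpow_of_exponent_le hA1 (by linarith)) ?_ (by positivity) (by positivity)
      have h3 : (z.re / x0) ^ η ≤ (z.re / x0) ^ (2 * η * (1 - η)) := by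
        refine Real.rpow_le_rpow_of_exponent_le hq ?_
        nlinarith
      have h4 : z.re * (x0 ^ η)⁻¹ = z.re ^ (1 - η) * (z.re / x0) ^ η := by
        rw [Real.div_rpow hzp.le hx0.le, ← mul_div_assoc, ← Real.rpow_add hzp, sub_add_cancel, Real.rpow_one,
          div_eq_mul_inv]
      rw [h4]
      exact mul_le_mul_of_nonneg_left h3 (by positivity)
    have h5 : 2 / η * (z.re * (x0 ^ η)⁻¹) ≤ ‖z‖ ^ (1 - η) :=
      le_trans (mul_le_mul_of_nonneg_right hAs (by positivity)) h2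
    have h6 : 2 / η * (z.re * (x0 ^ η)⁻¹) * η ≤ ‖z‖ ^ (1 - η) * Real.cos (arg z * (1 - η)) :=
      mul_le_mul h5 h1 hη.le (by positivity)
    have h7 : x0 ^ η / 2 * (2 / η * (z.re * (x0 ^ η)⁻¹) * η) = z.re := by
      field_simp
    have h8 := mul_le_mul_of_nonneg_left h6 (show 0 ≤ x0 ^ η / 2 by positivity)
    linarith
  have hre3 : ∀ x : ℝ, x0 ≤ x → x / 2 ≤ (φ x).re := by
    intro x hx
    have hxp : 0 < x := by linarith
    rw [hφre, Complex.ofReal_re, Complex.norm_real, Real.norm_eq_abs, abs_of_pos hxp]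
    have h1 : x ^ (1 - η) * Real.cos (arg (x : ℂ) * (1 - η)) ≤ x ^ (1 - η) :=
      mul_le_of_le_one_right (by positivity) (Real.cos_le_one _)
    have h2 : x0 ^ η * x ^ (1 - η) ≤ x := by
      calc x0 ^ η * x ^ (1 - η) ≤ x ^ η * x ^ (1 - η) :=
            mul_le_mul_of_nonneg_right (Real.rpow_le_rpow hx0.le hx hη.le) (by positivity)
        _ = x := by rw [← Real.rpow_add hxp, add_sub_cancel, Real.rpow_one]
    have h3 := mul_le_mul_of_nonneg_left h1 (show 0 ≤ x0 ^ η / 2 by positivity)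
    linarith
  set g : ℂ → ℂ := fun z => h z * Complex.exp (l * φ z) with hg
  have hgn : ∀ z : ℂ, ‖g z‖ = ‖h z‖ * Real.exp (l * (φ z).re) := by
    intro z
    simp only [hg]
    rw [norm_mul, Complex.norm_exp, Complex.re_ofReal_mul]
  have hgd : ∀ z : ℂ, z ∈ clr A η x0 Λ → DifferentiableAt ℂ g z := by
    intro z hz
    have h1 := (H1 z hz.1 hz.2.1 hz.2.2).1
    have hzp : 0 < z.re := lt_of_lt_of_le hx0 hz.1
    simp only [hg]
    refine h1.mul (DifferentiableAt.cexp (DifferentiableAt.const_mul ?_ _))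
    simp only [hφ]
    refine differentiableAt_id.sub (DifferentiableAt.const_mul ?_ _)
    exact differentiableAt_id.cpow_const (Or.inl hzp)
  have hU : DiffContOnCl ℂ g (reg A η x0 Λ) := by
    constructor
    · intro z hz
      exact (hgd z (reg_sub hz)).differentiableWithinAt
    · intro z hz
      exact (hgd z (closure_sub hη hz)).continuousAt.continuousWithinAt
  have hE1 : 1 ≤ Real.exp (l * x0) := Real.one_le_exp (by positivity)
  have hfr : ∀ z ∈ frontier (reg A η x0 Λ), ‖g z‖ ≤ M * Real.exp (l * x0) := by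
    intro z hz
    have hz1 : z ∈ clr A η x0 Λ := closure_sub hη (frontier_subset_closure hz)
    have hz2 : z ∉ reg A η x0 Λ := by
      intro hz3
      have := hz.2
      rw [(reg_open hη).interior_eq] at this
      exact this hz3
    obtain ⟨a1, a2, a3⟩ := hz1
    have hb := (H1 z a1 a2 a3).2
    rw [hgn]
    by_cases c1 : z.re = x0
    · have h1 := hre1 z a1
      rw [c1] at h1
      exact mul_le_mul hb (Real.exp_le_exp.mpr (mul_le_mul_of_nonneg_left h1 hl)) (Real.exp_pos _).le hM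
    by_cases c2 : z.re = Λ
    · have hb2 := H2 z c2 (by rw [← c2]; exact a3)
      have h1 := hre1 z a1
      rw [c2] at h1
      calc ‖h z‖ * Real.exp (l * (φ z).re) ≤ (M * Real.exp (-(l * Λ))) * Real.exp (l * Λ) :=
            mul_le_mul hb2 (Real.exp_le_exp.mpr (mul_le_mul_of_nonneg_left h1 hl)) (Real.exp_pos _).le
              (by positivity)
        _ = M * (Real.exp (-(l * Λ)) * Real.exp (l * Λ)) := by ring
        _ = M * 1 := by rw [← Real.exp_add]; simp
        _ ≤ _ := mul_le_mul_of_nonneg_left hE1 hM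
    · have a4 : x0 < z.re := lt_of_le_of_ne a1 (Ne.symm c1)
      have a5 : z.re < Λ := lt_of_le_of_ne a2 c2
      have a6 : |z.im| = wd A η x0 z.re := by
        by_contra hne
        exact hz2 ⟨a4, a5, lt_of_le_of_ne a3 hne⟩
      have h1 := hre2 z a1 a6
      have h2 : Real.exp (l * (φ z).re) ≤ Real.exp (l * x0) := Real.exp_le_exp.mpr
        (mul_le_mul_of_nonneg_left (by linarith) hl)
      exact mul_le_mul hb h2 (Real.exp_pos _).le hM
  intro x hx hxL
  have hmem : (x : ℂ) ∈ clr A η x0 Λ := by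
    refine ⟨by simpa using hx, by simpa using hxL, ?_⟩
    rw [Complex.ofReal_im, abs_zero, Complex.ofReal_re]
    unfold wd
    have : 0 < x := by linarith
    positivity
  have key : ‖g x‖ ≤ M * Real.exp (l * x0) := by
    rcases eq_or_lt_of_le hx with hxe | hx1
    · rw [hgn]
      have h1 := hre1 x (by simpa using hx)
      rw [Complex.ofReal_re] at h1
      exact mul_le_mul (H1 x hmem.1 hmem.2.1 hmem.2.2).2
        (Real.exp_le_exp.mpr (mul_le_mul_of_nonneg_left (by linarith) hl)) (Real.exp_pos _).le hM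
    rcases eq_or_lt_of_le hxL with hxe | hx2
    · rw [hgn]
      have h1 : (φ x).re ≤ Λ := by
        have h0 := hre1 x (by simpa using hx)
        rw [Complex.ofReal_re] at h0
        linarith
      have hb2 := H2 x (by simpa using hxe) (by rw [← hxe]; simpa using hmem.2.2)
      calc ‖h x‖ * Real.exp (l * (φ x).re) ≤ (M * Real.exp (-(l * Λ))) * Real.exp (l * Λ) :=
            mul_le_mul hb2 (Real.exp_le_exp.mpr (mul_le_mul_of_nonneg_left h1 hl)) (Real.exp_pos _).le
              (by positivity)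
        _ = M * (Real.exp (-(l * Λ)) * Real.exp (l * Λ)) := by ring
        _ = M * 1 := by rw [← Real.exp_add]; simp
        _ ≤ _ := mul_le_mul_of_nonneg_left hE1 hM
    · refine Complex.norm_le_of_forall_mem_frontier_norm_le (reg_bounded hA0.le hη hx0) hU hfr (subset_closure ?_)
      refine ⟨by simpa using hx1, by simpa using hx2, ?_⟩
      rw [Complex.ofReal_im, abs_zero, Complex.ofReal_re]
      unfold wd
      have : 0 < x := by linarith
      positivity
  rw [hgn] at key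
  have h1 := hre3 x hx
  have h2 : Real.exp (l * (x / 2)) ≤ Real.exp (l * (φ x).re) :=
    Real.exp_le_exp.mpr (mul_le_mul_of_nonneg_left h1 hl)
  have h3 : ‖h x‖ * Real.exp (l * (x / 2)) ≤ M * Real.exp (l * x0) :=
    (mul_le_mul_of_nonneg_left h2 (norm_nonneg _)).trans key
  rw [show -(l * (x / 2 - x0)) = l * x0 - l * (x / 2) by ring, Real.exp_sub, ← mul_div_assoc,
    le_div_iff₀ (Real.exp_pos _)]
  exact h3

end Pool.Agent.Zk3.GL
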