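import Pool.Agent.Zk3.CL.Local2

set_option autoImplicit false

/-! The local theorem with a weaker growth condition. -/

namespace Pool.Agent.Zk3.GL

open Complex Filter Topology MeasureTheory Set Metric
open Pool.Agent.Zk3.CL (ld_bound pigeon_scaled zeros_finite psi phi psi_norm phi_norm_le psi_inv_le good_circle detect
  edge_pt exp_left exp_top exp_right PiZ)

/-- The local theorem with the growth `e^B`, `B ≤ e^(b n)`. -/
theorem local_thm {κ ρ a : ℝ} (hκ : 0 < κ) (hκ1 : κ ≤ 1 / 4) (hρ : 8 ≤ ρ) (ha : 0 < a) (ha1 : a ≤ 1) :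
    ∃ c b1 n0 : ℝ, 0 < c ∧ 0 < b1 ∧ 1 ≤ n0 ∧ ∀ (n B : ℝ) (G : ℂ → ℂ) (w0 : ℂ), n0 ≤ n → 1 ≤ B →
    B ≤ Real.exp (b1 * n) →
    (∀ w : ℂ, 1 - κ ≤ w.re → w.re ≤ 2 * ρ → |w.im| ≤ 5 * ρ → AnalyticAt ℂ G w ∧ ‖G w‖ ≤ Real.exp B) →
    (∀ w : ℂ, ρ / 2 - 1 ≤ w.re → w.re ≤ 2 * ρ → |w.im| ≤ 5 * ρ → ‖G w - 1‖ ≤ Real.exp (-(a * n * w.re))) →
    G w0 = 0 → 1 ≤ w0.re → w0.re ≤ 2 * ρ → |w0.im| ≤ 1 →
    ∃ Z : Finset ℂ, c * n ≤ Z.card ∧ ∀ z ∈ Z, G z = 0 ∧ 1 - κ ≤ z.re ∧ z.re ≤ 2 * ρ ∧ |z.im| ≤ 5 * ρ := by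
  classical
  obtain ⟨K0, hK0, hld⟩ := ld_bound hκ hκ1 hρ (le_refl (1 : ℝ))
  set q := κ / (64 * Real.exp 1) with hq
  have he1 : 2 < Real.exp 1 := by have := Real.exp_one_gt_d9; linarith
  have hqp : 0 < q := by positivity
  have hqD : q ≤ 11 * ρ := by
    rw [hq, div_le_iff₀ (by positivity)]
    nlinarith
  set C1 := 11 * ρ / q with hC1
  have hC1e : Real.exp 1 ≤ C1 := by
    rw [hC1, hq, div_div_eq_mul_div, le_div_iff₀ hκ]
    nlinarith [Real.exp_one_lt_d9]
  have hC1p : 0 < C1 := lt_of_lt_of_le (Real.exp_pos 1) hC1e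
  have hlC1 : 1 ≤ Real.log C1 := by
    rw [← Real.log_exp 1]
    exact Real.log_le_log (Real.exp_pos 1) hC1e
  set c := a * κ / (32 * Real.log C1) with hc
  have hcp : 0 < c := by positivity
  have hc1 : c ≤ 1 := by
    rw [hc, div_le_one (by positivity)]
    nlinarith
  set b := a * κ / 32 with hb
  have hbp : 0 < b := by positivity
  set K2 := (7 * ρ + 2) * (K0 + 1) * 16 / κ * (8 / κ) with hK2
  have hK2p : 0 < K2 := by positivity
  refine ⟨c, b / 2, max (1 / a) (max 1 (8 * K2 / b ^ 2)), hcp, by linarith, (le_max_left _ _).trans (le_max_right _ _), ?_⟩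
  intro n B G w0 hn hB hBn hG hG1 hG0 hw1 hw2 hw3
  have hna : 1 / a ≤ n := (le_max_left _ _).trans hn
  have hn1 : 1 ≤ n := (le_max_left _ _).trans ((le_max_right _ _).trans hn)
  have hnb : 8 * K2 / b ^ 2 ≤ n := (le_max_right _ _).trans ((le_max_right _ _).trans hn)
  have hnp : 0 < n := by linarith
  have han : 1 ≤ a * n := by
    rw [div_le_iff₀ ha] at hna
    linarith
  set A := a * n with hA
  have hAp : 0 < A := by positivity
  -- the zeros
  set Ω : Set ℂ := Icc (1 - κ) (2 * ρ) ×ℂ Icc (-(5 * ρ)) (5 * ρ) with hΩ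
  have hΩm : ∀ w : ℂ, w ∈ Ω ↔ 1 - κ ≤ w.re ∧ w.re ≤ 2 * ρ ∧ |w.im| ≤ 5 * ρ := by
    intro w
    rw [hΩ, mem_reProdIm, mem_Icc, mem_Icc, abs_le]
    tauto
  have hΩc : IsCompact Ω := isCompact_Icc.reProdIm isCompact_Icc
  have hΩp : IsPreconnected Ω := by
    have h1 := (convex_Icc (1 - κ) (2 * ρ)).linear_preimage Complex.reLm
    have h2 := (convex_Icc (-(5 * ρ)) (5 * ρ)).linear_preimage Complex.imLm
    exact (h1.inter h2).isPreconnected
  have hΩa : AnalyticOnNhd ℂ G Ω := fun w hw => by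
    obtain ⟨h1, h2, h3⟩ := (hΩm w).1 hw
    exact (hG w h1 h2 h3).1
  -- `G` is close to one
  have hclose : ∀ w : ℂ, ρ / 2 - 1 ≤ w.re → w.re ≤ 2 * ρ → |w.im| ≤ 5 * ρ → 1 / 2 ≤ ‖G w‖ := by
    intro w h1 h2 h3
    have h4 := hG1 w h1 h2 h3
    have h5 : Real.exp (-(A * w.re)) ≤ 1 / 2 := by
      have : 1 ≤ A * w.re := han.trans (le_mul_of_one_le_right hAp.le (by linarith))
      calc Real.exp (-(A * w.re)) ≤ Real.exp (-1) := Real.exp_le_exp.mpr (by linarith)
        _ ≤ 1 / 2 := by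
          rw [Real.exp_neg, inv_eq_one_div]
          exact one_div_le_one_div_of_le (by norm_num) he1.le
    have h6 : (1 : ℝ) ≤ ‖G w‖ + ‖G w - 1‖ := by
      calc (1 : ℝ) = ‖G w - (G w - 1)‖ := by simp
        _ ≤ _ := norm_sub_le _ _
    linarith
  have hρΩ : (ρ : ℂ) ∈ Ω := by
    rw [hΩm]
    simp only [ofReal_re, ofReal_im, abs_zero]
    refine ⟨by linarith, by linarith, by linarith⟩
  have hGρ : G ρ ≠ 0 := by
    have := hclose ρ (by simp; linarith) (by simp; linarith) (by simp; linarith)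
    intro h0
    rw [h0, norm_zero] at this
    linarith
  have hfin := zeros_finite hΩc hΩp hΩa hρΩ hGρ
  set Z : Finset ℂ := hfin.toFinset with hZ
  have hZm : ∀ z, z ∈ Z ↔ z ∈ Ω ∧ G z = 0 := fun z => by
    rw [hZ, Set.Finite.mem_toFinset]; rfl
  by_contra hcon
  push Not at hcon
  have hNn : (Z.card : ℝ) < c * n := by
    by_contra h
    obtain ⟨z, hz, h2⟩ := hcon Z (not_lt.mp h)
    have h1 := (hZm z).1 hz
    obtain ⟨g1, g2, g3⟩ := (hΩm z).1 h1.1
    exact absurd g3 (not_le.mpr (h2 h1.2 g1 g2))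
  set N := Z.card with hN
  have hN2 : (N : ℝ) + 1 ≤ 2 * n := by
    have := mul_le_mul_of_nonneg_right hc1 hnp.le
    linarith
  have hw0lt : w0.re < ρ / 2 - 1 := by
    by_contra h
    have := hclose w0 (not_lt.mp h) hw2 (by linarith)
    rw [hG0, norm_zero] at this
    linarith
  -- the edges
  obtain ⟨xl, hxl, hxl2⟩ := pigeon_scaled (Z.image fun z => z.re) (1 - 3 * κ / 4) (l := κ / 4) (by linarith)
  obtain ⟨yb, hyb, hyb2⟩ := pigeon_scaled (Z.image fun z => z.im) (-(3 * ρ + 1)) (l := 1) one_pos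
  obtain ⟨yt, hyt, hyt2⟩ := pigeon_scaled (Z.image fun z => z.im) (3 * ρ) (l := 1) one_pos
  set δ := κ / (8 * ((N : ℝ) + 1)) with hδ
  have hδp : 0 < δ := by positivity
  have hδ1 : δ ≤ 1 := by
    rw [hδ, div_le_one (by positivity)]
    have : (0 : ℝ) ≤ N := Nat.cast_nonneg _
    linarith
  have him : ((Z.image fun z => z.re).card : ℝ) ≤ N := by exact_mod_cast Finset.card_image_le
  have him2 : ((Z.image fun z => z.im).card : ℝ) ≤ N := by exact_mod_cast Finset.card_image_le
  have dl : ∀ z ∈ Z, δ ≤ |xl - z.re| := fun z hz => by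
    refine le_trans ?_ (hxl2 z.re (Finset.mem_image_of_mem _ hz))
    rw [hδ, show κ / (8 * ((N : ℝ) + 1)) = κ / 4 / (2 * ((N : ℝ) + 1)) by rw [div_div]; congr 1; ring]
    exact div_le_div_of_nonneg_left (by linarith) (by positivity) (by linarith)
  have dgen : ∀ y : ℝ, (∀ γ ∈ Z.image fun z => z.im, 1 / (2 * (((Z.image fun z => z.im).card : ℝ) + 1)) ≤ |y - γ|) →
      ∀ z ∈ Z, δ ≤ |y - z.im| := fun y hy z hz => by
    refine le_trans ?_ (hy z.im (Finset.mem_image_of_mem _ hz))
    rw [hδ, div_le_div_iff₀ (by positivity) (by positivity)]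
    have h0 : (0 : ℝ) ≤ ((Z.image fun z => z.im).card : ℝ) := Nat.cast_nonneg _
    have h1 := mul_le_mul_of_nonneg_right hκ1 (by linarith : (0 : ℝ) ≤ 2 * (((Z.image fun z => z.im).card : ℝ) + 1))
    linarith
  have dt := dgen yt hyt2
  have db := dgen yb hyb2
  have hxl1 := hxl.1
  have hxl3 : xl ≤ 1 - κ / 2 := by have := hxl.2; linarith
  have hyb1 := hyb.1
  have hyb3 : yb ≤ -(3 * ρ) := by have := hyb.2; linarith
  have hyt1 := hyt.1
  have hyt3 : yt ≤ 3 * ρ + 1 := hyt.2
  -- the circle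
  obtain ⟨r, hr1, hr2, hrξ⟩ := good_circle Z w0 hκ
  have hrp : 0 < r := by linarith
  have hrect : ∀ s ∈ Icc xl ρ ×ℂ Icc yb yt, s ∈ Ω := by
    intro s hs
    have h1 : xl ≤ s.re ∧ s.re ≤ ρ := hs.1
    have h2 : yb ≤ s.im ∧ s.im ≤ yt := hs.2
    rw [hΩm, abs_le]
    refine ⟨by linarith [h1.1], by linarith [h1.2], by linarith [h2.1], by linarith [h2.2]⟩
  have hw3' := abs_le.mp hw3
  set E := (K0 + 1) * B / δ * Real.exp (-(A * κ / 16)) * (2 * (11 * ρ / q) ^ Z.card / (κ / 4)) with hE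
  have hB0 : 0 < B := by linarith
  have hKn : 0 ≤ (K0 + 1) * B / δ := by positivity
  have hKn1 : K0 * B / δ ≤ (K0 + 1) * B / δ :=
    div_le_div_of_nonneg_right (mul_le_mul_of_nonneg_right (by linarith) hB0.le) hδp.le
  have hdet := detect (G := G) (Z := Z) (w0 := w0) (u := A / 4) (Q := A / (4 * ρ)) (a := xl) (b := ρ)
    (c := yb) (d := yt) (r := r) (E := E) (by linarith) (by linarith) hrp (fun s hs => hΩa s (hrect s hs)) ?_
    (fun s hs h0 => (hZm s).2 ⟨hrect s hs, h0⟩) ?_ ?_ hG0 ?_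
  · -- the final inequality
    have h1 : r * ((ρ - xl) + (yt - yb)) ≤ κ / 8 * (7 * ρ + 2) := by
      refine mul_le_mul hr2 (by linarith) (by linarith) (by positivity)
    have hCN : C1 ^ N ≤ Real.exp (b * n) := by
      rw [← Real.rpow_natCast, Real.rpow_def_of_pos hC1p]
      refine Real.exp_le_exp.mpr ?_
      calc Real.log C1 * N ≤ Real.log C1 * (c * n) := mul_le_mul_of_nonneg_left hNn.le (by linarith)
        _ = b * n := by
          rw [hc, hb]
          field_simp
    have hEle : E ≤ (K0 + 1) * B * (16 * n / κ) * Real.exp (-(b * n)) * (8 / κ) := by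
      have e1 : (K0 + 1) * B / δ ≤ (K0 + 1) * B * (16 * n / κ) := by
        rw [hδ, div_div_eq_mul_div, mul_div_assoc]
        refine mul_le_mul_of_nonneg_left ?_ (by positivity)
        exact div_le_div_of_nonneg_right (by linarith) hκ.le
      have e2 : 2 * (11 * ρ / q) ^ Z.card / (κ / 4) ≤ Real.exp (b * n) * (8 / κ) := by
        rw [show 2 * (11 * ρ / q) ^ Z.card / (κ / 4) = (11 * ρ / q) ^ Z.card * (8 / κ) by ring]
        exact mul_le_mul_of_nonneg_right hCN (by positivity)
      calc E ≤ (K0 + 1) * B * (16 * n / κ) * Real.exp (-(A * κ / 16)) * (Real.exp (b * n) * (8 / κ)) := by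
            rw [hE]
            refine mul_le_mul (mul_le_mul_of_nonneg_right e1 (Real.exp_pos _).le) e2 (by positivity) (by positivity)
        _ = (K0 + 1) * B * (16 * n / κ) * (Real.exp (-(A * κ / 16)) * Real.exp (b * n)) * (8 / κ) := by ring
        _ = _ := by
            rw [← Real.exp_add]
            congr 3
            rw [hA, hb]
            ring_nf
    have hexp : (b / 2 * n) ^ 2 / 2 ≤ Real.exp (b / 2 * n) := by
      have := Real.pow_div_factorial_le_exp (b / 2 * n) (by positivity) 2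
      rwa [show ((Nat.factorial 2 : ℕ) : ℝ) = 2 by norm_num [Nat.factorial]] at this
    have h2 : Real.pi ≤ K2 * n * Real.exp (-(b / 2 * n)) := by
      refine hdet.trans ?_
      have hBe : B * Real.exp (-(b * n)) ≤ Real.exp (-(b / 2 * n)) := by
        calc B * Real.exp (-(b * n)) ≤ Real.exp (b / 2 * n) * Real.exp (-(b * n)) :=
              mul_le_mul_of_nonneg_right hBn (Real.exp_pos _).le
          _ = Real.exp (-(b / 2 * n)) := by
              rw [← Real.exp_add]
              congr 1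
              ring
      calc r * ((ρ - xl) + (yt - yb)) * E
          ≤ κ / 8 * (7 * ρ + 2) * ((K0 + 1) * B * (16 * n / κ) * Real.exp (-(b * n)) * (8 / κ)) :=
            mul_le_mul h1 hEle (by positivity) (by positivity)
        _ = K2 * n * (B * Real.exp (-(b * n))) * (κ / 8) := by
            rw [hK2]
            field_simp
        _ ≤ K2 * n * (B * Real.exp (-(b * n))) * 1 := by
            refine mul_le_mul_of_nonneg_left (by linarith) (by positivity)
        _ ≤ K2 * n * Real.exp (-(b / 2 * n)) * 1 :=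
            mul_le_mul_of_nonneg_right (mul_le_mul_of_nonneg_left hBe (by positivity)) zero_le_one
        _ = _ := by ring
    have h3 : Real.pi * (b ^ 2 * n) ≤ 8 * K2 := by
      have h4 : Real.exp (-(b / 2 * n)) * Real.exp (b / 2 * n) = 1 := by
        rw [← Real.exp_add, neg_add_cancel, Real.exp_zero]
      have h5 : Real.pi * ((b / 2 * n) ^ 2 / 2) ≤ K2 * n := by
        calc Real.pi * ((b / 2 * n) ^ 2 / 2) ≤ K2 * n * Real.exp (-(b / 2 * n)) * Real.exp (b / 2 * n) :=
              mul_le_mul h2 hexp (by positivity) (by positivity)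
          _ = K2 * n * (Real.exp (-(b / 2 * n)) * Real.exp (b / 2 * n)) := by ring
          _ = K2 * n := by rw [h4, mul_one]
      have h6 : n * (Real.pi * (b ^ 2 * n)) ≤ n * (8 * K2) := by
        calc n * (Real.pi * (b ^ 2 * n)) = 8 * (Real.pi * ((b / 2 * n) ^ 2 / 2)) := by ring
          _ ≤ 8 * (K2 * n) := by linarith
          _ = _ := by ring
      exact le_of_mul_le_mul_left h6 (by positivity)
    have h7 : 8 * K2 ≤ b ^ 2 * n := by
      rw [div_le_iff₀ (by positivity)] at hnb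
      linarith
    have h8 := mul_lt_mul_of_pos_right Real.pi_gt_three (by positivity : 0 < b ^ 2 * n)
    linarith
  · intro s hs h0
    have hsΩ := hrect s hs
    have hsZ := (hZm s).2 ⟨hsΩ, h0⟩
    have h1 : xl ≤ s.re ∧ s.re ≤ ρ := hs.1
    have h2 : yb ≤ s.im ∧ s.im ≤ yt := hs.2
    have c1 : s.re ≠ xl := by
      rintro h
      have := dl s hsZ
      rw [h, sub_self, abs_zero] at this
      linarith
    have c2 : s.re ≠ ρ := by
      rintro h
      have := hclose s (by rw [h]; linarith) (by rw [h]; linarith) ((hΩm s).1 hsΩ).2.2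
      rw [h0, norm_zero] at this
      linarith
    have c3 : s.im ≠ yb := by
      rintro h
      have := db s hsZ
      rw [h, sub_self, abs_zero] at this
      linarith
    have c4 : s.im ≠ yt := by
      rintro h
      have := dt s hsZ
      rw [h, sub_self, abs_zero] at this
      linarith
    exact ⟨⟨lt_of_le_of_ne h1.1 c1.symm, lt_of_le_of_ne h1.2 c2⟩,
      ⟨lt_of_le_of_ne h2.1 c3.symm, lt_of_le_of_ne h2.2 c4⟩⟩
  · intro ξ hξ h0
    have := hrξ ξ hξ
    rw [h0, norm_zero] at this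
    have : 0 < (κ / (64 * Real.exp 1)) ^ Z.card := by positivity
    linarith
  · exact ⟨⟨by linarith, by linarith⟩, ⟨by linarith [hw3'.1], by linarith [hw3'.2]⟩⟩
  · intro ξ hξ s hs
    have hsre : xl ≤ s.re ∧ s.re ≤ ρ := by
      rcases hs with ⟨h1, -⟩ | ⟨-, h1 | h1⟩
      · exact h1
      · exact ⟨h1.ge, by linarith⟩
      · exact ⟨by linarith, h1.le⟩
    have hsim : yb ≤ s.im ∧ s.im ≤ yt := by
      rcases hs with ⟨-, h1 | h1⟩ | ⟨h1, -⟩
      · exact ⟨h1.ge, by linarith⟩
      · exact ⟨by linarith, h1.le⟩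
      · exact h1
    have hsΩ : s ∈ Ω := hrect s ⟨hsre, hsim⟩
    have hsim' : |s.im| ≤ 3 * ρ + 1 := abs_le.mpr ⟨by linarith, by linarith⟩
    have hD : ∀ z ∈ Z, ‖s - z‖ ≤ 11 * ρ := by
      intro z hz
      obtain ⟨g1, g2, g3⟩ := (hΩm z).1 ((hZm z).1 hz).1
      have g3' := abs_le.mp g3
      refine (Complex.norm_le_abs_re_add_abs_im _).trans ?_
      have k1 : |(s - z).re| ≤ 2 * ρ := by
        rw [sub_re, abs_le]
        constructor <;> linarith
      have k2 : |(s - z).im| ≤ 9 * ρ := by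
        rw [sub_im, abs_le]
        constructor <;> linarith
      linarith
    have hsξ : κ / 2 ≤ ‖s - w0‖ → κ / 4 ≤ ‖s - ξ‖ := by
      intro h2
      have h4 : ‖s - w0‖ ≤ ‖s - ξ‖ + ‖ξ - w0‖ := by
        calc ‖s - w0‖ = ‖(s - ξ) + (ξ - w0)‖ := by congr 1; ring
          _ ≤ _ := norm_add_le _ _
      rw [hξ] at h4
      linarith
    have hre0 : (s - w0).re = s.re - w0.re := sub_re _ _
    have him0 : (s - w0).im = s.im - w0.im := sub_im _ _
    have hGc : 1 / 2 ≤ ‖G (ρ + s.im * I)‖ := by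
      refine hclose _ ?_ ?_ ?_
      · simp; linarith
      · simp; linarith
      · simp only [add_im, ofReal_im, mul_im, ofReal_re, I_im, mul_one, I_re, mul_zero, zero_add, add_zero]
        linarith
    have hldz : (∀ z ∈ Z, δ ≤ ‖s - z‖) → ‖deriv G s / G s‖ ≤ (K0 + 1) * B / δ * Real.exp 0 := by
      intro h
      rw [Real.exp_zero, mul_one]
      refine le_trans (hld B G hB (fun w h1 h2 h3 => by rw [one_mul]; exact hG w h1 h2 h3) s.im δ s hsim' hGc rfl ?_ hδp hδ1 (fun w h1 h2 h3 h0 =>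
        h w ((hZm w).2 ⟨(hΩm w).2 ⟨h1, h2, h3⟩, h0⟩))).2 hKn1
      rw [abs_le]
      constructor <;> linarith
    have hfinish : ∀ X : ℝ, ‖deriv G s / G s‖ ≤ (K0 + 1) * B / δ * Real.exp X → κ / 2 ≤ ‖s - w0‖ →
        X + (A / 4 * (s - w0).re + A / (4 * ρ) * ((s - w0).re ^ 2 - (s - w0).im ^ 2) +
          (A / 4 * r + A / (4 * ρ) * r ^ 2)) ≤ -(A * κ / 16) →
        ‖deriv G s / G s * phi Z (A / 4) (A / (4 * ρ)) w0 ξ s‖ ≤ E := by
      intro X h1 h2 h3
      exact edge_pt hqp hqD (hrξ ξ hξ) hD hκ (hsξ h2) hAp.le (by linarith) hξ hKn h1 h3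
    rcases hs with ⟨-, h1⟩ | ⟨-, h1 | h1⟩
    · -- top and bottom
      have hy : 3 * ρ - 1 ≤ |s.im - w0.im| := by
        rcases h1 with h1 | h1
        · rw [h1, abs_of_nonpos (by linarith [hw3'.1])]
          linarith [hw3'.1]
        · rw [h1, abs_of_nonneg (by linarith [hw3'.2])]
          linarith [hw3'.2]
      have hdz : ∀ z ∈ Z, δ ≤ ‖s - z‖ := by
        intro z hz
        refine le_trans ?_ (Complex.abs_im_le_norm _)
        rw [sub_im]
        rcases h1 with h1 | h1
        · rw [h1]; exact db z hz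
        · rw [h1]; exact dt z hz
      refine hfinish 0 (hldz hdz) ?_ ?_
      · refine le_trans ?_ (Complex.abs_im_le_norm _)
        rw [him0]
        linarith
      · rw [zero_add, hre0, him0]
        refine exp_top hκ hκ1 hρ hAp.le (by linarith) (by linarith) ?_ hrp.le hr2
        rw [← sq_abs (s.im - w0.im)]
        exact pow_le_pow_left₀ (by linarith) hy 2
    · -- left
      have hdz : ∀ z ∈ Z, δ ≤ ‖s - z‖ := by
        intro z hz
        refine le_trans ?_ (Complex.abs_re_le_norm _)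
        rw [sub_re, h1]
        exact dl z hz
      refine hfinish 0 (hldz hdz) ?_ ?_
      · refine le_trans ?_ (Complex.abs_re_le_norm _)
        rw [hre0, h1, abs_of_nonpos (by linarith)]
        linarith
      · rw [zero_add]
        have k1 := exp_left (x := w0.re - s.re) hκ hκ1 hρ hAp.le (by rw [h1]; linarith) (by rw [h1]; linarith)
          hrp.le hr2
        have k2 : (s - w0).re ^ 2 - (s - w0).im ^ 2 ≤ (w0.re - s.re) ^ 2 := by
          have k0 := sq_nonneg (s - w0).im
          have k00 : (s.re - w0.re) ^ 2 = (w0.re - s.re) ^ 2 := by ring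
          rw [hre0, k00]
          linarith
        have k3 : A / (4 * ρ) * ((s - w0).re ^ 2 - (s - w0).im ^ 2) ≤ A / (4 * ρ) * (w0.re - s.re) ^ 2 :=
          mul_le_mul_of_nonneg_left k2 (by positivity)
        rw [hre0] at k3 ⊢
        linarith
    · -- right
      have h2 : ‖deriv G s‖ ≤ Real.exp (-(A * (ρ - 1))) := by
        have hsph : ∀ w ∈ closedBall s 1, ρ - 1 ≤ w.re ∧ w.re ≤ ρ + 1 ∧ |w.im| ≤ 3 * ρ + 2 := by
          intro w hw
          rw [mem_closedBall, dist_eq_norm] at hw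
          have g1 := (Complex.abs_re_le_norm _).trans hw
          have g2 := (Complex.abs_im_le_norm _).trans hw
          rw [sub_re, abs_le] at g1
          rw [sub_im, abs_le] at g2
          have g3 := abs_le.mp hsim'
          rw [abs_le]
          refine ⟨by linarith, by linarith, by linarith, by linarith⟩
        have hd : DiffContOnCl ℂ (fun w => G w - 1) (ball s 1) := by
          apply DifferentiableOn.diffContOnCl
          rw [closure_ball s one_ne_zero]
          intro w hw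
          obtain ⟨g1, g2, g3⟩ := hsph w hw
          exact ((hG w (by linarith) (by linarith) (by linarith)).1.differentiableAt.sub_const 1).differentiableWithinAt
        have hc := Complex.norm_deriv_le_of_forall_mem_sphere_norm_le (c := s) (R := 1)
          (C := Real.exp (-(A * (ρ - 1)))) (f := fun w => G w - 1) one_pos hd (by
          intro w hw
          obtain ⟨g1, g2, g3⟩ := hsph w (sphere_subset_closedBall hw)
          refine (hG1 w (by linarith) (by linarith) (by linarith)).trans (Real.exp_le_exp.mpr ?_)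
          exact neg_le_neg (mul_le_mul_of_nonneg_left g1 hAp.le))
        rw [deriv_sub_const, div_one] at hc
        exact hc
      have h3 : 1 / 2 ≤ ‖G s‖ := hclose s (by rw [h1]; linarith) (by rw [h1]; linarith) (by linarith)
      refine hfinish (-(A * (ρ - 1))) ?_ ?_ ?_
      · rw [norm_div, div_le_iff₀ (by linarith)]
        have h4 : (2 : ℝ) ≤ (K0 + 1) * B / δ := by
          rw [le_div_iff₀ hδp]
          have := mul_le_mul_of_nonneg_left hB (by linarith : (0 : ℝ) ≤ K0 + 1)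
          linarith
        have h5 := Real.exp_pos (-(A * (ρ - 1)))
        calc ‖deriv G s‖ ≤ Real.exp (-(A * (ρ - 1))) := h2
          _ = 2 * Real.exp (-(A * (ρ - 1))) * (1 / 2) := by ring
          _ ≤ (K0 + 1) * B / δ * Real.exp (-(A * (ρ - 1))) * ‖G s‖ := by
            refine mul_le_mul (mul_le_mul_of_nonneg_right h4 h5.le) h3 (by norm_num) (by positivity)
      · refine le_trans ?_ (Complex.abs_re_le_norm _)
        rw [hre0, h1, abs_of_nonneg (by linarith)]
        linarith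
      · rw [hre0, him0]
        exact exp_right hκ hκ1 hρ hAp.le (by rw [h1]; linarith) (by rw [h1]; linarith) hrp.le hr2

end Pool.Agent.Zk3.GL
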