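import Mathlib
import Pool.Agent.H370R2.Local

set_option autoImplicit false

/-!
# A class of L-functions
-/

namespace Pool.Agent.Zk3.GL

open Complex Filter Topology Set Metric
open ArithmeticFunction (vonMangoldt)

/-- An L-function of any degree in the upper half plane, with polynomial growth, whose logarithmic derivative is a
Dirichlet series with coefficients at most `D Λ(n)`. -/
structure IsL (D A Q : ℝ) (F : ℂ → ℂ) (a : ℕ → ℂ) : Prop where
  an : ∀ s : ℂ, 0 < s.im → AnalyticAt ℂ F s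
  growth : ∀ s : ℂ, 1 / 4 ≤ s.re → s.re ≤ 4 → 1 ≤ s.im → ‖F s‖ ≤ A * (Q * s.im) ^ A
  lower : ∀ t : ℝ, 1 ≤ t → A⁻¹ ≤ ‖F (⟨2, t⟩ : ℂ)‖
  nz : ∀ s : ℂ, 1 < s.re → 1 ≤ s.im → F s ≠ 0
  coef : ∀ n : ℕ, ‖a n‖ ≤ D * vonMangoldt n
  ld : ∀ s : ℂ, 1 < s.re → 1 ≤ s.im → deriv F s / F s = - ∑' n : ℕ, a n * (n : ℂ) ^ (-s)

/-- prime powers of exponent at least two -/
theorem np_bound : ∃ C : ℝ, 1 ≤ C ∧ ∀ Y : ℕ, 1 ≤ Y →
    ∑ n ∈ Finset.Ioc 0 Y, (if n.Prime then 0 else vonMangoldt n) / Real.sqrt n ≤ C * (2 + Real.log Y) := by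
  obtain ⟨C0, hC0⟩ := Chebyshev.psi_sub_theta_le_mul_sqrt
  obtain ⟨C, hC⟩ : ∃ C : ℝ, C = max C0 1 := ⟨_, rfl⟩
  have hC1 : 1 ≤ C := by rw [hC]; exact le_max_right _ _
  have hC0' : C0 ≤ C := by rw [hC]; exact le_max_left _ _
  set b : ℕ → ℝ := fun n => if n.Prime then 0 else vonMangoldt n with hb
  have hb0 : ∀ n, 0 ≤ b n := by
    intro n; rw [hb]; simp only; split_ifs
    · exact le_rfl
    · exact ArithmeticFunction.vonMangoldt_nonneg
  have hB : ∀ M : ℕ, ∑ n ∈ Finset.Ioc 0 M, b n ≤ C * Real.sqrt M := by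
    intro M
    have h1 := hC0 (M:ℝ)
    rw [Chebyshev.psi_sub_theta_eq_sum_not_prime, Nat.floor_natCast, Finset.sum_filter] at h1
    have h2 : ∑ n ∈ Finset.Ioc 0 M, b n =
        ∑ a ∈ Finset.Ioc 0 M, if ¬ Nat.Prime a then vonMangoldt a else 0 := by
      apply Finset.sum_congr rfl
      intro n _
      rw [hb]; simp only
      split_ifs <;> rfl
    rw [h2]
    refine h1.trans ?_
    exact mul_le_mul_of_nonneg_right hC0' (Real.sqrt_nonneg _)
  have claim : ∀ Y : ℕ, 1 ≤ Y → ∑ n ∈ Finset.Ioc 0 Y, b n / Real.sqrt n ≤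
      (∑ n ∈ Finset.Ioc 0 Y, b n) / Real.sqrt Y + C * (1 + Real.log Y) := by
    intro Y hY
    induction Y, hY using Nat.le_induction with
    | base =>
      have : Finset.Ioc 0 1 = {1} := by decide
      rw [this, Finset.sum_singleton, Finset.sum_singleton]
      simp
      linarith
    | succ Y hY ih =>
      rw [Finset.sum_Ioc_succ_top (by omega), Finset.sum_Ioc_succ_top (by omega)]
      have hY0 : (0:ℝ) < Y := by exact_mod_cast (by omega : 0 < Y)
      obtain ⟨s, hs⟩ : ∃ s : ℝ, s = Real.sqrt Y := ⟨_, rfl⟩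
      obtain ⟨s1, hs1⟩ : ∃ s1 : ℝ, s1 = Real.sqrt ((Y + 1 : ℕ) : ℝ) := ⟨_, rfl⟩
      have hs0 : 0 < s := by rw [hs]; exact Real.sqrt_pos.mpr hY0
      have hss : s ^ 2 = Y := by rw [hs]; exact Real.sq_sqrt hY0.le
      have hs1s : s1 ^ 2 = Y + 1 := by rw [hs1, Real.sq_sqrt (by positivity)]; push_cast; ring
      have hs10 : 0 < s1 := by rw [hs1]; exact Real.sqrt_pos.mpr (by positivity)
      have hle : s ≤ s1 := by
        rw [hs, hs1]
        exact Real.sqrt_le_sqrt (by push_cast; linarith)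
      rw [← hs] at ih
      rw [← hs1]
      have hBY := hB Y
      rw [← hs] at hBY
      obtain ⟨S, hS⟩ : ∃ S : ℝ, S = ∑ n ∈ Finset.Ioc 0 Y, b n := ⟨_, rfl⟩
      rw [← hS] at ih hBY ⊢
      have hS0 : 0 ≤ S := by rw [hS]; exact Finset.sum_nonneg fun n _ => hb0 n
      -- `S / s ≤ S / s1 + C / (Y + 1)`
      have h1 : S / s ≤ S / s1 + C * (1 / (Y + 1)) := by
        have e1 : S / s - S / s1 = S * (s1 - s) / (s * s1) := by field_simp
        have e2 : S * (s1 - s) / (s * s1) ≤ C * (1 / (Y + 1)) := by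
          rw [mul_one_div, div_le_div_iff₀ (by positivity) (by positivity), ← hs1s]
          have e3 : (s1 - s) * s1 ≤ 1 := by
            have : s1 ^ 2 - s ^ 2 = 1 := by rw [hs1s, hss]; ring
            nlinarith
          have e4 : S * (s1 - s) ≤ C * s * (s1 - s) := mul_le_mul_of_nonneg_right hBY (by linarith)
          calc S * (s1 - s) * s1 ^ 2 ≤ C * s * (s1 - s) * s1 ^ 2 := mul_le_mul_of_nonneg_right e4 (by positivity)
            _ = C * (s * s1) * ((s1 - s) * s1) := by ring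
            _ ≤ C * (s * s1) * 1 := mul_le_mul_of_nonneg_left e3 (by positivity)
            _ = _ := by ring
        linarith
      have h2 : 1 / ((Y : ℝ) + 1) ≤ Real.log ((Y + 1 : ℕ) : ℝ) - Real.log Y := by
        rw [← Real.log_div (by positivity) hY0.ne']
        have h3 := Real.one_sub_inv_le_log_of_pos (x := ((Y + 1 : ℕ) : ℝ) / Y) (by positivity)
        refine le_trans (le_of_eq ?_) h3
        push_cast
        field_simp
        ring
      have h3 := mul_le_mul_of_nonneg_left h2 (show 0 ≤ C by linarith)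
      have h4 : (S + b (Y + 1)) / s1 = S / s1 + b (Y + 1) / s1 := add_div _ _ _
      rw [h4]
      linarith
  refine ⟨C, hC1, fun Y hY => ?_⟩
  refine (claim Y hY).trans ?_
  have hY0 : (0:ℝ) < Y := by exact_mod_cast (by omega : 0 < Y)
  have h1 : (∑ n ∈ Finset.Ioc 0 Y, b n) / Real.sqrt Y ≤ C := by
    rw [div_le_iff₀ (Real.sqrt_pos.mpr hY0)]
    exact hB Y
  linarith

end Pool.Agent.Zk3.GL
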