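import Pool.Agent.Zk3.GL.HWk

/-!
# Zeros off the critical line of Hasse-Weil L-functions of arbitrary degree

Let `X`, `i` be as in the problem, `L(s) = L(i; X, s)`, `D = dim H^i(X)`, and let `N(δ; T, H)` be the number of zeros
of `L` with `Re s ≥ (i + 1)/2 + δ`, `T < Im s ≤ T + H`.  If `L` is not a product of L-functions of degree at most two,
nothing is known about `N(δ; T, T)` for small `δ`: the exponents of all known density theorems grow with the degree,
and they are trivial near the line; for short intervals (`H = T^ε`, or a power of `log T`) nothing is known even for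
`D = 1`.

We prove `N(δ; T, H) ≤ C H^(1 - (2 - ε) δ) (log QT)^P + N_c(δ; T, H)` for all `1 ≤ H ≤ T` and `0 < δ ≤ 1/2`, where
`N_c` counts the zeros in clusters: this is the density hypothesis, with the same exponent for all `D`, uniformly in
the conductor `Q`, down to the line and in all intervals, for the zeros outside clusters.  A zero at distance `β` from
the line is in a cluster if for some `r` between `β` and `1/2` there are more than `c r log H` zeros, and more than a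
given number `R`, at distance at least `(1 - ε) r` from the line, and at height within `B r (r/β)^ε` of the zero.
So `(c)` and `(d)` can fail for more than `H^(1 - (2 - ε) δ)` zeros only if there are such clusters, in which (if
`log H` is comparable with `log(QT)`) a positive proportion of all zeros is off the line by at least `(1 - ε) r`.

The theorem is about all functions with an Euler product of degree `D` (the local polynomials having roots of absolute
value at least `p^(-i/2)`, Deligne) which have an analytic continuation to the upper half plane with polynomial growth.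
In the second part we prove that these properties hold without any hypothesis if `H^i(X)` is a sum of
representations induced from Hecke characters of arbitrary number fields and of powers of the cyclotomic character:
varieties with complex multiplication, Fermat hypersurfaces of all degrees and dimensions, varieties of dimension zero
(abelian, or monomial), with constants which do not depend on the conductors of the characters.
-/

set_option autoImplicit false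

open NumberField Polynomial

namespace Pool.Agent.Zk3.GL.Draft

/-! ### Hasse-Weil L-functions -/

/-- `L` is a Hasse-Weil L-function `∏_p P_p(p^(-s))⁻¹` in degree `i`, with polynomials `P_p` of degree at most `D`,
`P_p(0) = 1`, with roots of absolute value at least `p^(-i/2)` (Deligne; with equality at the good primes;
`P_p = 1` if the prime is omitted).  It has a continuation to the upper half plane, and
`|L(s)| ≤ A (Q Im s)^A` for `i/2 + 1/16 ≤ Re s ≤ i/2 + 4`, `Im s ≥ 1`. -/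
structure IsHasseWeil (i D : ℕ) (P : ℕ → ℂ[X]) (A Q : ℝ) (L : ℂ → ℂ) : Prop where
  constant : ∀ p : ℕ, p.Prime → (P p).coeff 0 = 1
  degree : ∀ p : ℕ, p.Prime → (P p).natDegree ≤ D
  roots : ∀ p : ℕ, p.Prime → ∀ z : ℂ, (P p).eval z = 0 → (p : ℝ) ^ (-((i : ℝ) / 2)) ≤ ‖z‖
  euler : ∀ s : ℂ, (i : ℝ) / 2 + 1 < s.re →
    HasProd (fun p : Nat.Primes => ((P p).eval (((p : ℕ) : ℂ) ^ (-s)))⁻¹) (L s)
  analytic : ∀ s : ℂ, 0 < s.im → AnalyticAt ℂ L s
  growth : ∀ s : ℂ, (i : ℝ) / 2 + 1 / 16 ≤ s.re → s.re ≤ (i : ℝ) / 2 + 4 → 1 ≤ s.im →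
    ‖L s‖ ≤ A * (Q * s.im) ^ A

/-! ### Hecke characters -/

section

variable {K : Type} [Field K] [NumberField K]

/-- `x` is totally positive -/
def TotPos (x : 𝓞 K) : Prop := ∀ τ : K →+* ℝ, 0 < τ (x : K)

/-- the archimedean part `∏_φ (φ(x)/|φ(x)|)^(n_φ)` -/
noncomputable def phase (n : (K →+* ℂ) → ℕ) (x : K) : ℂ :=
  ∏ φ : K →+* ℂ, (φ x / (‖φ x‖ : ℂ)) ^ n φ

/-- `n` is an infinity type: one of the exponents of two conjugate embeddings is zero.  (The phases of `x` at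
conjugate embeddings are inverse to each other, so this is no restriction.)  `n = 0` is allowed. -/
def IsType (n : (K →+* ℂ) → ℕ) : Prop :=
  ∀ φ : K →+* ℂ, n φ = 0 ∨ n (ComplexEmbedding.conjugate φ) = 0

/-- `ψ` is a primitive (unitary) Hecke character of finite conductor `𝔣` and infinity type `n` (with arbitrary
signs at the real places) -/
structure IsHecke (𝔣 : Ideal (𝓞 K)) (n : (K →+* ℂ) → ℕ) (ψ : Ideal (𝓞 K) →*₀ ℂ) : Prop where
  ne_bot : 𝔣 ≠ ⊥
  supp : ∀ 𝔞 : Ideal (𝓞 K), 𝔞 ≠ ⊥ → (ψ 𝔞 ≠ 0 ↔ IsCoprime 𝔞 𝔣)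
  ray : ∀ x : 𝓞 K, x ≠ 0 → x - 1 ∈ 𝔣 → TotPos x → ψ (Ideal.span {x}) = phase n (x : K)
  prim : ∀ 𝔤 : Ideal (𝓞 K), 𝔤 ∣ 𝔣 → 𝔤 ≠ 𝔣 → ∃ x : 𝓞 K, x - 1 ∈ 𝔤 ∧ TotPos x ∧
    IsCoprime (Ideal.span {x}) 𝔣 ∧ ψ (Ideal.span {x}) ≠ phase n (x : K)

/-- The polynomial of the Frobenius at `p` on the representation of degree `[K : ℚ]` which is induced from the Hecke
character `ψ N^(i/2)` of weight `i`: the product over the prime ideals `𝔭` above `p` of
`1 - ψ(𝔭) N(𝔭)^(i/2) T^f`, where `N(𝔭) = p^f`. -/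
noncomputable def inducedPolynomial (i : ℕ) (ψ : Ideal (𝓞 K) →*₀ ℂ) (p : ℕ) : ℂ[X] :=
  ∏ᶠ 𝔭 ∈ {𝔭 : Ideal (𝓞 K) | 𝔭.IsPrime ∧ (p : 𝓞 K) ∈ 𝔭},
    (1 - C (ψ 𝔭 * ((Ideal.absNorm 𝔭 : ℕ) : ℂ) ^ ((i : ℂ) / 2)) * X ^ (𝔭.inertiaDeg ℤ))

end

/-! ### Zeros -/

/-- The number of the points of `S`, counted with their multiplicities as zeros of `L`. -/
noncomputable def num (L : ℂ → ℂ) (S : Set ℂ) : ℕ := ∑ᶠ s ∈ S, analyticOrderNatAt L s

/-- The zeros of `L` with `Re s ≥ (i + 1)/2 + δ` and `T < Im s ≤ T + H`. -/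
def zeros (i : ℕ) (L : ℂ → ℂ) (δ T H : ℝ) : Set ℂ :=
  {s : ℂ | L s = 0 ∧ ((i : ℝ) + 1) / 2 + δ ≤ s.re ∧ T < s.im ∧ s.im ≤ T + H}

/-- The zeros of `L` with `Re z ≥ (i + 1)/2 + (1 - ε) r` and `|Im z - y| ≤ B r (r/β)^ε` (and `Im z ≥ 1`). -/
def near (i : ℕ) (L : ℂ → ℂ) (ε B β r y : ℝ) : Set ℂ :=
  {z : ℂ | L z = 0 ∧ ((i : ℝ) + 1) / 2 + (1 - ε) * r ≤ z.re ∧ 1 ≤ z.im ∧ |z.im - y| ≤ B * r * (r / β) ^ ε}

/-- `s`, at distance `β = Re s - (i + 1)/2` from the line, is in a cluster: for some `r` between `β` and `1/2` there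
are more than `R + c r log H` zeros in `near i L ε B β r (Im s)`. -/
def InCluster (i : ℕ) (L : ℂ → ℂ) (ε B c R H : ℝ) (s : ℂ) : Prop :=
  ∃ r : ℝ, s.re - ((i : ℝ) + 1) / 2 ≤ r ∧ r ≤ 1 / 2 ∧
    R + c * (r * Real.log H) < (num L (near i L ε B (s.re - ((i : ℝ) + 1) / 2) r s.im) : ℝ)

/-- **Main theorem.** (1) For every `ε > 0` there are `B, c, P > 0`, which depend on `ε` only, such that for all `D`,
`A`, `R` there is `C` with the following property.  Let `L` be a Hasse-Weil L-function of degree at most `D` as above,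
in any degree `i` of the cohomology and with any `Q ≥ 1`.  Then for all `1 ≤ H ≤ T`, `T ≥ 3`, and `0 < δ ≤ 1/2`: the
number of the zeros of `L` with `Re s ≥ (i + 1)/2 + δ`, `T < Im s ≤ T + H` is at most `C H^(1 - (2 - ε) δ) (log QT)^P`
plus the number of those in clusters, all with multiplicity.  (All these sets of zeros are finite.)

(2) Let `K_1, …, K_m` be number fields, `n_1, …, n_m` infinity types, `t ≥ 0`.  There is `A` such that for all
`i`, `N ≥ 1` and all primitive Hecke characters `ψ_j` of `K_j` of type `n_j` and conductor `𝔣_j ≠ (1)` the L-function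
with the polynomials `(1 - p^(i/2) T)^t ∏_j inducedPolynomial i ψ_j p`, `p ∤ N`, has these properties, with
`D = t + ∑_j [K_j : ℚ]` and `Q = N ∏_j N(𝔣_j)`; for `t = 0` it is entire. -/
theorem result :
    (∀ ε : ℝ, 0 < ε → ε ≤ 1 → ∃ B c P : ℝ, 1 ≤ B ∧ 0 < c ∧ 0 < P ∧
      ∀ (D : ℕ) (A R : ℝ), 1 ≤ A → ∃ C : ℝ, 0 < C ∧
      ∀ (i : ℕ) (Pol : ℕ → ℂ[X]) (Q : ℝ) (L : ℂ → ℂ), 1 ≤ Q → IsHasseWeil i D Pol A Q L →
      (∀ Y : ℝ, {z : ℂ | L z = 0 ∧ ((i : ℝ) + 1) / 2 ≤ z.re ∧ 1 ≤ z.im ∧ z.im ≤ Y}.Finite) ∧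
      ∀ T H δ : ℝ, 3 ≤ T → 1 ≤ H → H ≤ T → 0 < δ → δ ≤ 1 / 2 →
        (num L (zeros i L δ T H) : ℝ) ≤ C * H ^ (1 - (2 - ε) * δ) * (Real.log (Q * T)) ^ P +
          (num L {s : ℂ | s ∈ zeros i L δ T H ∧ InCluster i L ε B c R H s} : ℝ)) ∧
    (∀ (m : ℕ) (K : Fin m → Type) [∀ j, Field (K j)] [∀ j, NumberField (K j)]
      (n : ∀ j, (K j →+* ℂ) → ℕ) (t : ℕ), (∀ j, IsType (n j)) →
      ∃ A : ℝ, 1 ≤ A ∧ ∀ (i N : ℕ) (𝔣 : ∀ j, Ideal (𝓞 (K j))) (ψ : ∀ j, Ideal (𝓞 (K j)) →*₀ ℂ), N ≠ 0 →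
      (∀ j, 𝔣 j ≠ ⊤ ∧ IsHecke (𝔣 j) (n j) (ψ j)) →
      1 ≤ (N : ℝ) * ∏ j, (Ideal.absNorm (𝔣 j) : ℝ) ∧ ∃ L : ℂ → ℂ, (t = 0 → Differentiable ℂ L) ∧
        IsHasseWeil i (t + ∑ j, Module.finrank ℚ (K j))
          (fun p => if p ∣ N then 1 else
            (1 - C ((p : ℂ) ^ ((i : ℂ) / 2)) * X) ^ t * ∏ j, inducedPolynomial i (ψ j) p)
          A (N * ∏ j, (Ideal.absNorm (𝔣 j) : ℝ)) L) := by
  constructor
  · intro ε hε hε1
    obtain ⟨B, c, P, hB, hc, hP, h⟩ := Pool.Agent.Zk3.GL.dens2 hε hε1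
    refine ⟨B, c, P, hB, hc, hP, fun D A R hA => ?_⟩
    obtain ⟨C, hC, h1⟩ := h D A R hA
    refine ⟨C, hC, fun i Pol Q L hQ hL => ?_⟩
    obtain ⟨-, h2, h3⟩ := h1 i Pol Q L hQ ⟨hL.constant, hL.degree, hL.roots, hL.euler, hL.analytic, hL.growth⟩
    refine ⟨h2, fun T H δ hT hH hHT hδ hδ2 => ?_⟩
    have h4 := h3 T H δ hT hH hHT hδ hδ2
    have hfin : (zeros i L δ T H).Finite := by
      refine (h2 (T + H)).subset ?_
      rintro z ⟨g1, g2, g3, g4⟩
      exact ⟨g1, by linarith, by linarith, g4⟩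
    have h5 := finsum_mem_inter_add_sdiff (f := fun s => analyticOrderNatAt L s)
      {s : ℂ | InCluster i L ε B c R H s} hfin
    have e1 : zeros i L δ T H ∩ {s : ℂ | InCluster i L ε B c R H s} =
        {s : ℂ | s ∈ zeros i L δ T H ∧ InCluster i L ε B c R H s} := rfl
    have e2 : zeros i L δ T H \ {s : ℂ | InCluster i L ε B c R H s} =
        {s : ℂ | L s = 0 ∧ ((i : ℝ) + 1) / 2 + δ ≤ s.re ∧ T < s.im ∧ s.im ≤ T + H ∧
          ∀ r : ℝ, s.re - ((i : ℝ) + 1) / 2 ≤ r → r ≤ 1 / 2 →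
            (num L (near i L ε B (s.re - ((i : ℝ) + 1) / 2) r s.im) : ℝ) ≤ R + c * (r * Real.log H)} := by
      ext s
      constructor
      · rintro ⟨⟨g1, g2, g3, g4⟩, g5⟩
        refine ⟨g1, g2, g3, g4, fun r hr1 hr2 => ?_⟩
        by_contra hcon
        exact g5 ⟨r, hr1, hr2, not_le.mp hcon⟩
      · rintro ⟨g1, g2, g3, g4, g5⟩
        refine ⟨⟨g1, g2, g3, g4⟩, ?_⟩
        rintro ⟨r, hr1, hr2, hr3⟩
        exact absurd (g5 r hr1 hr2) (not_le.mpr hr3)
    rw [e1, e2] at h5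
    have h6 : (num L (zeros i L δ T H) : ℝ) =
        (num L {s : ℂ | s ∈ zeros i L δ T H ∧ InCluster i L ε B c R H s} : ℝ) +
        (num L {s : ℂ | L s = 0 ∧ ((i : ℝ) + 1) / 2 + δ ≤ s.re ∧ T < s.im ∧ s.im ≤ T + H ∧
          ∀ r : ℝ, s.re - ((i : ℝ) + 1) / 2 ≤ r → r ≤ 1 / 2 →
            (num L (near i L ε B (s.re - ((i : ℝ) + 1) / 2) r s.im) : ℝ) ≤ R + c * (r * Real.log H)} : ℝ) := by
      unfold num at h5 ⊢
      exact_mod_cast h5.symm
    rw [h6, add_comm]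
    refine add_le_add ?_ le_rfl
    exact h4
  · intro m K _ _ n t hn
    obtain ⟨A, hA, h⟩ := Pool.Agent.Zk3.GL.sums m K n hn t
    refine ⟨A, hA, fun i N 𝔣 ψ hN hψ => ?_⟩
    obtain ⟨h1, L, h2, h3⟩ := h i N 𝔣 ψ hN fun j => ⟨(hψ j).1, ⟨(hψ j).2.ne_bot, (hψ j).2.supp,
      (hψ j).2.ray, (hψ j).2.prim⟩⟩
    exact ⟨h1, L, h2, ⟨h3.const, h3.degree, h3.roots, h3.euler, h3.analytic, h3.growth⟩⟩

end Pool.Agent.Zk3.GL.Draft
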