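import Pool.Agent.Zk3.GL.HWz
import Pool.Agent.Y773.HK.Eul

set_option autoImplicit false

/-!
# The local polynomials of Hecke L-functions of number fields
-/

namespace Pool.Agent.Zk3.GL

open NumberField Complex Filter Topology Set Ideal
open Pool.Agent.Y773 (Ov zz LI)
open Pool.Agent.Y772.DK (below norm_over deg_pos finite_dvd)

variable {K : Type} [Field K] [NumberField K]

/-- the local polynomial at `p` of the representation induced from `ψ N^(i/2)` -/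
noncomputable def lp (i : ℕ) (ψ : Ideal (𝓞 K) →*₀ ℂ) (p : ℕ) : Polynomial ℂ :=
  ∏ᶠ 𝔭 ∈ Ov K p, (1 - Polynomial.C (ψ 𝔭 * ((absNorm 𝔭 : ℕ) : ℂ) ^ ((i : ℂ) / 2)) *
    Polynomial.X ^ (𝔭.inertiaDeg ℤ))

lemma Ov_finite {p : ℕ} (hp : p.Prime) : (Ov K p).Finite := by
  have h4 : Ov K p ⊆ {𝔭 | 𝔭 ∣ Ideal.span {((p : ℕ) : 𝓞 K)}} := by
    intro 𝔭 h𝔭
    rw [mem_ofPred_eq, Ideal.dvd_span_singleton]
    exact h𝔭.2
  refine (finite_dvd ?_).subset h4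
  rw [Ne, Ideal.zero_eq_bot, Ideal.span_singleton_eq_bot]
  exact_mod_cast hp.ne_zero

lemma lp_eq (i : ℕ) (ψ : Ideal (𝓞 K) →*₀ ℂ) {p : ℕ} (hp : p.Prime) : lp i ψ p =
    ∏ 𝔭 ∈ (Ov_finite (K := K) hp).toFinset,
      (1 - Polynomial.C (ψ 𝔭 * ((absNorm 𝔭 : ℕ) : ℂ) ^ ((i : ℂ) / 2)) * Polynomial.X ^ (𝔭.inertiaDeg ℤ)) := by
  unfold lp
  exact finprod_mem_eq_finite_toFinset_prod _ _

lemma Ov_data {p : ℕ} (hp : p.Prime) {𝔭 : Ideal (𝓞 K)} (h : 𝔭 ∈ Ov K p) :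
    absNorm 𝔭 = p ^ 𝔭.inertiaDeg ℤ ∧ 𝔭.inertiaDeg ℤ ≠ 0 ∧ 𝔭 ∈ (span {(p : ℤ)}).primesOver (𝓞 K) := by
  have h1 := Pool.Agent.Y773.prime_of_Ov hp h
  have h2 := (Pool.Agent.Y773.Ov_iff hp h1).1 h
  exact ⟨norm_over hp h2, deg_pos hp h1 h2, h2⟩

lemma lp_eval (i : ℕ) (ψ : Ideal (𝓞 K) →*₀ ℂ) {p : ℕ} (hp : p.Prime) (s : ℂ) :
    (lp i ψ p).eval ((p : ℂ) ^ (-s)) = ∏ᶠ 𝔭 ∈ Ov K p, (1 - zz ψ (s - (i : ℂ) / 2) 𝔭) := by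
  rw [lp_eq i ψ hp, Polynomial.eval_prod, finprod_mem_eq_finite_toFinset_prod _ (Ov_finite hp)]
  refine Finset.prod_congr rfl fun 𝔭 h𝔭 => ?_
  rw [Set.Finite.mem_toFinset] at h𝔭
  obtain ⟨h1, h2, -⟩ := Ov_data hp h𝔭
  have hN : ((absNorm 𝔭 : ℕ) : ℂ) ≠ 0 := by
    rw [h1]
    exact_mod_cast pow_ne_zero _ hp.ne_zero
  simp only [Polynomial.eval_sub, Polynomial.eval_one, Polynomial.eval_mul, Polynomial.eval_C,
    Polynomial.eval_pow, Polynomial.eval_X]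
  have h3 : ((p : ℂ) ^ (-s)) ^ 𝔭.inertiaDeg ℤ = ((absNorm 𝔭 : ℕ) : ℂ) ^ (-s) := by
    rw [h1, Pool.Agent.Y773.natCast_pow_cpow]
  rw [h3]
  unfold zz
  rw [mul_assoc, ← Complex.cpow_add _ _ hN]
  congr 3
  ring

lemma lp_zero (i : ℕ) (ψ : Ideal (𝓞 K) →*₀ ℂ) {p : ℕ} (hp : p.Prime) : (lp i ψ p).coeff 0 = 1 := by
  rw [Polynomial.coeff_zero_eq_eval_zero, lp_eq i ψ hp, Polynomial.eval_prod]
  refine Finset.prod_eq_one fun 𝔭 h𝔭 => ?_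
  rw [Set.Finite.mem_toFinset] at h𝔭
  obtain ⟨h1, h2, -⟩ := Ov_data hp h𝔭
  simp [h2]

lemma lp_deg (i : ℕ) (ψ : Ideal (𝓞 K) →*₀ ℂ) {p : ℕ} (hp : p.Prime) :
    (lp i ψ p).natDegree ≤ Module.finrank ℚ K := by
  classical
  rw [lp_eq i ψ hp]
  refine (Polynomial.natDegree_prod_le _ _).trans ?_
  have : Fact p.Prime := ⟨hp⟩
  have hmax : (span {(p : ℤ)}).IsMaximal := Int.ideal_span_isMaximal_of_prime p
  have hp0 : (span {(p : ℤ)}) ≠ ⊥ := by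
    rw [Ne, span_singleton_eq_bot]
    exact_mod_cast hp.ne_zero
  have hfin : ((span {(p : ℤ)}).primesOver (𝓞 K)).Finite := IsDedekindDomain.primesOver_finite _ _
  have hft : Fintype ((span {(p : ℤ)}).primesOver (𝓞 K)) := hfin.fintype
  have hsum := sum_ramification_inertia_eq_finrank (span {(p : ℤ)}) (𝓞 K)
  rw [RingOfIntegers.rank] at hsum
  rw [← hsum]
  have e4 : ∑ q : (span {(p : ℤ)}).primesOver (𝓞 K), q.1.ramificationIdx ℤ * q.1.inertiaDeg ℤ =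
      ∑ P ∈ ((span {(p : ℤ)}).primesOver (𝓞 K)).toFinset, P.ramificationIdx ℤ * P.inertiaDeg ℤ :=
    Finset.sum_set_coe _ (f := fun P : Ideal (𝓞 K) => P.ramificationIdx ℤ * P.inertiaDeg ℤ)
  rw [e4]
  have hsub : (Ov_finite (K := K) hp).toFinset ⊆ ((span {(p : ℤ)}).primesOver (𝓞 K)).toFinset := by
    intro 𝔭 h𝔭
    rw [Set.Finite.mem_toFinset] at h𝔭
    rw [Set.mem_toFinset]
    exact (Ov_data hp h𝔭).2.2
  refine (Finset.sum_le_sum fun P hP => ?_).trans (Finset.sum_le_sum_of_subset hsub)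
  rw [Set.Finite.mem_toFinset] at hP
  obtain ⟨h1, h2, h3⟩ := Ov_data hp hP
  have h5 : P.IsPrime := h3.1
  have h8 : P.LiesOver (span {(p : ℤ)}) := h3.2
  have h9 : NeZero P := ⟨(Pool.Agent.Y773.prime_of_Ov hp hP).ne_zero⟩
  have h6 : 1 ≤ P.ramificationIdx ℤ := ramificationIdx_pos P ℤ
  refine ((Polynomial.natDegree_sub_le _ _).trans ?_).trans (Nat.le_mul_of_pos_left _ h6)
  rw [Polynomial.natDegree_one]
  exact max_le (by omega) (Polynomial.natDegree_C_mul_X_pow_le _ _)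

lemma lp_roots (i : ℕ) {ψ : Ideal (𝓞 K) →*₀ ℂ} (hψ : ∀ 𝔞, ‖ψ 𝔞‖ ≤ 1) {p : ℕ} (hp : p.Prime) {z : ℂ}
    (hz : (lp i ψ p).eval z = 0) : (p : ℝ) ^ (-((i : ℝ) / 2)) ≤ ‖z‖ := by
  rw [lp_eq i ψ hp, Polynomial.eval_prod, Finset.prod_eq_zero_iff] at hz
  obtain ⟨𝔭, h𝔭, hz⟩ := hz
  rw [Set.Finite.mem_toFinset] at h𝔭
  obtain ⟨h1, h2, -⟩ := Ov_data hp h𝔭
  have hN : 0 < absNorm 𝔭 := by rw [h1]; exact pow_pos hp.pos _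
  have hp0 : (0 : ℝ) < p := by exact_mod_cast hp.pos
  simp only [Polynomial.eval_sub, Polynomial.eval_one, Polynomial.eval_mul, Polynomial.eval_C,
    Polynomial.eval_pow, Polynomial.eval_X] at hz
  have h3 : ‖ψ 𝔭‖ * ((absNorm 𝔭 : ℕ) : ℝ) ^ ((i : ℝ) / 2) * ‖z‖ ^ (𝔭.inertiaDeg ℤ) = 1 := by
    rw [← norm_half i hN, ← norm_pow, ← norm_mul, ← norm_mul, ← sub_eq_zero.1 hz, norm_one]
  by_contra hlt
  push Not at hlt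
  have h4 : ‖z‖ ^ (𝔭.inertiaDeg ℤ) < ((p : ℝ) ^ (-((i : ℝ) / 2))) ^ (𝔭.inertiaDeg ℤ) :=
    pow_lt_pow_left₀ hlt (norm_nonneg _) h2
  have h5 : ((absNorm 𝔭 : ℕ) : ℝ) ^ ((i : ℝ) / 2) * ((p : ℝ) ^ (-((i : ℝ) / 2))) ^ (𝔭.inertiaDeg ℤ) = 1 := by
    rw [h1, Nat.cast_pow, ← Real.rpow_natCast, ← Real.rpow_natCast, ← Real.rpow_mul hp0.le, ← Real.rpow_mul hp0.le,
      ← Real.rpow_add hp0]
    have : ((𝔭.inertiaDeg ℤ : ℕ) : ℝ) * ((i : ℝ) / 2) + -((i : ℝ) / 2) * ((𝔭.inertiaDeg ℤ : ℕ) : ℝ) = 0 := by ring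
    rw [this, Real.rpow_zero]
  have h6 : 0 < ((absNorm 𝔭 : ℕ) : ℝ) ^ ((i : ℝ) / 2) := by
    have : (0 : ℝ) < ((absNorm 𝔭 : ℕ) : ℝ) := by exact_mod_cast hN
    positivity
  have h7 : ‖ψ 𝔭‖ * ((absNorm 𝔭 : ℕ) : ℝ) ^ ((i : ℝ) / 2) * ‖z‖ ^ (𝔭.inertiaDeg ℤ) ≤
      ((absNorm 𝔭 : ℕ) : ℝ) ^ ((i : ℝ) / 2) * ‖z‖ ^ (𝔭.inertiaDeg ℤ) := by
    rw [mul_assoc]
    exact mul_le_of_le_one_left (by positivity) (hψ 𝔭)
  have h8 : ((absNorm 𝔭 : ℕ) : ℝ) ^ ((i : ℝ) / 2) * ‖z‖ ^ (𝔭.inertiaDeg ℤ) < 1 := by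
    rw [← h5]
    exact mul_lt_mul_of_pos_left h4 h6
  linarith

/-- an L-function of a Hecke character in the class -/
theorem hecke_atom (i : ℕ) {ψ : Ideal (𝓞 K) →*₀ ℂ} (hψ : ∀ 𝔞, ‖ψ 𝔞‖ ≤ 1) {A Q : ℝ} {F : ℂ → ℂ}
    (hF : Differentiable ℂ F) (hFL : ∀ s : ℂ, 1 < s.re → F s = LI ψ s)
    (hg : ∀ s : ℂ, (1 / 16 : ℝ) ≤ s.re → s.re ≤ 4 → 1 ≤ s.im → ‖F s‖ ≤ A * (Q * s.im) ^ A) :
    IsHW i (Module.finrank ℚ K) (lp i ψ) A Q (fun s => F (s - (i : ℂ) / 2)) where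
  const p hp := lp_zero i ψ hp
  degree p hp := lp_deg i ψ hp
  roots p hp z hz := lp_roots i hψ hp hz
  euler s hs := by
    have h1 : 1 < (s - (i : ℂ) / 2).re := by rw [re_sh']; linarith
    have h2 := Pool.Agent.Y773.hasProd_LI hψ h1
    rw [← hFL _ h1] at h2
    refine h2.congr_fun fun p => ?_
    rw [lp_eval i ψ p.2]
  analytic s _ := AnalyticAt.comp (g := F) (f := fun s => s - (i : ℂ) / 2) (hF.analyticAt _) (by fun_prop)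
  growth s h1 h2 h3 := by
    have := hg (s - (i : ℂ) / 2) (by rw [re_sh']; linarith) (by rw [re_sh']; linarith) (by rw [im_sh']; exact h3)
    rwa [im_sh'] at this

end Pool.Agent.Zk3.GL
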