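import Pool.Agent.Zk3.GL.HW
import Pool.Agent.Zk1.BIL.Def

set_option autoImplicit false

/-!
# The class `LC` of helper1
-/

namespace Pool.Agent.Zk3.GL

open Complex Filter Topology Set
open ArithmeticFunction (vonMangoldt)

/-- both classes, with the same coefficients -/
theorem IsHW.toLC {i D : ℕ} {P : ℕ → Polynomial ℂ} {A Q : ℝ} {L : ℂ → ℂ} (h : IsHW i D P A Q L) (hA : 1 ≤ A)
    (hQ : 1 ≤ Q) : ∃ a : ℕ → ℂ,
      Pool.Agent.Zk1.BIL.LC D (max A (Real.exp (2 * D))) Q (fun w => L (w + (i : ℂ) / 2)) a := by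
  obtain ⟨a, ha, hexp⟩ := IsHW.exp_form h.const h.degree h.roots h.euler
  have hD : (0 : ℝ) ≤ D := Nat.cast_nonneg D
  refine ⟨a, ?_, ?_, ?_, ?_, ha, ?_, ?_⟩
  · intro s hs
    have h1 : AnalyticAt ℂ L (s + (i : ℂ) / 2) := h.analytic _ (by rw [im_sh]; exact hs)
    exact AnalyticAt.comp (g := L) (f := fun w => w + (i : ℂ) / 2) h1 (by fun_prop)
  · intro s h1 h2 h3
    have h4 := h.growth (s + (i : ℂ) / 2) (by rw [re_sh]; linarith) (by rw [re_sh]; linarith)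
      (by rw [im_sh]; exact h3)
    rw [im_sh] at h4
    refine h4.trans ?_
    have h5 : 1 ≤ Q * s.im := by nlinarith
    exact mul_le_mul (le_max_left _ _) (Real.rpow_le_rpow_of_exponent_le h5 (le_max_left _ _))
      (by positivity) (by positivity)
  · intro t _
    have h1 : (1 : ℝ) < ((⟨2, t⟩ : ℂ)).re := by norm_num
    rw [hexp _ h1, Complex.norm_exp]
    have h2 : ‖Tx a (⟨2, t⟩ : ℂ)‖ ≤ 2 * D := (Tx_le hD ha (by norm_num)).1
    have h3 := Complex.abs_re_le_norm (Tx a (⟨2, t⟩ : ℂ))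
    have h4 := neg_abs_le (Tx a (⟨2, t⟩ : ℂ)).re
    calc (max A (Real.exp (2 * D)))⁻¹ ≤ (Real.exp (2 * D))⁻¹ :=
          inv_anti₀ (Real.exp_pos _) (le_max_right _ _)
      _ = Real.exp (-(2 * D)) := (Real.exp_neg _).symm
      _ ≤ _ := Real.exp_le_exp.mpr (by linarith)
  · intro t _
    have h1 : (1 : ℝ) < ((⟨2, t⟩ : ℂ)).re := by norm_num
    rw [hexp _ h1, Complex.norm_exp]
    have h2 : ‖Tx a (⟨2, t⟩ : ℂ)‖ ≤ 2 * D := (Tx_le hD ha (by norm_num)).1
    have h3 := Complex.abs_re_le_norm (Tx a (⟨2, t⟩ : ℂ))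
    have h4 := le_abs_self (Tx a (⟨2, t⟩ : ℂ)).re
    calc Real.exp (Tx a (⟨2, t⟩ : ℂ)).re ≤ Real.exp (2 * D) := Real.exp_le_exp.mpr (by linarith)
      _ ≤ _ := le_max_right _ _
  · intro s hs _
    rw [hexp _ hs]
    exact Complex.exp_ne_zero _
  · intro s hs _
    have h1 : (fun w => L (w + (i : ℂ) / 2)) =ᶠ[𝓝 s] fun w => Complex.exp (Tx a w) := by
      have h6 : {z : ℂ | 1 < z.re} ∈ 𝓝 s :=
        (isOpen_lt continuous_const Complex.continuous_re).mem_nhds hs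
      filter_upwards [h6] with z hz
      exact hexp z hz
    rw [h1.deriv_eq, (Tx_deriv hD ha hs).cexp.deriv, hexp _ hs]
    field_simp

end Pool.Agent.Zk3.GL
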