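import Pool.Agent.Zk3.GL.HWm
import Pool.Agent.Y24.D2

set_option autoImplicit false

/-!
# The Riemann zeta function as a Hasse-Weil L-function
-/

namespace Pool.Agent.Zk3.GL

open Complex Filter Topology Set

lemma re_sh' (i : ℕ) (s : ℂ) : (s - (i : ℂ) / 2 : ℂ).re = s.re - (i : ℝ) / 2 := by
  have := re_sh i (s - (i : ℂ) / 2)
  rw [sub_add_cancel] at this
  linarith

lemma im_sh' (i : ℕ) (s : ℂ) : (s - (i : ℂ) / 2 : ℂ).im = s.im := by
  have := im_sh i (s - (i : ℂ) / 2)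
  rw [sub_add_cancel] at this
  exact this.symm

lemma norm_half (i : ℕ) {N : ℕ} (hN : 0 < N) : ‖(N : ℂ) ^ ((i : ℂ) / 2)‖ = (N : ℝ) ^ ((i : ℝ) / 2) := by
  rw [Complex.norm_natCast_cpow_of_pos hN]
  congr 1
  have : ((i : ℂ) / 2) = (((i : ℝ) / 2 : ℝ) : ℂ) := by push_cast; rfl
  rw [this, Complex.ofReal_re]

theorem zeta_atom : ∃ A : ℝ, 1 ≤ A ∧ ∀ i : ℕ,
    IsHW i 1 (fun p => 1 - Polynomial.C ((p : ℂ) ^ ((i : ℂ) / 2)) * Polynomial.X) A 1
      (fun s => riemannZeta (s - (i : ℂ) / 2)) := by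
  obtain ⟨C, B, hC, hZ⟩ := Pool.Agent.Y24.Z1_growth 4
  have hC0 : 0 < C * 2 ^ B := by positivity
  obtain ⟨A, hA⟩ : ∃ A : ℝ, A = max 1 (max (C * 2 ^ B) B) := ⟨_, rfl⟩
  have hA1 : 1 ≤ A := by rw [hA]; exact le_max_left _ _
  have hA2 : C * 2 ^ B ≤ A := by rw [hA]; exact (le_max_left _ _).trans (le_max_right _ _)
  have hA3 : (B : ℝ) ≤ A := by rw [hA]; exact (le_max_right _ _).trans (le_max_right _ _)
  refine ⟨A, hA1, fun i => ⟨?_, ?_, ?_, ?_, ?_, ?_⟩⟩
  · intro p hp
    simp [Polynomial.coeff_one]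
  · intro p hp
    refine (Polynomial.natDegree_sub_le _ _).trans ?_
    rw [Polynomial.natDegree_one]
    refine max_le (by norm_num) ?_
    exact (Polynomial.natDegree_C_mul_le _ _).trans Polynomial.natDegree_X_le
  · intro p hp z hz
    have hp0 : (0 : ℝ) < p := by exact_mod_cast hp.pos
    simp only [Polynomial.eval_sub, Polynomial.eval_one, Polynomial.eval_mul, Polynomial.eval_C,
      Polynomial.eval_X] at hz
    have h1 : (p : ℂ) ^ ((i : ℂ) / 2) * z = 1 := (sub_eq_zero.1 hz).symm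
    have h2 : (p : ℝ) ^ ((i : ℝ) / 2) * ‖z‖ = 1 := by
      rw [← norm_half i hp.pos, ← norm_mul, h1, norm_one]
    have h3 : 0 < (p : ℝ) ^ ((i : ℝ) / 2) := by positivity
    rw [Real.rpow_neg hp0.le]
    exact (eq_inv_of_mul_eq_one_right h2).ge
  · intro s hs
    have h1 := riemannZeta_eulerProduct_hasProd (s := s - (i : ℂ) / 2) (by rw [re_sh']; linarith)
    refine h1.congr_fun fun p => ?_
    have hp0 : ((p : ℕ) : ℂ) ≠ 0 := by exact_mod_cast p.2.ne_zero
    simp only [Polynomial.eval_sub, Polynomial.eval_one, Polynomial.eval_mul, Polynomial.eval_C,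
      Polynomial.eval_X]
    rw [← Complex.cpow_add _ _ hp0]
    congr 3
    ring
  · intro s hs
    have h1 : s - (i : ℂ) / 2 ≠ 1 := by
      intro h
      have := im_sh' i s
      rw [h, Complex.one_im] at this
      linarith
    have h2 : AnalyticAt ℂ riemannZeta (s - (i : ℂ) / 2) := by
      have hd : DifferentiableOn ℂ riemannZeta {z : ℂ | z ≠ 1} := fun z hz =>
        (differentiableAt_riemannZeta hz).differentiableWithinAt
      exact hd.analyticAt (isOpen_ne.mem_nhds h1)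
    exact AnalyticAt.comp (g := riemannZeta) (f := fun s => s - (i : ℂ) / 2) h2 (by fun_prop)
  · intro s h1 h2 h3
    obtain ⟨w, hw⟩ : ∃ w : ℂ, w = s - (i : ℂ) / 2 := ⟨_, rfl⟩
    have hre : w.re = s.re - (i : ℝ) / 2 := by rw [hw, re_sh']
    have him : w.im = s.im := by rw [hw, im_sh']
    rw [← hw, ← him]
    rw [← him] at h3
    have hw1 : w ≠ 1 := by
      intro h
      rw [h, Complex.one_im] at h3
      linarith
    have h4 := hZ w (by linarith) (by linarith)
    rw [Pool.Agent.Y24.Z1_ne hw1, norm_mul] at h4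
    have h5 : 1 ≤ ‖w - 1‖ := by
      have := Complex.abs_im_le_norm (w - 1)
      rw [Complex.sub_im, Complex.one_im, sub_zero, abs_of_nonneg (by linarith)] at this
      linarith
    have h6 : ‖riemannZeta w‖ ≤ ‖w - 1‖ * ‖riemannZeta w‖ := le_mul_of_one_le_left (norm_nonneg _) h5
    rw [abs_of_nonneg (by linarith)] at h4
    have h7 : (1 + w.im) ^ B ≤ (2 * w.im) ^ B := pow_le_pow_left₀ (by linarith) (by linarith) B
    have h8 : w.im ^ B ≤ (1 * w.im) ^ A := by
      rw [one_mul, ← Real.rpow_natCast]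
      exact Real.rpow_le_rpow_of_exponent_le h3 hA3
    calc ‖riemannZeta w‖ ≤ C * (1 + w.im) ^ B := h6.trans h4
      _ ≤ C * (2 * w.im) ^ B := mul_le_mul_of_nonneg_left h7 hC.le
      _ = C * 2 ^ B * w.im ^ B := by rw [mul_pow]; ring
      _ ≤ A * (1 * w.im) ^ A := mul_le_mul hA2 h8 (by positivity) (by linarith)

end Pool.Agent.Zk3.GL
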