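import Pool.Agent.Zk3.GL.Cls

set_option autoImplicit false

/-!
# The Dirichlet series of the logarithm
-/

namespace Pool.Agent.Zk3.GL

open Complex Filter Topology Set Metric
open ArithmeticFunction (vonMangoldt)

/-- the coefficients of the logarithm -/
noncomputable def gl (a : ℕ → ℂ) (n : ℕ) : ℂ := a n / (Real.log n : ℂ)

/-- the sum up to `X` -/
noncomputable def Sx (a : ℕ → ℂ) (X : ℝ) (s : ℂ) : ℂ := ∑ n ∈ Finset.Ioc 0 ⌊X⌋₊, a n * (n : ℂ) ^ (-s)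

/-- the logarithm, up to `X` -/
noncomputable def Px (a : ℕ → ℂ) (X : ℝ) (s : ℂ) : ℂ := ∑ n ∈ Finset.Ioc 0 ⌊X⌋₊, gl a n * (n : ℂ) ^ (-s)

/-- the logarithm -/
noncomputable def Tx (a : ℕ → ℂ) (s : ℂ) : ℂ := ∑' n : ℕ, gl a n * (n : ℂ) ^ (-s)

variable {D A Q : ℝ} {F : ℂ → ℂ} {a : ℕ → ℂ}

lemma gl_le (hD : 0 ≤ D) (h : ∀ n : ℕ, ‖a n‖ ≤ D * vonMangoldt n) (n : ℕ) : ‖gl a n‖ ≤ D := by
  unfold gl
  rw [norm_div, Complex.norm_real, Real.norm_eq_abs]
  have h1 := h n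
  have h2 : vonMangoldt n ≤ Real.log n := ArithmeticFunction.vonMangoldt_le_log
  have h0 : 0 ≤ Real.log n := ArithmeticFunction.vonMangoldt_nonneg.trans h2
  rw [abs_of_nonneg h0]
  rcases h0.lt_or_eq with h3 | h3
  · rw [div_le_iff₀ h3]
    exact h1.trans (mul_le_mul_of_nonneg_left h2 hD)
  · rw [← h3, div_zero]
    exact hD

lemma a_small (h : ∀ n : ℕ, ‖a n‖ ≤ D * vonMangoldt n) {n : ℕ} (hn : n ≤ 1) : a n = 0 := by
  have h1 := h n
  have h2 : vonMangoldt n = 0 := by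
    interval_cases n
    · exact ArithmeticFunction.map_zero
    · exact ArithmeticFunction.vonMangoldt_apply_one
  rw [h2, mul_zero] at h1
  exact norm_le_zero_iff.mp h1

lemma gl_log (h : ∀ n : ℕ, ‖a n‖ ≤ D * vonMangoldt n) (n : ℕ) : gl a n * (Real.log n : ℂ) = a n := by
  unfold gl
  rcases le_or_gt n 1 with hn | hn
  · rw [a_small h hn]; simp
  · have : Real.log n ≠ 0 := (Real.log_pos (by exact_mod_cast hn)).ne'
    rw [div_mul_cancel₀]
    exact_mod_cast this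

lemma Px_deriv (h : ∀ n : ℕ, ‖a n‖ ≤ D * vonMangoldt n) (X : ℝ) (s : ℂ) :
    HasDerivAt (Px a X) (-(Sx a X s)) s := by
  unfold Px Sx
  rw [← Finset.sum_neg_distrib]
  refine HasDerivAt.fun_sum fun n hn => ?_
  have hn0 : n ≠ 0 := by have := (Finset.mem_Ioc.mp hn).1; omega
  have h1 : HasDerivAt (fun s : ℂ => (n : ℂ) ^ (-s)) ((n : ℂ) ^ (-s) * Complex.log n * (-1)) s :=
    (hasDerivAt_neg s).const_cpow (Or.inl (by exact_mod_cast hn0))
  have h2 := h1.const_mul (gl a n)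
  refine h2.congr_deriv ?_
  rw [← gl_log h n, Complex.natCast_log]
  ring

lemma cpow_norm {n : ℕ} (hn : 0 < n) (s : ℂ) : ‖(n : ℂ) ^ (-s)‖ = (n : ℝ) ^ (-s.re) := by
  rw [Complex.norm_natCast_cpow_of_pos hn, Complex.neg_re]

/-- the tail of a Dirichlet series -/
lemma tail_le {b : ℕ → ℂ} {E X : ℝ} {s : ℂ} (hE : 0 ≤ E) (hX : 1 ≤ X) (hb : ∀ n : ℕ, ‖b n‖ ≤ E * n)
    (hs : 3 ≤ s.re) : Summable (fun n : ℕ => b n * (n : ℂ) ^ (-s)) ∧
    ‖(∑' n : ℕ, b n * (n : ℂ) ^ (-s)) - ∑ n ∈ Finset.Ioc 0 ⌊X⌋₊, b n * (n : ℂ) ^ (-s)‖ ≤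
      2 * E * X ^ (3 - s.re) := by
  have hterm : ∀ n : ℕ, ‖b n * (n : ℂ) ^ (-s)‖ ≤ E * (1 / (n : ℝ) ^ 2) * (n : ℝ) ^ (3 - s.re) := by
    intro n
    rcases Nat.eq_zero_or_pos n with rfl | hn
    · have h0 := hb 0
      rw [Nat.cast_zero, mul_zero] at h0
      rw [norm_le_zero_iff.mp h0, zero_mul, norm_zero]
      positivity
    · have hn0 : (0 : ℝ) < n := by exact_mod_cast hn
      rw [norm_mul, cpow_norm hn]
      calc ‖b n‖ * (n : ℝ) ^ (-s.re) ≤ (E * n) * (n : ℝ) ^ (-s.re) :=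
            mul_le_mul_of_nonneg_right (hb n) (by positivity)
        _ = E * (1 / (n : ℝ) ^ 2) * ((n : ℝ) ^ (3 : ℝ) * (n : ℝ) ^ (-s.re)) := by
            rw [show ((n : ℝ)) ^ (3 : ℝ) = n ^ 3 by norm_cast]
            field_simp
        _ = _ := by rw [← Real.rpow_add hn0, ← sub_eq_add_neg]
  have hz : Summable (fun n : ℕ => 1 / (n : ℝ) ^ 2) := hasSum_zeta_two.summable
  have hle1 : ∀ n : ℕ, ‖b n * (n : ℂ) ^ (-s)‖ ≤ E * (1 / (n : ℝ) ^ 2) := by
    intro n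
    refine (hterm n).trans ?_
    rcases Nat.eq_zero_or_pos n with rfl | hn
    · simp
    · refine mul_le_of_le_one_right (by positivity) ?_
      exact Real.rpow_le_one_of_one_le_of_nonpos (by exact_mod_cast hn) (by linarith)
  have hsum : Summable (fun n : ℕ => b n * (n : ℂ) ^ (-s)) :=
    Summable.of_norm_bounded (hz.mul_left E) hle1
  refine ⟨hsum, ?_⟩
  have h1 := hsum.sum_add_tsum_compl (s := Finset.Ioc 0 ⌊X⌋₊)
  have h2 : (∑' n : ℕ, b n * (n : ℂ) ^ (-s)) - ∑ n ∈ Finset.Ioc 0 ⌊X⌋₊, b n * (n : ℂ) ^ (-s) =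
      ∑' n : ((↑(Finset.Ioc 0 ⌊X⌋₊) : Set ℕ)ᶜ : Set ℕ), b n * ((n : ℕ) : ℂ) ^ (-s) := by
    rw [← h1]; ring
  rw [h2]
  have hXp : 0 < X := by linarith
  have h3 : ∀ n : ((↑(Finset.Ioc 0 ⌊X⌋₊) : Set ℕ)ᶜ : Set ℕ),
      ‖b n * ((n : ℕ) : ℂ) ^ (-s)‖ ≤ E * X ^ (3 - s.re) * (1 / ((n : ℕ) : ℝ) ^ 2) := by
    rintro ⟨n, hn⟩
    simp only
    rcases Nat.eq_zero_or_pos n with rfl | hn0
    · have h0 := hb 0
      rw [Nat.cast_zero, mul_zero] at h0
      rw [norm_le_zero_iff.mp h0, zero_mul, norm_zero]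
      positivity
    · have hn1 : X ≤ n := by
        rw [Set.mem_compl_iff, Finset.mem_coe, Finset.mem_Ioc, not_and, not_le] at hn
        exact (Nat.lt_of_floor_lt (hn hn0)).le
      refine (hterm n).trans ?_
      have h4 : (n : ℝ) ^ (3 - s.re) ≤ X ^ (3 - s.re) :=
        Real.rpow_le_rpow_of_nonpos hXp hn1 (by linarith)
      calc E * (1 / (n : ℝ) ^ 2) * (n : ℝ) ^ (3 - s.re) ≤ E * (1 / (n : ℝ) ^ 2) * X ^ (3 - s.re) :=
            mul_le_mul_of_nonneg_left h4 (by positivity)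
        _ = _ := by ring
  have hz' : Summable (fun n : ((↑(Finset.Ioc 0 ⌊X⌋₊) : Set ℕ)ᶜ : Set ℕ) =>
      E * X ^ (3 - s.re) * (1 / ((n : ℕ) : ℝ) ^ 2)) := (hz.subtype _).mul_left _
  refine (tsum_of_norm_bounded hz'.hasSum h3).trans ?_
  rw [tsum_mul_left]
  have h5 : ∑' n : ((↑(Finset.Ioc 0 ⌊X⌋₊) : Set ℕ)ᶜ : Set ℕ), 1 / ((n : ℕ) : ℝ) ^ 2 ≤ 2 := by
    have h6 := Summable.tsum_subtype_le (fun n : ℕ => 1 / (n : ℝ) ^ 2) ((↑(Finset.Ioc 0 ⌊X⌋₊) : Set ℕ)ᶜ : Set ℕ)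
      (fun n => by positivity) hz
    have h7 := hasSum_zeta_two.tsum_eq
    have h8 := Real.pi_lt_d2
    have h9 := Real.pi_pos
    have h10 : Real.pi ^ 2 / 6 ≤ 2 := by nlinarith
    rw [h7] at h6
    exact h6.trans h10
  calc E * X ^ (3 - s.re) * _ ≤ E * X ^ (3 - s.re) * 2 := mul_le_mul_of_nonneg_left h5 (by positivity)
    _ = _ := by ring

lemma vm_le (n : ℕ) : vonMangoldt n ≤ (n : ℝ) := by
  rcases Nat.eq_zero_or_pos n with rfl | hn
  · simp
  · have h2 : vonMangoldt n ≤ Real.log n := ArithmeticFunction.vonMangoldt_le_log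
    have := Real.log_le_self (show (0 : ℝ) ≤ n by positivity)
    linarith

lemma a_le (hD : 0 ≤ D) (h : ∀ n : ℕ, ‖a n‖ ≤ D * vonMangoldt n) (n : ℕ) : ‖a n‖ ≤ D * n :=
  (h n).trans (mul_le_mul_of_nonneg_left (vm_le n) hD)

lemma gl_le' (hD : 0 ≤ D) (h : ∀ n : ℕ, ‖a n‖ ≤ D * vonMangoldt n) (n : ℕ) : ‖gl a n‖ ≤ D * n := by
  rcases Nat.eq_zero_or_pos n with rfl | hn
  · unfold gl
    rw [a_small h (by norm_num)]
    simp
  · have h1 : (1 : ℝ) ≤ n := by exact_mod_cast hn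
    exact (gl_le hD h n).trans (le_mul_of_one_le_right hD h1)

lemma Tx_le (hD : 0 ≤ D) (h : ∀ n : ℕ, ‖a n‖ ≤ D * vonMangoldt n) {s : ℂ} (hs : 2 ≤ s.re) :
    ‖Tx a s‖ ≤ 2 * D ∧ ∀ X : ℝ, ‖Px a X s‖ ≤ 2 * D := by
  have hterm : ∀ n : ℕ, ‖gl a n * (n : ℂ) ^ (-s)‖ ≤ D * (1 / (n : ℝ) ^ 2) := by
    intro n
    rcases Nat.eq_zero_or_pos n with rfl | hn
    · have h0 := gl_le' hD h 0
      rw [Nat.cast_zero, mul_zero] at h0
      rw [norm_le_zero_iff.mp h0]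
      simp
    · have hn0 : (0 : ℝ) < n := by exact_mod_cast hn
      rw [norm_mul, cpow_norm hn]
      have h1 : (n : ℝ) ^ (-s.re) ≤ 1 / (n : ℝ) ^ 2 := by
        have : (n : ℝ) ^ (-s.re) ≤ (n : ℝ) ^ (-2 : ℝ) :=
          Real.rpow_le_rpow_of_exponent_le (by exact_mod_cast hn) (by linarith)
        refine this.trans (le_of_eq ?_)
        rw [Real.rpow_neg hn0.le, one_div]
        norm_cast
      exact mul_le_mul (gl_le hD h n) h1 (by positivity) hD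
  have hz : Summable (fun n : ℕ => 1 / (n : ℝ) ^ 2) := hasSum_zeta_two.summable
  have h7 := hasSum_zeta_two.tsum_eq
  have h8 := Real.pi_lt_d2
  have h9 := Real.pi_pos
  have h10 : Real.pi ^ 2 / 6 ≤ 2 := by nlinarith
  constructor
  · unfold Tx
    refine (tsum_of_norm_bounded (hz.mul_left D).hasSum hterm).trans ?_
    rw [tsum_mul_left, h7]
    calc D * (Real.pi ^ 2 / 6) ≤ D * 2 := mul_le_mul_of_nonneg_left h10 hD
      _ = _ := by ring
  · intro X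
    unfold Px
    refine (norm_sum_le _ _).trans ((Finset.sum_le_sum fun n _ => hterm n).trans ?_)
    rw [← Finset.mul_sum]
    have h11 := hz.sum_le_tsum (Finset.Ioc 0 ⌊X⌋₊) (fun n _ => by positivity)
    rw [h7] at h11
    calc D * _ ≤ D * 2 := mul_le_mul_of_nonneg_left (h11.trans h10) hD
      _ = _ := by ring

lemma Tx_deriv (hD : 0 ≤ D) (h : ∀ n : ℕ, ‖a n‖ ≤ D * vonMangoldt n) {s : ℂ} (hs : 1 < s.re) :
    HasDerivAt (Tx a) (-(∑' n : ℕ, a n * (n : ℂ) ^ (-s))) s := by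
  have habs : LSeries.abscissaOfAbsConv (gl a) < s.re := by
    refine lt_of_le_of_lt (LSeries.abscissaOfAbsConv_le_of_le_const ⟨D, fun n _ => gl_le hD h n⟩) ?_
    exact_mod_cast hs
  have h1 := LSeries_hasDerivAt habs
  have e0 : gl a 0 = 0 := by
    unfold gl
    rw [a_small h (by norm_num)]
    simp
  have e1 : LSeries (gl a) = Tx a := by
    funext z
    unfold LSeries Tx
    refine tsum_congr fun n => ?_
    rcases Nat.eq_zero_or_pos n with rfl | hn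
    · rw [LSeries.term_zero, e0, zero_mul]
    · rw [LSeries.term_of_ne_zero hn.ne', Complex.cpow_neg, div_eq_mul_inv]
  have e2 : LSeries (LSeries.logMul (gl a)) s = ∑' n : ℕ, a n * (n : ℂ) ^ (-s) := by
    unfold LSeries
    refine tsum_congr fun n => ?_
    rcases Nat.eq_zero_or_pos n with rfl | hn
    · rw [LSeries.term_zero, a_small h (by norm_num), zero_mul]
    · rw [LSeries.term_of_ne_zero hn.ne', Complex.cpow_neg, div_eq_mul_inv, LSeries.logMul, ← gl_log h n,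
        Complex.natCast_log]
      ring
  rw [e1, e2] at h1
  exact h1

/-- The logarithm of `F`. -/
theorem log_rep (hF : IsL D A Q F a) (hD : 0 ≤ D) (hA : 1 ≤ A) : ∃ c : ℂ, A⁻¹ * Real.exp (-(2 * D)) ≤ ‖c‖ ∧
    ∀ s : ℂ, 1 < s.re → 1 < s.im → F s = c * Complex.exp (Tx a s) := by
  set U : Set ℂ := {s : ℂ | 1 < s.re ∧ 1 < s.im} with hU
  have hUo : IsOpen U := (isOpen_lt continuous_const continuous_re).inter (isOpen_lt continuous_const continuous_im)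
  have hUc : IsPreconnected U := by
    have h1 := (convex_Ioi (1 : ℝ)).linear_preimage Complex.reLm
    have h2 := (convex_Ioi (1 : ℝ)).linear_preimage Complex.imLm
    exact (h1.inter h2).isPreconnected
  have hd : ∀ s ∈ U, HasDerivAt (fun s => F s * Complex.exp (-(Tx a s))) 0 s := by
    intro s hs
    have h1 : HasDerivAt F (deriv F s) s := (hF.an s (by linarith [hs.2])).differentiableAt.hasDerivAt
    have h2 := (Tx_deriv hD hF.coef hs.1).neg.cexp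
    have h3 := h1.mul h2
    have h4 := hF.ld s hs.1 hs.2.le
    have h5 := hF.nz s hs.1 hs.2.le
    rw [div_eq_iff h5] at h4
    refine h3.congr_deriv ?_
    rw [h4]
    ring
  have h22 : (⟨2, 2⟩ : ℂ) ∈ U := by constructor <;> norm_num
  refine ⟨F ⟨2, 2⟩ * Complex.exp (-(Tx a ⟨2, 2⟩)), ?_, ?_⟩
  · rw [norm_mul, Complex.norm_exp]
    refine mul_le_mul (hF.lower 2 (by norm_num)) (Real.exp_le_exp.mpr ?_) (Real.exp_pos _).le (norm_nonneg _)
    have h1 := (Tx_le hD hF.coef (s := ⟨2, 2⟩) le_rfl).1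
    have h2 := Complex.abs_re_le_norm (Tx a ⟨2, 2⟩)
    rw [Complex.neg_re]
    have h3 := le_abs_self (Tx a ⟨2, 2⟩).re
    linarith
  · intro s hs1 hs2
    have h1 := hUo.is_const_of_deriv_eq_zero hUc (f := fun s => F s * Complex.exp (-(Tx a s)))
      (fun z hz => (hd z hz).differentiableAt.differentiableWithinAt) (fun z hz => (hd z hz).deriv)
      (x := s) (y := ⟨2, 2⟩) ⟨hs1, hs2⟩ h22
    rw [← h1, mul_assoc, ← Complex.exp_add, neg_add_cancel, Complex.exp_zero, mul_one]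

/-- far to the right -/
theorem far (hF : IsL D A Q F a) (hD : 0 ≤ D) {c : ℂ} (hc0 : c ≠ 0)
    (hc : ∀ s : ℂ, 1 < s.re → 1 < s.im → F s = c * Complex.exp (Tx a s)) {X : ℝ} (hX : 1 ≤ X) {s : ℂ}
    (hs : 3 ≤ s.re) (him : 1 < s.im) :
    ‖deriv F s / F s + Sx a X s‖ ≤ 2 * D * X ^ (3 - s.re) ∧
    (2 * D * X ^ (3 - s.re) ≤ 1 → ‖F s * Complex.exp (-(Px a X s)) / c - 1‖ ≤ 4 * D * X ^ (3 - s.re)) := by
  constructor
  · rw [hF.ld s (by linarith) him.le]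
    have h1 := (tail_le (b := a) hD hX (a_le hD hF.coef) hs).2
    unfold Sx
    rw [← norm_neg] at h1
    refine le_trans (le_of_eq ?_) h1
    congr 1
    ring
  · intro hsm
    rw [hc s (by linarith) him]
    have h1 := (tail_le (b := gl a) hD hX (gl_le' hD hF.coef) hs).2
    have e1 : c * Complex.exp (Tx a s) * Complex.exp (-(Px a X s)) / c = Complex.exp (Tx a s - Px a X s) := by
      rw [sub_eq_add_neg, Complex.exp_add]
      field_simp
    rw [e1]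
    have h2 : ‖Tx a s - Px a X s‖ ≤ 2 * D * X ^ (3 - s.re) := h1
    have h3 := Complex.norm_exp_sub_one_le (h2.trans hsm)
    linarith

end Pool.Agent.Zk3.GL
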