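import Pool.Agent.Zk3.GL.Grow
import Pool.Agent.Zk3.GL.PL

set_option autoImplicit false

/-!
# The spectral gap in a cone without zeros
-/

namespace Pool.Agent.Zk3.GL

open Complex Filter Topology Set Metric
open ArithmeticFunction (vonMangoldt)

variable {D A Q : ℝ} {F : ℂ → ℂ} {a : ℕ → ℂ}

theorem ld_far : ∃ C2 : ℝ, 0 < C2 ∧ ∀ (D : ℝ) (a : ℕ → ℂ), 0 ≤ D → (∀ n : ℕ, ‖a n‖ ≤ D * vonMangoldt n) →
    ∀ s : ℂ, 2 ≤ s.re → ‖∑' n : ℕ, a n * (n : ℂ) ^ (-s)‖ ≤ D * C2 := by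
  have hsum : Summable (fun n : ℕ => vonMangoldt n * (n : ℝ) ^ (-2 : ℝ)) := by
    have h1 := (ArithmeticFunction.LSeriesSummable_vonMangoldt (s := 2) (by norm_num)).norm
    refine h1.congr fun n => ?_
    rw [LSeries.norm_term_eq]
    rcases eq_or_ne n 0 with rfl | hn
    · simp
    · rw [if_neg hn, Complex.norm_real, Real.norm_of_nonneg ArithmeticFunction.vonMangoldt_nonneg,
        Real.rpow_neg (Nat.cast_nonneg n), div_eq_mul_inv]
      norm_num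
  refine ⟨(∑' n : ℕ, vonMangoldt n * (n : ℝ) ^ (-2 : ℝ)) + 1, ?_, ?_⟩
  · have : 0 ≤ ∑' n : ℕ, vonMangoldt n * (n : ℝ) ^ (-2 : ℝ) :=
      tsum_nonneg fun n => mul_nonneg ArithmeticFunction.vonMangoldt_nonneg
        (Real.rpow_nonneg (Nat.cast_nonneg n) (-2 : ℝ))
    linarith
  intro D a hD ha s hs
  have hb : ∀ n : ℕ, ‖a n * (n : ℂ) ^ (-s)‖ ≤ D * (vonMangoldt n * (n : ℝ) ^ (-2 : ℝ)) := by
    intro n
    rcases Nat.eq_zero_or_pos n with rfl | hn
    · rw [a_small ha (by norm_num)]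
      simp
    · rw [norm_mul, cpow_norm hn, ← mul_assoc]
      refine mul_le_mul (ha n) ?_ (by positivity)
        (mul_nonneg hD ArithmeticFunction.vonMangoldt_nonneg)
      exact Real.rpow_le_rpow_of_exponent_le (by exact_mod_cast hn) (by linarith)
  refine (tsum_of_norm_bounded (hsum.mul_left D).hasSum hb).trans ?_
  rw [tsum_mul_left]
  exact mul_le_mul_of_nonneg_left (by linarith) hD

/-- the normalised quotient -/
noncomputable def Gq (F : ℂ → ℂ) (a : ℕ → ℂ) (X : ℝ) (c : ℂ) (s : ℂ) : ℂ := F s * Complex.exp (-(Px a X s)) / c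

lemma Gq_deriv (hF : IsL D A Q F a) {X : ℝ} {c s : ℂ} (him : 0 < s.im) (h0 : F s ≠ 0) :
    HasDerivAt (Gq F a X c) ((deriv F s / F s + Sx a X s) * Gq F a X c s) s := by
  have h1 : HasDerivAt F (deriv F s) s := (hF.an s him).differentiableAt.hasDerivAt
  have h2 := (Px_deriv hF.coef X s).neg.cexp
  have h3 := (h1.mul h2).div_const c
  refine h3.congr_deriv ?_
  unfold Gq
  have e : deriv F s = deriv F s / F s * F s := by field_simp
  rw [e]
  have e2 : deriv F s / F s * F s / F s = deriv F s / F s := by field_simp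
  rw [e2]
  simp only [Pi.neg_apply]
  ring

lemma Gq_ana (hF : IsL D A Q F a) {X : ℝ} {c s : ℂ} (him : 0 < s.im) : AnalyticAt ℂ (Gq F a X c) s := by
  have hU : IsOpen {s : ℂ | 0 < s.im} := isOpen_lt continuous_const continuous_im
  have hd : DifferentiableOn ℂ (Gq F a X c) {s : ℂ | 0 < s.im} := by
    intro z hz
    have h1 := (hF.an z hz).differentiableAt
    have h2 := (Px_deriv hF.coef X z).differentiableAt
    unfold Gq
    exact ((h1.mul h2.neg.cexp).div_const c).differentiableWithinAt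
  exact hd.analyticAt (hU.mem_nhds him)

lemma Sx_diff (a : ℕ → ℂ) (X : ℝ) : Differentiable ℂ (Sx a X) := by
  intro s
  unfold Sx
  refine DifferentiableAt.fun_sum fun n hn => ?_
  have hn0 : n ≠ 0 := by have := (Finset.mem_Ioc.mp hn).1; omega
  exact (DifferentiableAt.const_cpow (differentiableAt_id.neg) (Or.inl (by exact_mod_cast hn0))).const_mul _

/-- the data of the ray -/
structure Ry (F : ℂ → ℂ) (a : ℕ → ℂ) (Q η A1 x0 y0 d X s V : ℝ) : Prop where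
  zf : ∀ z : ℂ, x0 ≤ z.re → z.re ≤ 3 → |z.im| ≤ wd A1 η x0 z.re → ∀ w : ℂ, 1 / 2 ≤ w.re → F w = 0 →
    d ≤ ‖(1 / 2 + z + y0 * I) - w‖
  sb : ∀ z : ℂ, x0 ≤ z.re → z.re ≤ 3 → |z.im| ≤ wd A1 η x0 z.re → ‖Sx a X (1 / 2 + z + y0 * I)‖ ≤ s
  ht : ∀ z : ℂ, x0 ≤ z.re → z.re ≤ 3 → |z.im| ≤ wd A1 η x0 z.re → 3 ≤ z.im + y0 ∧ Real.log (Q * (z.im + y0)) ≤ V

lemma pt_re (z : ℂ) (y0 : ℝ) : (1 / 2 + z + y0 * I).re = 1 / 2 + z.re := by
  simp

lemma pt_im (z : ℂ) (y0 : ℝ) : (1 / 2 + z + y0 * I).im = z.im + y0 := by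
  simp

lemma pt_eq (z : ℂ) (y0 : ℝ) : (1 / 2 + z + y0 * I) = ⟨1 / 2 + z.re, z.im + y0⟩ := by
  apply Complex.ext
  · exact pt_re z y0
  · exact pt_im z y0

theorem ray (hF : IsL D A Q F a) (hD : 0 ≤ D) (hA : 1 ≤ A) (hQ : 1 ≤ Q) {C2 : ℝ} (hC2 : 0 < C2)
    (hC2' : ∀ s : ℂ, 2 ≤ s.re → ‖∑' n : ℕ, a n * (n : ℂ) ^ (-s)‖ ≤ D * C2)
    {η A1 x0 y0 d l S V : ℝ} (hη : 0 < η) (hη1 : η ≤ 1 / 2) (hA1 : 4 / η ^ 2 ≤ A1) (hx0 : 0 < x0)
    (hd : 0 < d) (hd1 : d ≤ 1) (hl : 0 ≤ l) (hS : 0 ≤ S) (hV : 1 ≤ V)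
    (R : Ry F a Q η A1 x0 y0 d (Real.exp (6 * l)) S V) {M : ℝ}
    (hM : M = 16000 * A * V / (x0 ^ 4 * d) + D * C2 + S + 2 * D) :
    ∀ x : ℝ, x0 ≤ x → x ≤ 3 → F (1 / 2 + (x : ℂ) + y0 * I) ≠ 0 ∧
      ‖deriv F (1 / 2 + (x : ℂ) + y0 * I) / F (1 / 2 + (x : ℂ) + y0 * I) +
        Sx a (Real.exp (6 * l)) (1 / 2 + (x : ℂ) + y0 * I)‖ ≤ M * Real.exp (-(l * (x / 2 - x0))) := by
  have hA0 : 0 < A := by linarith
  have hX1 : 1 ≤ Real.exp (6 * l) := Real.one_le_exp (by positivity)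
  have hM0 : 0 ≤ 16000 * A * V / (x0 ^ 4 * d) := by positivity
  have hDC : 0 ≤ D * C2 := by positivity
  have hMp : 0 ≤ M := by rw [hM]; positivity
  have key : ∀ z : ℂ, x0 ≤ z.re → z.re ≤ 3 → |z.im| ≤ wd A1 η x0 z.re →
      F (1 / 2 + z + y0 * I) ≠ 0 ∧
      ‖deriv F (1 / 2 + z + y0 * I) / F (1 / 2 + z + y0 * I) +
        Sx a (Real.exp (6 * l)) (1 / 2 + z + y0 * I)‖ ≤ M := by
    intro z h1 h2 h3
    obtain ⟨h4, h5⟩ := R.ht z h1 h2 h3
    have h6 := R.sb z h1 h2 h3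
    have hzp : 0 < z.re := by linarith
    rcases le_or_gt z.re (3 / 2) with h7 | h7
    · have h8 := ldb hF hA hQ h4 hzp h7 hd hd1 (fun w hw h0 => by
        rw [← pt_eq]
        exact R.zf z h1 h2 h3 w hw h0)
      rw [← pt_eq] at h8
      refine ⟨h8.1, (norm_add_le _ _).trans ?_⟩
      have h9 : 16000 * A * Real.log (Q * (z.im + y0)) / (z.re ^ 4 * d) ≤ 16000 * A * V / (x0 ^ 4 * d) := by
        refine div_le_div₀ (by positivity) (mul_le_mul_of_nonneg_left h5 (by positivity)) (by positivity) ?_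
        exact mul_le_mul_of_nonneg_right (pow_le_pow_left₀ hx0.le h1 4) hd.le
      rw [hM]
      linarith [h8.2]
    · have hre : 2 ≤ (1 / 2 + z + y0 * I).re := by rw [pt_re]; linarith
      have him : 1 ≤ (1 / 2 + z + y0 * I).im := by rw [pt_im]; linarith
      refine ⟨hF.nz _ (by linarith) him, (norm_add_le _ _).trans ?_⟩
      rw [hF.ld _ (by linarith) him, norm_neg, hM]
      linarith [hC2' _ hre]
  intro x hx hx3
  have hxmem : |((x : ℂ)).im| ≤ wd A1 η x0 ((x : ℂ)).re := by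
    rw [Complex.ofReal_im, abs_zero, Complex.ofReal_re]
    have hA1' : 0 < A1 := lt_of_lt_of_le (by positivity) hA1
    unfold wd
    have : 0 < x := by linarith
    positivity
  refine ⟨(key x (by simpa using hx) (by simpa using hx3) hxmem).1, ?_⟩
  have hpl := pl (η := η) (A := A1) (x0 := x0) (Λ := 3) (M := M) (l := l)
    (h := fun z => deriv F (1 / 2 + z + y0 * I) / F (1 / 2 + z + y0 * I) +
        Sx a (Real.exp (6 * l)) (1 / 2 + z + y0 * I)) hη hη1 hA1 hx0 hMp hl ?_ ?_ x hx hx3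
  · exact hpl
  · intro z h1 h2 h3
    obtain ⟨h4, h5⟩ := key z h1 h2 h3
    refine ⟨?_, h5⟩
    have him : 0 < (1 / 2 + z + y0 * I).im := by
      rw [pt_im]
      linarith [(R.ht z h1 h2 h3).1]
    have ha := hF.an _ him
    have haff : DifferentiableAt ℂ (fun z : ℂ => 1 / 2 + z + y0 * I) z := by fun_prop
    have hd1 : DifferentiableAt ℂ (fun z : ℂ => deriv F (1 / 2 + z + y0 * I)) z :=
      DifferentiableAt.comp (g := deriv F) z ha.deriv.differentiableAt haff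
    have hd2 : DifferentiableAt ℂ (fun z : ℂ => F (1 / 2 + z + y0 * I)) z :=
      DifferentiableAt.comp (g := F) z ha.differentiableAt haff
    have hd3 : DifferentiableAt ℂ (fun z : ℂ => Sx a (Real.exp (6 * l)) (1 / 2 + z + y0 * I)) z :=
      DifferentiableAt.comp (g := Sx a (Real.exp (6 * l))) z (Sx_diff a _ _) haff
    exact (hd1.div hd2 h4).add hd3
  · intro z h1 h2
    have hx03 : x0 ≤ 3 := hx.trans hx3
    have h3 := R.ht z (by rw [h1]; exact hx03) (by rw [h1]) (by rw [h1]; exact h2)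
    have hre : 3 ≤ (1 / 2 + z + y0 * I).re := by rw [pt_re, h1]; norm_num
    have him : 1 < (1 / 2 + z + y0 * I).im := by rw [pt_im]; linarith [h3.1]
    have h4 := (tail_le (b := a) hD hX1 (a_le hD hF.coef) hre).2
    have h5 : ‖deriv F (1 / 2 + z + y0 * I) / F (1 / 2 + z + y0 * I) +
        Sx a (Real.exp (6 * l)) (1 / 2 + z + y0 * I)‖ ≤ 2 * D * Real.exp (6 * l) ^ (3 - (1 / 2 + z + y0 * I).re) := by
      rw [hF.ld _ (by linarith) him.le]
      unfold Sx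
      rw [← norm_neg] at h4
      refine le_trans (le_of_eq ?_) h4
      congr 1
      ring
    refine h5.trans ?_
    rw [pt_re, h1, ← Real.exp_mul]
    have e1 : 6 * l * (3 - (1 / 2 + 3)) = -(l * 3) := by ring
    rw [e1]
    refine mul_le_mul_of_nonneg_right ?_ (Real.exp_pos _).le
    rw [hM]
    linarith

/-- the gap -/
theorem gap (hF : IsL D A Q F a) (hD : 0 ≤ D) (hA : 1 ≤ A) (hQ : 1 ≤ Q) {C2 : ℝ} (hC2 : 0 < C2)
    (hC2' : ∀ s : ℂ, 2 ≤ s.re → ‖∑' n : ℕ, a n * (n : ℂ) ^ (-s)‖ ≤ D * C2) {c : ℂ} (hc0 : c ≠ 0)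
    (hc : ∀ s : ℂ, 1 < s.re → 1 < s.im → F s = c * Complex.exp (Tx a s))
    {η A1 x0 y0 d l S V : ℝ} (hη : 0 < η) (hη1 : η ≤ 1 / 2) (hA1 : 4 / η ^ 2 ≤ A1) (hx0 : 0 < x0)
    (hx03 : x0 ≤ 3) (hd : 0 < d) (hd1 : d ≤ 1) (hl : 0 ≤ l) (hS : 0 ≤ S) (hV : 1 ≤ V)
    (R : Ry F a Q η A1 x0 y0 d (Real.exp (6 * l)) S V) {M : ℝ}
    (hM : M = 16000 * A * V / (x0 ^ 4 * d) + D * C2 + S + 2 * D) :
    ∀ x : ℝ, x0 ≤ x → M * Real.exp (-(l * (x / 2 - x0))) ≤ 1 / 6 → 2 * D * Real.exp (-(l * 3)) ≤ 1 / 2 →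
      ‖Gq F a (Real.exp (6 * l)) c (1 / 2 + (x : ℂ) + y0 * I) - 1‖ ≤ 16 * M * Real.exp (-(l * (x / 2 - x0))) := by
  have hray := ray hF hD hA hQ hC2 hC2' hη hη1 hA1 hx0 hd hd1 hl hS hV R hM
  have hA0 : 0 < A := by linarith
  have hX1 : 1 ≤ Real.exp (6 * l) := Real.one_le_exp (by positivity)
  have hDC : 0 ≤ D * C2 := by positivity
  have hM0 : 0 ≤ 16000 * A * V / (x0 ^ 4 * d) := by positivity
  have hMD : 2 * D ≤ M := by rw [hM]; linarith
  have hMp : 0 ≤ M := by linarith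
  have hA1' : 0 < A1 := lt_of_lt_of_le (by positivity) hA1
  have hy0 : 3 ≤ y0 := by
    have := (R.ht (3 : ℂ) (by simpa using hx03) (by simp) (by
      have : ((3 : ℂ)).im = 0 := by simp
      rw [this, abs_zero]
      have h3 : ((3 : ℂ)).re = 3 := by simp
      rw [h3]
      unfold wd
      positivity)).1
    have h0 : ((3 : ℂ)).im = 0 := by simp
    rw [h0, zero_add] at this
    exact this
  have hfar : ∀ x : ℝ, 3 ≤ x → 2 * D * Real.exp (-(l * 3)) ≤ 1 / 2 →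
      ‖Gq F a (Real.exp (6 * l)) c (1 / 2 + (x : ℂ) + y0 * I) - 1‖ ≤ 4 * D * Real.exp (-(6 * l * (x - 5 / 2))) := by
    intro x hx hsm
    have hre : (1 / 2 + (x : ℂ) + y0 * I).re = 1 / 2 + x := by rw [pt_re, Complex.ofReal_re]
    have him : (1 / 2 + (x : ℂ) + y0 * I).im = y0 := by rw [pt_im, Complex.ofReal_im, zero_add]
    have h1 := (far hF hD hc0 hc hX1 (s := 1 / 2 + (x : ℂ) + y0 * I) (by rw [hre]; linarith)
      (by rw [him]; linarith)).2
    rw [hre, ← Real.exp_mul] at h1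
    have e1 : 6 * l * (3 - (1 / 2 + x)) = -(6 * l * (x - 5 / 2)) := by ring
    rw [e1] at h1
    refine h1 ?_
    have h2 : Real.exp (-(6 * l * (x - 5 / 2))) ≤ Real.exp (-(l * 3)) := by
      refine Real.exp_le_exp.mpr (neg_le_neg ?_)
      have : l * (6 * (x - 5 / 2)) ≥ l * 3 := mul_le_mul_of_nonneg_left (by linarith) hl
      linarith
    have := mul_le_mul_of_nonneg_left h2 (show 0 ≤ 2 * D by linarith)
    linarith
  intro x hx hsm hsm2
  rcases le_or_gt 3 x with h3 | h3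
  · refine (hfar x h3 hsm2).trans ?_
    have h4 : Real.exp (-(6 * l * (x - 5 / 2))) ≤ Real.exp (-(l * (x / 2 - x0))) := by
      refine Real.exp_le_exp.mpr (neg_le_neg ?_)
      have : l * (x / 2 - x0) ≤ l * (6 * (x - 5 / 2)) := mul_le_mul_of_nonneg_left (by linarith) hl
      linarith
    exact mul_le_mul (by linarith) h4 (Real.exp_pos _).le (by linarith)
  · obtain ⟨e, he⟩ : ∃ e : ℝ, e = M * Real.exp (-(l * (x / 2 - x0))) := ⟨_, rfl⟩
    rw [← he] at hsm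
    have he0 : 0 ≤ e := by rw [he]; positivity
    set g : ℝ → ℂ := fun u => Gq F a (Real.exp (6 * l)) c (1 / 2 + (u : ℂ) + y0 * I) with hg
    have hgd : ∀ u ∈ Icc x 3, HasDerivAt g
        ((deriv F (1 / 2 + (u : ℂ) + y0 * I) / F (1 / 2 + (u : ℂ) + y0 * I) +
          Sx a (Real.exp (6 * l)) (1 / 2 + (u : ℂ) + y0 * I)) * g u) u := by
      intro u hu
      have h4 := hray u (hx.trans hu.1) hu.2
      have him : (1 / 2 + (u : ℂ) + y0 * I).im = y0 := by rw [pt_im, Complex.ofReal_im, zero_add]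
      have h5 := Gq_deriv hF (X := Real.exp (6 * l)) (c := c) (by rw [him]; linarith) h4.1
      have h6 : HasDerivAt (fun v : ℝ => (1 / 2 + (v : ℂ) + y0 * I)) 1 u := by
        have := ((Complex.ofRealCLM.hasDerivAt (x := u)).const_add (1 / 2 : ℂ)).add_const (y0 * I)
        simpa using this
      have h7 := HasDerivAt.comp_of_eq u h5 h6 rfl
      simpa [hg, Function.comp_def] using h7
    have hgc : ContinuousOn g (Icc x 3) := fun u hu => (hgd u hu).continuousAt.continuousWithinAt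
    have hne : (Icc x 3).Nonempty := ⟨x, ⟨le_rfl, h3.le⟩⟩
    obtain ⟨u0, hu0, hmax⟩ := isCompact_Icc.exists_isMaxOn hne hgc.norm
    have hmax' : ∀ u ∈ Icc x 3, ‖g u‖ ≤ ‖g u0‖ := fun u hu => hmax hu
    have hdb : ∀ u ∈ Icc x 3, ‖(deriv F (1 / 2 + (u : ℂ) + y0 * I) / F (1 / 2 + (u : ℂ) + y0 * I) +
          Sx a (Real.exp (6 * l)) (1 / 2 + (u : ℂ) + y0 * I)) * g u‖ ≤ e * ‖g u0‖ := by
      intro u hu
      rw [norm_mul]
      refine mul_le_mul ((hray u (hx.trans hu.1) hu.2).2.trans ?_) (hmax' u hu) (norm_nonneg _) he0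
      rw [he]
      refine mul_le_mul_of_nonneg_left (Real.exp_le_exp.mpr (neg_le_neg ?_)) hMp
      exact mul_le_mul_of_nonneg_left (by linarith [hu.1]) hl
    have hmv : ∀ u ∈ Icc x 3, ‖g u - g 3‖ ≤ e * ‖g u0‖ * (3 - u) := by
      intro u hu
      have h8 := (convex_Icc u 3).norm_image_sub_le_of_norm_hasDerivWithin_le (f := g) (C := e * ‖g u0‖)
        (x := 3) (y := u) (fun v hv => (hgd v ⟨hu.1.trans hv.1, hv.2⟩).hasDerivWithinAt)
        (fun v hv => hdb v ⟨hu.1.trans hv.1, hv.2⟩) ⟨hu.2, le_rfl⟩ ⟨le_rfl, hu.2⟩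
      refine h8.trans (le_of_eq ?_)
      rw [Real.norm_eq_abs, abs_of_nonpos (by linarith [hu.2])]
      ring
    have hg3 : ‖g 3 - 1‖ ≤ 4 * D * Real.exp (-(l * 3)) := by
      have h9 := hfar 3 le_rfl hsm2
      have e1 : 6 * l * ((3 : ℝ) - 5 / 2) = l * 3 := by ring
      rw [e1] at h9
      exact h9
    have hg3' : ‖g 3‖ ≤ 2 := by
      calc ‖g 3‖ = ‖(g 3 - 1) + 1‖ := by rw [sub_add_cancel]
        _ ≤ ‖g 3 - 1‖ + 1 := (norm_add_le _ _).trans (by rw [norm_one])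
        _ ≤ 2 := by linarith
    have hgu0 : ‖g u0‖ ≤ 4 := by
      have h10 := hmv u0 hu0
      have h11 : ‖g u0‖ ≤ ‖g u0 - g 3‖ + ‖g 3‖ := by
        calc ‖g u0‖ = ‖(g u0 - g 3) + g 3‖ := by rw [sub_add_cancel]
          _ ≤ _ := norm_add_le _ _
      have h12 : e * ‖g u0‖ * (3 - u0) ≤ 1 / 2 * ‖g u0‖ := by
        have h13 : e * (3 - u0) ≤ 1 / 6 * 3 := by
          refine mul_le_mul hsm ?_ (by linarith [hu0.2]) (by norm_num)
          linarith [hu0.1]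
        calc e * ‖g u0‖ * (3 - u0) = e * (3 - u0) * ‖g u0‖ := by ring
          _ ≤ (1 / 6 * 3) * ‖g u0‖ := mul_le_mul_of_nonneg_right h13 (norm_nonneg _)
          _ = _ := by ring
      linarith
    have h14 := hmv x ⟨le_rfl, h3.le⟩
    have h15 : e * ‖g u0‖ * (3 - x) ≤ 12 * e := by
      have h16 : e * ‖g u0‖ ≤ e * 4 := mul_le_mul_of_nonneg_left hgu0 he0
      have h17 : e * ‖g u0‖ * (3 - x) ≤ e * 4 * 3 := mul_le_mul h16 (by linarith) (by linarith) (by linarith)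
      linarith
    have h18 : 4 * D * Real.exp (-(l * 3)) ≤ 2 * e := by
      rw [he]
      have h19 : Real.exp (-(l * 3)) ≤ Real.exp (-(l * (x / 2 - x0))) := by
        refine Real.exp_le_exp.mpr (neg_le_neg ?_)
        exact mul_le_mul_of_nonneg_left (by linarith) hl
      have h20 : 2 * D * Real.exp (-(l * 3)) ≤ M * Real.exp (-(l * (x / 2 - x0))) :=
        mul_le_mul hMD h19 (Real.exp_pos _).le hMp
      linarith
    have h21 : ‖g x - 1‖ ≤ ‖g x - g 3‖ + ‖g 3 - 1‖ := by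
      calc ‖g x - 1‖ = ‖(g x - g 3) + (g 3 - 1)‖ := by congr 1; ring
        _ ≤ _ := norm_add_le _ _
    show ‖g x - 1‖ ≤ 16 * M * Real.exp (-(l * (x / 2 - x0)))
    have e2 : 16 * M * Real.exp (-(l * (x / 2 - x0))) = 16 * e := by rw [he]; ring
    rw [e2]
    linarith

end Pool.Agent.Zk3.GL
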