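import Pool.Agent.Zk3.GL.Nog
import Pool.Agent.Zk3.GL.MP
import Pool.Agent.Zk3.CL.Count

set_option autoImplicit false

/-!
# The density theorem for scattered zeros, one value of `δ`
-/

namespace Pool.Agent.Zk3.GL

open Complex Filter Topology Set Metric MeasureTheory
open ArithmeticFunction (vonMangoldt)

/-- the twisted coefficients -/
noncomputable def tc (a : ℕ → ℂ) (D τ : ℝ) (p : ℕ) : ℂ := gl a p / (D : ℂ) * (p : ℂ) ^ (-((τ : ℂ) * I))

lemma tc_le {a : ℕ → ℂ} {D : ℝ} (hD : 1 ≤ D) (h : ∀ n : ℕ, ‖a n‖ ≤ D * vonMangoldt n) (τ : ℝ) (p : ℕ) :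
    ‖tc a D τ p‖ ≤ 1 := by
  unfold tc
  rcases Nat.eq_zero_or_pos p with rfl | hp
  · have : gl a 0 = 0 := by
      unfold gl
      rw [a_small h (by norm_num)]
      simp
    rw [this]
    simp
  · rw [norm_mul, Complex.norm_natCast_cpow_of_pos hp, norm_div, Complex.norm_real, Real.norm_eq_abs,
      abs_of_pos (show 0 < D by linarith)]
    have e1 : (-((τ : ℂ) * I)).re = 0 := by simp
    rw [e1, Real.rpow_zero, mul_one, div_le_one (by linarith)]
    exact gl_le (by linarith) h p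

lemma Sp_eq {a : ℕ → ℂ} {D : ℝ} (hD : 1 ≤ D) (h : ∀ n : ℕ, ‖a n‖ ≤ D * vonMangoldt n) (τ X : ℝ) (s : ℂ) :
    Sp a X (s + τ * I) = D * SS (tc a D τ) 0 X s := by
  have hDC : (D : ℂ) ≠ 0 := by exact_mod_cast (show D ≠ 0 by linarith)
  unfold Sp SS
  rw [Finset.mul_sum]
  refine Finset.sum_congr ?_ fun p hp => ?_
  · ext p
    simp only [Finset.mem_filter, Finset.mem_Ioc, Finset.mem_Icc]
    constructor
    · rintro ⟨⟨h1, h2⟩, h3⟩
      exact ⟨⟨h1, h2⟩, h3, by exact_mod_cast h1⟩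
    · rintro ⟨⟨h1, h2⟩, h3, -⟩
      exact ⟨⟨h1, h2⟩, h3⟩
  · simp only [Finset.mem_filter, Finset.mem_Icc] at hp
    have hp0 : (p : ℂ) ≠ 0 := by
      have : p ≠ 0 := by omega
      exact_mod_cast this
    unfold tc
    rw [← gl_log h p, neg_add, Complex.cpow_add _ _ hp0]
    field_simp

/-- a crude count -/
lemma crude {D A Q : ℝ} {F : ℂ → ℂ} {a : ℕ → ℂ} (hF : IsL D A Q F a) (hA : 1 ≤ A) (hQ : 1 ≤ Q) {T H : ℝ}
    (hT : 3 ≤ T) (hH : 1 ≤ H) (hHT : H ≤ T) (S : Finset ℂ)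
    (hS : ∀ s ∈ S, F s = 0 ∧ 1 / 2 ≤ s.re ∧ T < s.im ∧ s.im ≤ T + H) :
    ∑ s ∈ S, (analyticOrderNatAt F s : ℝ) ≤ 600 * A * H * Real.log (Q * T) := by
  have hTp : 0 < T := by linarith
  have hQT : 3 ≤ Q * T := by nlinarith
  have hlog1 : 1 ≤ Real.log (Q * T) := by
    rw [Real.le_log_iff_exp_le (by linarith)]
    linarith [Real.exp_one_lt_d9]
  have hlog2 : Real.log (Q * (2 * T)) ≤ 2 * Real.log (Q * T) := by
    have : Real.log (Q * (2 * T)) ≤ Real.log ((Q * T) ^ 2) := by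
      refine Real.log_le_log (by positivity) ?_
      nlinarith
    rw [Real.log_pow] at this
    exact_mod_cast this
  have hre1 : ∀ w : ℂ, F w = 0 → 1 ≤ w.im → w.re ≤ 1 := by
    intro w h0 h1
    by_contra h
    exact hF.nz w (not_le.mp h) h1 h0
  have h := Pool.Agent.Zk3.CL.count (S := S) (m := fun s => (analyticOrderNatAt F s : ℝ)) (h := 1 / 2)
    (X := 48 * A * (2 * Real.log (Q * T))) (V := H + 1) (E := Icc (T - 1 / 2) (T + H + 1 / 2)) (by norm_num)
    (fun _ _ => Nat.cast_nonneg _) (by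
      rw [Real.volume_Icc]
      refine ENNReal.ofReal_le_ofReal ?_
      linarith) (by linarith) (by positivity) (fun s hs t ht => by
      obtain ⟨-, -, h3, h4⟩ := hS s hs
      exact ⟨by linarith [ht.1], by linarith [ht.2]⟩) (fun s hs => by
      obtain ⟨-, -, h3, h4⟩ := hS s hs
      refine (cnt hF hA hQ (y := s.im) (by linarith) _ fun z hz => ?_).trans ?_
      · rw [Finset.mem_filter] at hz
        obtain ⟨g1, g2, g3, g4⟩ := hS z hz.1
        exact ⟨g2, hre1 z g1 (by linarith), hz.2⟩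
      · refine mul_le_mul_of_nonneg_left (le_trans ?_ hlog2) (by positivity)
        refine Real.log_le_log (mul_pos (by linarith) (by linarith)) ?_
        exact mul_le_mul_of_nonneg_left (by linarith) (by linarith))
  refine h.trans ?_
  have e1 : (H + 1) / (1 / 2) * (48 * A * (2 * Real.log (Q * T))) = 192 * (A * (H + 1)) * Real.log (Q * T) := by
    ring
  rw [e1]
  refine mul_le_mul_of_nonneg_right ?_ (by linarith)
  have : A * (H + 1) ≤ A * (2 * H) := mul_le_mul_of_nonneg_left (by linarith) (by linarith)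
  have : 0 ≤ A * H := by positivity
  linarith

theorem win {ε : ℝ} (hε : 0 < ε) (hε1 : ε ≤ 1) : ∃ B cf C0 : ℝ, 1 ≤ B ∧ 0 < cf ∧ 1 ≤ C0 ∧
    ∀ (D A K : ℝ), 1 ≤ D → 1 ≤ A → ∃ C V0 : ℝ, 0 < C ∧ 3 ≤ V0 ∧ ∀ (Q : ℝ) (F : ℂ → ℂ) (a : ℕ → ℂ), 1 ≤ Q →
    IsL D A Q F a → ∀ (T H δ V : ℝ), V = 2 * Real.log (Q * T) → V0 ≤ V → 1 ≤ H → H ≤ T →
    C0 * Real.log V ≤ δ * Real.log H → 0 < δ → δ ≤ 1 / 2 →
    ∀ S : Finset ℂ, (∀ s ∈ S, F s = 0 ∧ 1 / 2 + δ ≤ s.re ∧ T < s.im ∧ s.im ≤ T + H ∧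
      ∀ r : ℝ, δ ≤ r → r ≤ 1 / 2 → FewF F ε B δ r s.im (K + cf * (r * Real.log H))) →
    ∑ s ∈ S, (analyticOrderNatAt F s : ℝ) ≤
      C * H * Real.exp (-((2 - ε) * δ * Real.log H)) * V ^ 4 := by
  classical
  obtain ⟨B, cf, C0, hB, hcf, hC0, hno⟩ := nogood hε hε1
  obtain ⟨Cm, Tm, hCm, hTm, hmp⟩ := smpc (ε / 64) 1 (ε / 8) (by linarith) (by linarith) (by linarith) (by linarith)
  refine ⟨B, cf, C0, hB, hcf, hC0, ?_⟩
  intro D A K hD hA
  obtain ⟨V1, hV1, hnoV⟩ := hno D A K (by linarith) hA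
  -- large `T`
  have hlim : ∀ᶠ T : ℝ in atTop, B * Real.log T ≤ T / 8 := by
    have h1 : (fun T : ℝ => Real.log T) =o[atTop] fun T : ℝ => T := Real.isLittleO_log_id_atTop
    have h2 := h1.bound (show (0 : ℝ) < 1 / (8 * B) by positivity)
    filter_upwards [h2, eventually_ge_atTop 1] with T hT hT1
    rw [Real.norm_eq_abs, Real.norm_eq_abs, abs_of_nonneg (Real.log_nonneg hT1), abs_of_pos (by linarith)] at hT
    calc B * Real.log T ≤ B * (1 / (8 * B) * T) := mul_le_mul_of_nonneg_left hT (by linarith)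
      _ = T / 8 := by field_simp
  obtain ⟨T1, hT1⟩ := eventually_atTop.mp hlim
  refine ⟨Cm * (2 * B) * 100 * (|K| + cf), V1 + |T1| + Tm + 16, by positivity, by
    have := abs_nonneg T1
    linarith, ?_⟩
  intro Q F a hQ hF T H δ V hVe hV hH hHT hδL hδ hδ2 S hS
  have hT1a := abs_nonneg T1
  have hV1' : V1 ≤ V := by linarith
  have hV16 : 16 ≤ V := by linarith
  have hV0 : 0 < V := by linarith
  have hlV : 1 ≤ Real.log V := by
    rw [Real.le_log_iff_exp_le hV0]
    linarith [Real.exp_one_lt_d9]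
  have hlV2 : 2 ≤ Real.log V := by
    rw [Real.le_log_iff_exp_le hV0]
    have : Real.exp 2 = Real.exp 1 * Real.exp 1 := by rw [← Real.exp_add]; norm_num
    rw [this]
    have h1 := Real.exp_one_lt_d9
    have h2 := Real.exp_pos 1
    nlinarith
  obtain ⟨L, hL⟩ : ∃ L : ℝ, L = Real.log H := ⟨_, rfl⟩
  rw [← hL] at hδL hS ⊢
  have hδLV : Real.log V ≤ δ * L := (le_mul_of_one_le_left (by linarith) hC0).trans hδL
  have hLV2 : 2 * Real.log V ≤ L := by
    have hLpos : 0 < L := by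
      by_contra h
      have := mul_nonpos_of_nonneg_of_nonpos hδ.le (not_lt.mp h)
      linarith
    have : δ * L ≤ 1 / 2 * L := mul_le_mul_of_nonneg_right hδ2 hLpos.le
    linarith
  have hL1 : 1 ≤ L := by linarith
  have hHp : 0 < H := by linarith
  have hVH : V ^ 2 ≤ H := by
    rw [← Real.exp_log hHp, ← hL]
    calc V ^ 2 = Real.exp (2 * Real.log V) := by
          rw [two_mul, Real.exp_add, Real.exp_log hV0]; ring
      _ ≤ _ := Real.exp_le_exp.mpr hLV2
  have hVH' : V ≤ H := le_trans (by nlinarith) hVH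
  have hHT1 : B * L ≤ H / 8 := by
    have h1 : T1 ≤ H := by
      have := le_abs_self T1
      linarith
    rw [hL]
    exact hT1 H h1
  have hTmH : Tm ≤ H := by linarith
  have hTp : 0 < T := by linarith
  have hT3 : 16 ≤ T := by linarith
  have hQT : 16 ≤ Q * T := by nlinarith
  have hQ0 : 0 < Q := by linarith
  have hLT : L ≤ Real.log T := by rw [hL]; exact Real.log_le_log hHp hHT
  have hLV : L ≤ V := by
    have h1 : Real.log T ≤ Real.log (Q * T) := Real.log_le_log hTp (le_mul_of_one_le_left hTp.le hQ)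
    linarith
  have hδ1 : 1 / δ ≤ L := by
    rw [div_le_iff₀ hδ]
    linarith
  have hBδ : B / δ ≤ H / 8 := by
    calc B / δ = B * (1 / δ) := by ring
      _ ≤ B * L := mul_le_mul_of_nonneg_left hδ1 (by linarith)
      _ ≤ _ := hHT1
  obtain ⟨x, hx⟩ : ∃ x : ℝ, x = (1 - ε / 8) * δ := ⟨_, rfl⟩
  have hx7 : 7 / 8 * δ ≤ x := by rw [hx]; exact mul_le_mul_of_nonneg_right (by linarith) hδ.le
  have hxδ : x ≤ δ := by rw [hx]; exact mul_le_of_le_one_left hδ.le (by linarith)
  have hxp : 0 < x := by linarith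
  have hxB : x ≤ B / δ := by
    rw [le_div_iff₀ hδ]
    have : x * δ ≤ 1 * 1 := mul_le_mul (by linarith) (by linarith) hδ.le (by norm_num)
    linarith
  obtain ⟨τ, hτ⟩ : ∃ τ : ℝ, τ = T - H := ⟨_, rfl⟩
  have hm := hmp (tc a D τ) (tc_le hD hF.coef τ) H x (B / δ) hTmH (by
    rw [← hL, div_le_iff₀ (by linarith)]
    have : 7 / 8 * δ * L ≤ x * L := mul_le_mul_of_nonneg_right hx7 (by linarith)
    linarith) hxB hBδ
  rw [← hL, one_mul] at hm
  set E0 : Set ℝ := {t : ℝ | H / 2 ≤ t ∧ t ≤ 3 * H ∧ ∃ z : ℂ, x ≤ z.re ∧ |z.im - t| ≤ B / δ ∧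
      L < ‖SS (tc a D τ) 0 (H ^ (ε / 64)) (1 / 2 + z)‖} with hE0
  have hmE : volume ((fun t : ℝ => t + (-τ)) ⁻¹' E0) ≤
      ENNReal.ofReal (Cm * H * (B / δ / x) * Real.exp (-(2 * (1 - ε / 8) * x * L))) := by
    rw [measure_preimage_add_right]
    exact hm
  have hcount := Pool.Agent.Zk3.CL.count (S := S) (m := fun s => (analyticOrderNatAt F s : ℝ)) (h := δ / 100)
    (X := (|K| + cf) * V) (by positivity) (fun _ _ => Nat.cast_nonneg _) hmE (by positivity) (by positivity) ?_ ?_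
  · refine hcount.trans ?_
    have hδV : 1 / δ ≤ V := hδ1.trans hLV
    have e1 : Cm * H * (B / δ / x) * Real.exp (-(2 * (1 - ε / 8) * x * L)) / (δ / 100) * ((|K| + cf) * V) =
        Cm * H * (B * (1 / δ) * (1 / x)) * Real.exp (-(2 * (1 - ε / 8) * x * L)) * (100 * (1 / δ)) *
          ((|K| + cf) * V) := by
      field_simp
    rw [e1]
    have hx2 : 1 / x ≤ 2 * V := by
      calc 1 / x ≤ 1 / (7 / 8 * δ) := one_div_le_one_div_of_le (by positivity) hx7
        _ = 8 / 7 * (1 / δ) := by field_simp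
        _ ≤ 2 * V := by linarith
    have hexp : Real.exp (-(2 * (1 - ε / 8) * x * L)) ≤ Real.exp (-((2 - ε) * δ * L)) := by
      refine Real.exp_le_exp.mpr (neg_le_neg ?_)
      refine mul_le_mul_of_nonneg_right ?_ (by linarith)
      rw [hx]
      have h7 : 2 * (1 - ε / 8) * ((1 - ε / 8) * δ) - (2 - ε) * δ = 1 / 2 * (ε * δ) + 1 / 32 * (ε * ε * δ) := by
        ring
      have h8 : 0 ≤ 1 / 2 * (ε * δ) + 1 / 32 * (ε * ε * δ) := by positivity
      linarith
    have hKc : 0 ≤ |K| + cf := by positivity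
    calc Cm * H * (B * (1 / δ) * (1 / x)) * Real.exp (-(2 * (1 - ε / 8) * x * L)) * (100 * (1 / δ)) *
          ((|K| + cf) * V)
        ≤ Cm * H * (B * V * (2 * V)) * Real.exp (-((2 - ε) * δ * L)) * (100 * V) * ((|K| + cf) * V) := by
          gcongr
      _ = _ := by ring
  · intro s hs t ht
    obtain ⟨h1, h2, h3, h4, h5⟩ := hS s hs
    have htr : t + -τ = t - T + H := by rw [hτ]; ring
    show t + -τ ∈ E0
    have hd100 : δ / 100 ≤ 1 := by linarith
    refine ⟨by rw [htr]; linarith [ht.1], by rw [htr]; linarith [ht.2], ?_⟩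
    by_contra hcon
    push Not at hcon
    have hst : |s.im - t| ≤ δ / 100 := by
      rw [abs_le]
      constructor <;> linarith [ht.1, ht.2]
    refine hnoV Q F a hQ hF L V δ t s hV1' hL1 hLV hδL hδ hδ2 ?_ ?_ h1 h2 hst h5
    · intro y hy
      rw [abs_le] at hy
      have hy1 : 3 ≤ y := by linarith [hy.1, ht.1]
      refine ⟨hy1, ?_⟩
      have hy2 : y ≤ 4 * T := by linarith [hy.2, ht.2]
      have h6 : Real.log (Q * y) ≤ Real.log ((Q * T) ^ 2) := by
        refine Real.log_le_log (by positivity) ?_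
        have : Q * y ≤ Q * (4 * T) := mul_le_mul_of_nonneg_left hy2 hQ0.le
        nlinarith
      rw [Real.log_pow] at h6
      rw [hVe]
      exact_mod_cast h6
    · intro z hz1 hz2
      have h6 := hcon (z - τ * I) (by rw [hx]; simpa using hz1) (by
        have e1 : (z - τ * I).im - (t + -τ) = z.im - t := by
          have e0 : ((τ : ℂ) * I).im = τ := by simp
          rw [Complex.sub_im, e0]
          ring
        rw [e1]
        exact hz2)
      have h7 := Sp_eq hD hF.coef τ (Real.exp (ε / 64 * L)) (1 / 2 + (z - τ * I))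
      have e2 : 1 / 2 + (z - τ * I) + τ * I = 1 / 2 + z := by ring
      rw [e2] at h7
      rw [h7, norm_mul, Complex.norm_real, Real.norm_eq_abs, abs_of_pos (show 0 < D by linarith)]
      refine mul_le_mul_of_nonneg_left ?_ (by linarith)
      rw [Real.rpow_def_of_pos hHp, ← hL, mul_comm L] at h6
      exact h6
  · intro s hs
    obtain ⟨h1, h2, h3, h4, h5⟩ := hS s hs
    refine (h5 δ le_rfl hδ2 _ fun z hz => ?_).trans ?_
    · rw [Finset.mem_filter] at hz
      obtain ⟨g1, g2, g3, g4, -⟩ := hS z hz.1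
      have g5 := mul_pos hε hδ
      refine ⟨g1, by linarith, by linarith, hz.2.trans ?_⟩
      rw [div_self hδ.ne', Real.one_rpow, mul_one]
      have g6 : 1 * δ ≤ B * δ := mul_le_mul_of_nonneg_right hB hδ.le
      linarith
    · have h6 := le_abs_self K
      have h7 : |K| ≤ |K| * V := le_mul_of_one_le_right (abs_nonneg K) (by linarith)
      have h8 : cf * (δ * L) ≤ cf * V := by
        refine mul_le_mul_of_nonneg_left ?_ hcf.le
        calc δ * L ≤ 1 * L := mul_le_mul_of_nonneg_right (by linarith) (by linarith)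
          _ ≤ V := by linarith
      linarith

end Pool.Agent.Zk3.GL
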